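import Mathlib
import Pool.Agent.H61.W.JWorld
import Pool.Agent.H45.W.Sym

set_option autoImplicit false
open Finset

/-! # Reflection `(x, y) ↦ (x, -1 - y)` of the worlds of the junction box

`rp` on tiles, `rm` on marks, `rcl` on the colours of the outer layer; on labels and corners it is 45's `sw`.
Output: `reach_GX`, `reach_GY`, `reach_GP` (strand graphs), `PJ_sw` (law), `PJ_GX`, `PJ_GY`, `PJ_GP`,
`cntq_GY`, `PJ_GY_cnt` (passages through the deleted row). -/

namespace Pool.Agent.H16.W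

open Pool.Agent.H33.Q1 Pool.Agent.H6.W Pool.Agent.H50.W Pool.Agent.H58.W Pool.Agent.H13.W
open Pool.Agent.H45.W (sw sw_sw sw_inj sw_injective swE swS swF mem_swS mem_swF swF_swF reach_sw
  eW_sw eE_sw eS_sw eN_sw)
open Pool.Agent.H61.W
open Pool.Agent.H75.Perc (lab)
open Pool.Agent.H75.TwoArm (plab)

/-- reflection of a tile -/
def rp (p : ℤ × ℤ) : ℤ × ℤ := (p.1, -1 - p.2)

@[simp] lemma rp_rp (p : ℤ × ℤ) : rp (rp p) = p := by unfold rp; simp

lemma sw_lt (p : ℤ × ℤ) : sw (lt p) = lt (rp p) := by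
  unfold sw lt rp; exact Prod.ext (by simp only; ring) (by simp only; ring)

lemma tt_sw {e : ℤ × ℤ} (he : (e.1 + e.2) % 2 = 1) : tt (sw e) = rp (tt e) := by
  obtain ⟨p, rfl⟩ : ∃ p, e = lt p := ⟨tt e, (lt_tt he).symm⟩
  rw [sw_lt, tt_lt, tt_lt]

/-- reflection of a mark -/
def rm (c : Bool × ℕ) : Bool × ℕ := (!c.1, c.2)

@[simp] lemma rm_rm (c : Bool × ℕ) : rm (rm c) = c := by unfold rm; simp

lemma rm_inj {a b : Bool × ℕ} (h : rm a = rm b) : a = b := by
  rw [← rm_rm a, h, rm_rm]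

lemma rm_injective : Function.Injective rm := fun _ _ h => rm_inj h

/-- reflection of the colours of the outer layer -/
def rcl (cl : Cl) : Cl := ⟨cl.l, cl.u, fun y => cl.cr (-1 - y)⟩

/-- reflection of a set of tiles -/
def rpS (D : Set (ℤ × ℤ)) : Set (ℤ × ℤ) := {p | rp p ∈ D}

@[simp] lemma mem_rpS {D : Set (ℤ × ℤ)} {p : ℤ × ℤ} : p ∈ rpS D ↔ rp p ∈ D := Iff.rfl

lemma neg_ediv {n : ℤ} (hn : 0 < n) (y : ℤ) : (-1 - y) / n = -1 - y / n := by
  have h1 := Int.ediv_mul_le y hn.ne'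
  have h2 := Int.lt_ediv_add_one_mul_self y hn
  set q := y / n with hq
  refine le_antisymm ?_ ?_
  · have : (-1 - y) / n < -1 - q + 1 := Int.ediv_lt_of_lt_mul hn (by nlinarith)
    omega
  · exact Int.le_ediv_of_mul_le hn (by nlinarith)

lemma ct_rp {n : ℤ} (hn : 0 < n) (p : ℤ × ℤ) : ct n (rp p) = rp (ct n p) := by
  unfold ct rp
  rw [neg_ediv hn]

section box

variable {b : JBox} {n : ℤ}

lemma mem_RC {a c d e : ℤ} {p : ℤ × ℤ} : p ∈ RC a c d e ↔ (a ≤ p.1 ∧ p.1 < c) ∧ d ≤ p.2 ∧ p.2 < e := by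
  unfold RC
  rw [mem_product, mem_Ico, mem_Ico]

/-- the cells of the box are symmetric -/
lemma rp_mem_Q (p : ℤ × ℤ) : rp p ∈ b.Q ↔ p ∈ b.Q := by
  have key : ∀ p : ℤ × ℤ, p ∈ b.Q → rp p ∈ b.Q := by
    intro p hp
    unfold JBox.Q at hp ⊢
    rw [mem_union, mem_biUnion] at hp ⊢
    rcases hp with hp | ⟨i, hi, hp⟩
    · left
      rw [mem_RC] at hp ⊢
      unfold rp
      simp only
      omega
    · right
      refine ⟨i, hi, ?_⟩
      rw [mem_union, mem_RC, mem_RC] at hp ⊢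
      unfold rp
      simp only
      omega
  exact ⟨fun h => by simpa using key _ h, key p⟩

lemma InQ_rp (hn : 0 < n) (x y : ℤ) : InQ b n x (-1 - y) ↔ InQ b n x y := by
  unfold InQ
  rw [neg_ediv hn]
  exact rp_mem_Q (b := b) (x / n, y / n)

lemma Ly_rp (hn : 0 < n) (x y : ℤ) : Ly b n x (-1 - y) ↔ Ly b n x y := by
  have key : ∀ x y : ℤ, Ly b n x y → Ly b n x (-1 - y) := by
    rintro x y ⟨h1, i, j, hi, hj, h2⟩
    refine ⟨fun h => h1 ((InQ_rp hn x y).1 h), i, -j, hi, by rwa [abs_neg], ?_⟩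
    have e : -1 - y + -j = -1 - (y + j) := by ring
    rw [e, InQ_rp hn]
    exact h2
  refine ⟨fun h => ?_, key x y⟩
  have := key _ _ h
  have e : -1 - (-1 - y) = y := by ring
  rwa [e] at this

lemma chn_rp (x0 : ℤ) (M τ : ℕ) (p : ℤ × ℤ) : chn x0 M τ (rp p) = chn x0 M τ p := by
  unfold chn rp
  simp only
  split_ifs <;> first | rfl | (exfalso; omega)

lemma InC_rp (hn : 0 < n) (x y : ℤ) : InC b n x (-1 - y) ↔ InC b n x y := by
  unfold InC
  rw [InQ_rp hn, neg_ediv hn]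
  have := chn_rp 0 b.M b.τ (x / n, y / n)
  unfold rp at this
  simp only at this
  rw [this]

lemma InR_rp (hn : 0 < n) (x y : ℤ) : InR b n x (-1 - y) ↔ InR b n x y := by
  unfold InR
  rw [InQ_rp hn, neg_ediv hn]
  have := chn_rp 0 b.M b.τ (x / n, y / n)
  unfold rp at this
  simp only at this
  rw [this]

lemma dgt_rm (c : Bool × ℕ) : dgt b n (rm c) = rp (dgt b n c) := by
  obtain ⟨u, i⟩ := c
  unfold dgt cpt rm rp
  cases u
  · simp only [Bool.not_false, if_true, Bool.false_eq_true, if_false]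
    refine Prod.ext rfl ?_
    simp only
    ring
  · simp only [Bool.not_true, if_true, Bool.false_eq_true, if_false]
    refine Prod.ext rfl ?_
    simp only
    ring

lemma f1_rm (c : Bool × ℕ) : f1 b n (rm c) = sw (f1 b n c) := by
  unfold f1
  rw [dgt_rm, ← sw_lt, eE_sw]

lemma f2_rm (c : Bool × ℕ) : f2 b n (rm c) = sw (f2 b n c) := by
  unfold f2
  rw [dgt_rm, ← sw_lt, eS_sw, eN_sw]
  obtain ⟨u, i⟩ := c
  cases u <;> simp [rm]

lemma Lam_rm (hn : 0 < n) (M : Finset (Bool × ℕ)) : Lam b n (M.image rm) = swS (Lam b n M) := by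
  have key : ∀ (M : Finset (Bool × ℕ)) (e : ℤ × ℤ), e ∈ Lam b n M → sw e ∈ Lam b n (M.image rm) := by
    rintro M e ⟨x, y, rfl, h⟩
    refine ⟨x, -1 - y, sw_lt (x, y), ?_⟩
    rcases h with h | ⟨h, h2⟩
    · exact Or.inl ((InQ_rp hn x y).2 h)
    · refine Or.inr ⟨(Ly_rp hn x y).2 h, ?_⟩
      intro c hc he
      obtain ⟨c', hc', rfl⟩ := mem_image.1 hc
      apply h2 c' hc'
      rw [dgt_rm] at he
      have := congrArg rp he
      rw [rp_rp] at this
      rw [← this]
      unfold rp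
      simp
  ext e
  rw [mem_swS]
  constructor
  · intro h
    have := key _ _ h
    rw [image_image] at this
    have e1 : M.image (rm ∘ rm) = M := by
      have : rm ∘ rm = id := by funext c; simp
      rw [this, image_id]
    rwa [e1] at this
  · intro h
    have := key _ _ h
    rwa [sw_sw] at this

lemma lcol_rp (cl : Cl) (x y : ℤ) : lcol b n (rcl cl) x (-1 - y) = lcol b n cl x y := by
  unfold lcol rcl
  simp only
  have e1 : -1 - (-1 - y) = y := by ring
  have e2 : -(-1 - y) - 1 = y := by ring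
  have e3 : -1 - y = -y - 1 := by ring
  by_cases h1 : b.X * n ≤ x
  · rw [if_pos h1, if_pos h1, e1]
  · rw [if_neg h1, if_neg h1]
    by_cases h2 : 0 ≤ y
    · rw [if_neg (by omega), if_pos h2, e2]
    · rw [if_pos (by omega), if_neg h2, e3]

lemma rcl_rcl (cl : Cl) : rcl (rcl cl) = cl := by
  unfold rcl
  simp

lemma Wl_rcl (hn : 0 < n) (cl : Cl) : Wl b n (rcl cl) = swF (Wl b n cl) := by
  classical
  have key : ∀ (cl : Cl) (e : ℤ × ℤ), e ∈ Wl b n cl → sw e ∈ Wl b n (rcl cl) := by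
    intro cl e he
    unfold Wl at he ⊢
    rw [mem_image] at he ⊢
    obtain ⟨⟨x, y⟩, h, rfl⟩ := he
    rw [mem_filter, mem_product, mem_Icc, mem_Icc] at h
    obtain ⟨⟨h1, h2⟩, h3, h4⟩ := h
    refine ⟨(x, -1 - y), ?_, (sw_lt (x, y)).symm⟩
    rw [mem_filter, mem_product, mem_Icc, mem_Icc]
    simp only at h1 h2 h3 h4 ⊢
    refine ⟨⟨h1, by omega⟩, fun h => h3 ((InQ_rp hn x y).1 h), ?_⟩
    rw [lcol_rp]
    exact h4
  ext e
  rw [mem_swF]
  constructor
  · intro h
    have := key _ _ h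
    rwa [rcl_rcl] at this
  · intro h
    have := key _ _ h
    rwa [sw_sw] at this

lemma lt_image_rpS (D : Set (ℤ × ℤ)) : lt '' (rpS D) = swS (lt '' D) := by
  ext e
  rw [mem_swS, Set.mem_image, Set.mem_image]
  constructor
  · rintro ⟨p, hp, rfl⟩
    exact ⟨rp p, hp, (sw_lt p).symm⟩
  · rintro ⟨p, hp, h⟩
    refine ⟨rp p, by simpa using hp, ?_⟩
    rw [← sw_lt, h, sw_sw]

lemma swF_union (a c : Finset (ℤ × ℤ)) : swF (a ∪ c) = swF a ∪ swF c := by
  ext e; simp

lemma swF_sdiff (a c : Finset (ℤ × ℤ)) : swF (a \ c) = swF a \ swF c := by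
  ext e; simp

lemma swF_symmDiff (a c : Finset (ℤ × ℤ)) : swF (symmDiff a c) = symmDiff (swF a) (swF c) := by
  ext e; simp [mem_symmDiff]

/-- **the reflected strand graph** -/
theorem reach_GG (hn : 0 < n) (M : Finset (Bool × ℕ)) (cl : Cl) (D : Set (ℤ × ℤ))
    (w : Finset (ℤ × ℤ)) {c d : ℤ × ℤ} :
    (GG b n (M.image rm) (rcl cl) (rpS D) (swF w)).Reachable (sw c) (sw d) ↔
      (GG b n M cl D w).Reachable c d := by
  unfold GG
  rw [Lam_rm hn, lt_image_rpS, Wl_rcl hn, ← swF_union, reach_sw]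

/-! ### The colours -/

lemma par_add (k l : ℕ) : par (k + l) = (par k ^^ par l) := by
  unfold par
  rcases Nat.mod_two_eq_zero_or_one k with h | h <;> rcases Nat.mod_two_eq_zero_or_one l with h' | h' <;>
    simp [Nat.add_mod, h, h']

/-- total number of marks and exits as a parity -/
def tp (M : Finset (Bool × ℕ)) (ex : Option ℤ) : Bool := par M.card ^^ ex.isSome

lemma card_rm (M : Finset (Bool × ℕ)) (p : Bool × ℕ → Prop) [DecidablePred p] :
    ((M.image rm).filter p).card = (M.filter fun c => p (rm c)).card := by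
  rw [filter_image, card_image_of_injective _ rm_injective]

lemma card_split (M : Finset (Bool × ℕ)) :
    M.card = (M.filter fun c => c.1 = true).card + (M.filter fun c => c.1 = false).card := by
  rw [← card_filter_add_card_filter_not (s := M) (p := fun c => c.1 = true)]
  congr 2
  ext c
  cases c.1 <;> simp

/-- **the reflected colours**: equal except at the row of the exit -/
lemma colM_rm (base : Bool) (M : Finset (Bool × ℕ)) (ex ex' : Option ℤ) (hex : ex' = ex.map fun r => -1 - r) :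
    (∀ i, (rcl (colM base M ex)).u i = (colM (base ^^ tp M ex) (M.image rm) ex').u i) ∧
    (∀ i, (rcl (colM base M ex)).l i = (colM (base ^^ tp M ex) (M.image rm) ex').l i) ∧
    (∀ y, ex' ≠ some y → (rcl (colM base M ex)).cr y = (colM (base ^^ tp M ex) (M.image rm) ex').cr y) := by
  have c1 : ((M.image rm).filter fun c => c.1 = true).card = (M.filter fun c => c.1 = false).card := by
    rw [card_rm]
    congr 1
    ext c
    obtain ⟨u, i⟩ := c
    cases u <;> simp [rm]
  have hc : par M.card = (par (M.filter fun c => c.1 = true).card ^^ par (M.filter fun c => c.1 = false).card) := by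
    rw [card_split, par_add]
  have c2 : ∀ i, ((M.image rm).filter fun c => c.1 = true ∧ c.2 < i).card =
      (M.filter fun c => c.1 = false ∧ c.2 < i).card := by
    intro i
    rw [card_rm]
    congr 1
    ext c
    obtain ⟨u, j⟩ := c
    cases u <;> simp [rm]
  have c3 : ∀ i, ((M.image rm).filter fun c => c.1 = false ∧ i ≤ c.2).card =
      (M.filter fun c => c.1 = true ∧ i ≤ c.2).card := by
    intro i
    rw [card_rm]
    congr 1
    ext c
    obtain ⟨u, j⟩ := c
    cases u <;> simp [rm]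
  have sp : ∀ (u : Bool) (i : ℕ), par (M.filter fun c => c.1 = u).card =
      (par (M.filter fun c => c.1 = u ∧ c.2 < i).card ^^ par (M.filter fun c => c.1 = u ∧ i ≤ c.2).card) := by
    intro u i
    rw [← par_add]
    congr 1
    rw [← card_filter_add_card_filter_not (s := M.filter fun c => c.1 = u) (p := fun c => c.2 < i),
      filter_filter, filter_filter]
    simp only [not_lt]
  have hs : ex'.isSome = ex.isSome := by rw [hex]; simp
  refine ⟨fun i => ?_, fun i => ?_, fun y hy => ?_⟩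
  · unfold rcl colM tp
    simp only
    rw [c2 i, hc, sp false i]
    generalize par (M.filter fun c => c.1 = true).card = p1
    generalize par (M.filter fun c => c.1 = false ∧ c.2 < i).card = p2
    generalize par (M.filter fun c => c.1 = false ∧ i ≤ c.2).card = p3
    cases base <;> cases p1 <;> cases p2 <;> cases p3 <;> cases ex.isSome <;> rfl
  · unfold rcl colM tp
    simp only
    rw [c1, c3 i, hs, hc, sp true i]
    generalize par (M.filter fun c => c.1 = false).card = p1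
    generalize par (M.filter fun c => c.1 = true ∧ c.2 < i).card = p2
    generalize par (M.filter fun c => c.1 = true ∧ i ≤ c.2).card = p3
    cases base <;> cases p1 <;> cases p2 <;> cases p3 <;> cases ex.isSome <;> rfl
  · unfold rcl colM tp
    simp only
    rw [c1, hc]
    generalize par (M.filter fun c => c.1 = false).card = p1
    generalize par (M.filter fun c => c.1 = true).card = p2
    rcases ex with _ | r
    · subst hex
      simp only [Option.map_none, Option.isSome_none]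
      cases base <;> cases p1 <;> cases p2 <;> rfl
    · subst hex
      simp only [Option.map_some, ne_eq, Option.some.injEq, Option.isSome_some] at hy ⊢
      have hd : decide (-1 - y < r) = !decide (y < -1 - r) := by
        by_cases h : -1 - y < r
        · have : ¬ (y < -1 - r) := by omega
          simp [h, this]
        · have : y < -1 - r := by omega
          simp [h, this]
      rw [hd]
      generalize decide (y < -1 - r) = q
      cases base <;> cases p1 <;> cases p2 <;> cases q <;> rfl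

/-- only the colours of the tiles which are not deleted matter -/
lemma mem_Wl {cl : Cl} {x y : ℤ} : lt (x, y) ∈ Wl b n cl ↔
    ((-(b.X * n) - 3 ≤ x ∧ x ≤ b.X * n + 2) ∧ (-((b.H + b.K) * n) - 3 ≤ y ∧ y ≤ (b.H + b.K) * n + 2)) ∧
      ¬ InQ b n x y ∧ lcol b n cl x y = true := by
  classical
  unfold Wl
  rw [mem_image]
  constructor
  · rintro ⟨p, hp, h⟩
    have := lt_inj h
    subst this
    rw [mem_filter, mem_product, mem_Icc, mem_Icc] at hp
    exact hp
  · rintro h
    refine ⟨(x, y), ?_, rfl⟩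
    rw [mem_filter, mem_product, mem_Icc, mem_Icc]
    exact h

lemma GG_congr_cl {M : Finset (Bool × ℕ)} {cl cl' : Cl} {D : Set (ℤ × ℤ)} {w : Finset (ℤ × ℤ)}
    (h : ∀ x y, (x, y) ∉ D → lcol b n cl x y = lcol b n cl' x y) :
    GG b n M cl D w = GG b n M cl' D w := by
  unfold GG
  refine SG_congr (fun _ _ => Iff.rfl) ?_
  rintro e ⟨x, y, rfl, -⟩ hD
  have hD' : (x, y) ∉ D := fun hh => hD ⟨_, hh, rfl⟩
  rw [mem_union, mem_union, mem_Wl, mem_Wl, h x y hD']

/-- **the reflected strand graph with the colours of the marks** -/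
theorem reach_GGM (hn : 0 < n) (base : Bool) (M : Finset (Bool × ℕ)) (ex ex' : Option ℤ)
    (hex : ex' = ex.map fun r => -1 - r) (D : Set (ℤ × ℤ))
    (hD : ∀ r, ex = some r → ∀ x, b.X * n ≤ x → (x, r) ∈ D) (w : Finset (ℤ × ℤ)) {c d : ℤ × ℤ} :
    (GG b n (M.image rm) (colM (base ^^ tp M ex) (M.image rm) ex') (rpS D) (swF w)).Reachable
      (sw c) (sw d) ↔ (GG b n M (colM base M ex) D w).Reachable c d := by
  obtain ⟨h1, h2, h3⟩ := colM_rm base M ex ex' hex
  have e : GG b n (M.image rm) (colM (base ^^ tp M ex) (M.image rm) ex') (rpS D) (swF w) =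
      GG b n (M.image rm) (rcl (colM base M ex)) (rpS D) (swF w) := by
    refine GG_congr_cl fun x y hxy => ?_
    unfold lcol
    by_cases hx : b.X * n ≤ x
    · rw [if_pos hx, if_pos hx, h3]
      intro hy
      apply hxy
      rcases ex with _ | r
      · rw [hex] at hy; simp at hy
      · rw [hex] at hy
        simp only [Option.map_some, Option.some.injEq] at hy
        show (x, -1 - y) ∈ D
        rw [← hy]
        have e1 : -1 - (-1 - r) = r := by ring
        rw [e1]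
        exact hD r rfl x hx
    · rw [if_neg hx, if_neg hx, h1, h2]
  rw [e, reach_GG hn]

end box

/-! ### The law -/

section law

variable {b : JBox} {h : ℕ}

lemma TL_sw {n : ℤ} (hn : 0 < n) {Q : Finset (ℤ × ℤ)} (hQ : ∀ p, rp p ∈ Q ↔ p ∈ Q) :
    swF (TL Q n) = TL Q n := by
  ext e
  rw [mem_swF, mem_TL hn, mem_TL hn]
  have e1 : ((sw e).1 + (sw e).2) % 2 = 1 ↔ (e.1 + e.2) % 2 = 1 := by
    unfold sw; simp only; rw [add_comm]
  rw [e1]
  refine and_congr_right fun ho => ?_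
  rw [tt_sw ho, ct_rp hn, hQ]

lemma two_pos (hh : 0 < h) : (0 : ℤ) < 2 * (h : ℤ) := by omega

lemma B_sw (hh : 0 < h) : swF (b.B h) = b.B h := TL_sw (two_pos hh) rp_mem_Q

lemma rp_mem_Pc (p : ℤ × ℤ) : rp p ∈ b.Pc ↔ p ∈ b.Pc := by
  have key : ∀ p : ℤ × ℤ, p ∈ b.Pc → rp p ∈ b.Pc := by
    intro p hp
    unfold JBox.Pc at hp ⊢
    rw [mem_biUnion] at hp ⊢
    obtain ⟨i, hi, hp⟩ := hp
    refine ⟨i, hi, ?_⟩
    rw [mem_RC] at hp ⊢
    unfold rp
    simp only
    refine ⟨hp.1, ?_⟩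
    omega
  exact ⟨fun h => by simpa using key _ h, key p⟩

lemma Pl_sw (hh : 0 < h) : swF (b.Pl h) = b.Pl h := TL_sw (two_pos hh) rp_mem_Pc

lemma cfg_sw (hh : 0 < h) (o : Bool) (ω : Finset (ℤ × ℤ)) : cfg b h o (swF ω) = swF (cfg b h o ω) := by
  unfold cfg
  cases o
  · simp only [Bool.false_eq_true, if_false]
    rw [swF_sdiff, Pl_sw hh]
  · simp only [if_true]
    rw [swF_union, Pl_sw hh]

lemma flp_not (hh : 0 < h) (s : Bool) (x1 : ℤ) : flp b h (!s) x1 = swF (flp b h s x1) := by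
  classical
  ext e
  rw [mem_swF]
  unfold flp
  rw [mem_filter, mem_filter]
  have hB : sw e ∈ b.B h ↔ e ∈ b.B h := by
    rw [← mem_swF, B_sw hh]
  rw [hB]
  refine and_congr_right fun he => ?_
  have ho : (e.1 + e.2) % 2 = 1 := ((mem_TL (two_pos hh)).1 he).1
  rw [tt_sw ho]
  have h1 : (rp (tt e)).1 = (tt e).1 := rfl
  have h2 : (rp (tt e)).2 = -1 - (tt e).2 := rfl
  rw [h1, h2, InC_rp (two_pos hh)]
  refine and_congr_right fun _ => and_congr_right fun _ => ?_
  cases s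
  · simp only [Bool.not_false, if_true, Bool.false_eq_true, if_false]
    constructor <;> intro <;> omega
  · simp only [Bool.not_true, if_true, Bool.false_eq_true, if_false]
    constructor <;> intro <;> omega

lemma strD_rp (v : ℤ × ℤ) : strD (rp v) = rpS (strD v) := by
  ext p
  unfold strD rpS rp
  simp only [Set.mem_ofPred_eq]
  constructor
  · rintro ⟨h1, h2⟩
    exact ⟨by omega, h2⟩
  · rintro ⟨h1, h2⟩
    exact ⟨by omega, h2⟩

lemma Yr_not (s : Bool) : Yr (!s) = -1 - Yr s := by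
  unfold Yr; cases s <;> rfl

lemma slD_not (s : Bool) (x1 : ℤ) : slD (!s) x1 = rpS (slD s x1) := by
  ext p
  unfold slD rpS rp
  rw [Yr_not]
  simp only [Set.mem_ofPred_eq]
  constructor
  · rintro ⟨h1, h2⟩
    exact ⟨by omega, h2⟩
  · rintro ⟨h1, h2⟩
    exact ⟨by omega, h2⟩

lemma rpS_union (D D' : Set (ℤ × ℤ)) : rpS (D ∪ D') = rpS D ∪ rpS D' := rfl

lemma zc_rp (v : ℤ × ℤ) : zc (rp v) = sw (zc v) := by
  unfold zc; rw [← sw_lt, eW_sw]

lemma mc_not (s : Bool) (x1 : ℤ) : mc (!s) x1 = sw (mc s x1) := by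
  unfold mc
  rw [Yr_not]
  have : (x1, -1 - Yr s) = rp (x1, Yr s) := rfl
  rw [this, ← sw_lt, eW_sw]

lemma bs_ok (w : Bool) {c2 c3 c4 : Bool × ℕ} (h1 : c2 ≠ c3) (h2 : c2 ≠ c4) (h3 : c3 ≠ c4) (r : ℤ) :
    (bs w ^^ tp {c2, c3, c4} (some r)) = bs w := by
  unfold tp
  rw [card_eq_three.2 ⟨c2, c3, c4, h1, h2, h3, rfl⟩]
  cases w <;> rfl

lemma bsP_ok2 (w s : Bool) {c3 c4 : Bool × ℕ} (h3 : c3 ≠ c4) (r : ℤ) :
    (bsP w s ^^ tp {c3, c4} (some r)) = bsP w (!s) := by
  unfold tp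
  rw [card_eq_two.2 ⟨c3, c4, h3, rfl⟩]
  cases w <;> cases s <;> rfl

lemma bsP_ok3 (w s : Bool) {c2 c3 c4 : Bool × ℕ} (h1 : c2 ≠ c3) (h2 : c2 ≠ c4) (h3 : c3 ≠ c4) :
    (bsP w s ^^ tp {c2, c3, c4} none) = bsP w (!s) := by
  unfold tp
  rw [card_eq_three.2 ⟨c2, c3, c4, h1, h2, h3, rfl⟩]
  cases w <;> cases s <;> rfl

lemma image_rm3 (c2 c3 c4 : Bool × ℕ) :
    ({c2, c3, c4} : Finset (Bool × ℕ)).image rm = {rm c2, rm c3, rm c4} := by
  rw [image_insert, image_insert, image_singleton]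

lemma image_rm2 (c3 c4 : Bool × ℕ) :
    ({c3, c4} : Finset (Bool × ℕ)).image rm = {rm c3, rm c4} := by
  rw [image_insert, image_singleton]

/-- **`X` world** -/
theorem reach_GX (hh : 0 < h) (w : Bool) {c2 c3 c4 : Bool × ℕ} (h1 : c2 ≠ c3) (h2 : c2 ≠ c4) (h3 : c3 ≠ c4)
    {v : ℤ × ℤ} (hv : v.1 ≤ b.X * (2 * (h : ℤ))) (o : Bool) (ω : Finset (ℤ × ℤ)) {c d : ℤ × ℤ} :
    (GX b h w (rm c2) (rm c3) (rm c4) (rp v) o (swF ω)).Reachable (sw c) (sw d) ↔
      (GX b h w c2 c3 c4 v o ω).Reachable c d := by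
  unfold GX
  rw [← reach_GGM (two_pos hh) (bs w) {c2, c3, c4} (some v.2) (some (rp v).2) rfl (strD v)
    (by rintro r hr x hx
        cases hr
        exact ⟨rfl, hv.trans hx⟩),
    bs_ok w h1 h2 h3, image_rm3, cfg_sw hh, strD_rp]

/-- **`Y` world** -/
theorem reach_GY (hh : 0 < h) (w s : Bool) (x1 : ℤ) {c3 c4 : Bool × ℕ} (h3 : c3 ≠ c4)
    {v : ℤ × ℤ} (hv : v.1 ≤ b.X * (2 * (h : ℤ))) (o : Bool) (ω : Finset (ℤ × ℤ)) {c d : ℤ × ℤ} :
    (GY b h w (!s) x1 (rm c3) (rm c4) (rp v) o (swF ω)).Reachable (sw c) (sw d) ↔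
      (GY b h w s x1 c3 c4 v o ω).Reachable c d := by
  unfold GY
  rw [← reach_GGM (two_pos hh) (bsP w s) {c3, c4} (some v.2) (some (rp v).2) rfl (strD v ∪ slD s x1)
    (by rintro r hr x hx
        cases hr
        exact Or.inl ⟨rfl, hv.trans hx⟩),
    bsP_ok2 w s h3, image_rm2, cfg_sw hh, strD_rp, slD_not, flp_not hh, ← swF_symmDiff, rpS_union]

/-- **`G` world** -/
theorem reach_GP (hh : 0 < h) (w s : Bool) (x1 : ℤ) {c2 c3 c4 : Bool × ℕ} (h1 : c2 ≠ c3) (h2 : c2 ≠ c4)
    (h3 : c3 ≠ c4) (o : Bool) (ω : Finset (ℤ × ℤ)) {c d : ℤ × ℤ} :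
    (GP b h w (!s) x1 (rm c2) (rm c3) (rm c4) o (swF ω)).Reachable (sw c) (sw d) ↔
      (GP b h w s x1 c2 c3 c4 o ω).Reachable c d := by
  unfold GP
  rw [← reach_GGM (two_pos hh) (bsP w s) {c2, c3, c4} none none rfl (slD s x1)
    (by rintro r hr; cases hr),
    bsP_ok3 w s h1 h2 h3, image_rm3, cfg_sw hh, slD_not, flp_not hh, ← swF_symmDiff]

/-- **the law of the junction box is symmetric** -/
theorem PJ_sw (hh : 0 < h) (A : Finset (ℤ × ℤ) → Prop) : b.PJ h (fun ω => A (swF ω)) = b.PJ h A := by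
  unfold JBox.PJ
  have h1 : PB (b.B h) (bk (2 * (h : ℤ)) (chn 0 b.M b.τ)) A =
      PB ((b.B h).map swE) (bk (2 * (h : ℤ)) (chn 0 b.M b.τ)) A := by
    have : (b.B h).map swE = b.B h := B_sw hh
    rw [this]
  rw [h1, PB_map]
  refine PB_blocks (fun e he e' he' => ?_) _
  have ho := ((mem_TL (two_pos hh)).1 he).1
  have ho' := ((mem_TL (two_pos hh)).1 he').1
  have h2 : swE e = sw e := rfl
  have h3 : swE e' = sw e' := rfl
  rw [h2, h3, bk_eq_iff, bk_eq_iff, tt_sw ho, tt_sw ho', ct_rp (two_pos hh), ct_rp (two_pos hh), chn_rp,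
    chn_rp, sw_injective.eq_iff]

lemma RF_of_reach {n : ℤ} {G G' : SimpleGraph (ℤ × ℤ)} {c : ℤ × ℤ} {q : Bool × ℕ}
    (hG : ∀ c d, G'.Reachable (sw c) (sw d) ↔ G.Reachable c d) :
    RF b n G' (sw c) (rm q) ↔ RF b n G c q := by
  unfold RF
  rw [f1_rm, f2_rm, hG, hG]

/-- law of the far end in the `X` world -/
theorem PJ_GX (hh : 0 < h) (w : Bool) {c2 c3 c4 : Bool × ℕ} (h1 : c2 ≠ c3) (h2 : c2 ≠ c4) (h3 : c3 ≠ c4)
    {v : ℤ × ℤ} (hv : v.1 ≤ b.X * (2 * (h : ℤ))) (o : Bool) (q : Bool × ℕ) :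
    b.PJ h (fun ω => RF b (2 * h) (GX b h w (rm c2) (rm c3) (rm c4) (rp v) o ω) (zc (rp v)) (rm q)) =
      b.PJ h (fun ω => RF b (2 * h) (GX b h w c2 c3 c4 v o ω) (zc v) q) := by
  rw [← PJ_sw hh]
  congr 1
  funext ω
  rw [zc_rp]
  exact propext (RF_of_reach fun c d => reach_GX hh w h1 h2 h3 hv o ω)

/-- law of the far end in the `G` world -/
theorem PJ_GP (hh : 0 < h) (w s : Bool) (x1 : ℤ) {c2 c3 c4 : Bool × ℕ} (h1 : c2 ≠ c3) (h2 : c2 ≠ c4)
    (h3 : c3 ≠ c4) (o : Bool) (q : Bool × ℕ) :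
    b.PJ h (fun ω => RF b (2 * h) (GP b h w (!s) x1 (rm c2) (rm c3) (rm c4) o ω) (mc (!s) x1) (rm q)) =
      b.PJ h (fun ω => RF b (2 * h) (GP b h w s x1 c2 c3 c4 o ω) (mc s x1) q) := by
  rw [← PJ_sw hh]
  congr 1
  funext ω
  rw [mc_not]
  exact propext (RF_of_reach fun c d => reach_GP hh w s x1 h1 h2 h3 o ω)

/-- law of a mark as far end in the `Y` world -/
theorem PJ_GY (hh : 0 < h) (w s : Bool) (x1 : ℤ) {c3 c4 : Bool × ℕ} (h3 : c3 ≠ c4)
    {v : ℤ × ℤ} (hv : v.1 ≤ b.X * (2 * (h : ℤ))) (o : Bool) (q : Bool × ℕ) :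
    b.PJ h (fun ω => RF b (2 * h) (GY b h w (!s) x1 (rm c3) (rm c4) (rp v) o ω) (zc (rp v)) (rm q)) =
      b.PJ h (fun ω => RF b (2 * h) (GY b h w s x1 c3 c4 v o ω) (zc v) q) := by
  rw [← PJ_sw hh]
  congr 1
  funext ω
  rw [zc_rp]
  exact propext (RF_of_reach fun c d => reach_GY hh w s x1 h3 hv o ω)

end law

/-! ### The passages through the deleted row of the slit -/

section cnt

variable {b : JBox} {n : ℤ}

/-- tiles of the box: columns -/
lemma InQ_col (hst : ∀ i < b.K, -(b.X : ℤ) ≤ b.st i) (hn : 0 < n) {x y : ℤ} (h : InQ b n x y) :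
    -(b.X * n) ≤ x ∧ x < b.X * n := by
  have key : -(b.X : ℤ) ≤ x / n ∧ x / n < b.X := by
    unfold InQ JBox.Q at h
    rw [mem_union, mem_biUnion] at h
    rcases h with h | ⟨i, hi, h⟩
    · rw [mem_RC] at h
      exact h.1
    · have hi' := hst i (mem_range.1 hi)
      rw [mem_union, mem_RC, mem_RC] at h
      simp only at h
      omega
  have h1 := Int.ediv_mul_le x hn.ne'
  have h2 := Int.lt_ediv_add_one_mul_self x hn
  constructor
  · nlinarith [key.1]
  · nlinarith [key.2]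

/-- tiles of the box: the middle rows -/
lemma InQ_mid (hn : 0 < n) (hH : 0 < b.H) {x y : ℤ} (h1 : -n ≤ y) (h2 : y < n)
    (hx : -(b.X * n) ≤ x ∧ x < b.X * n) : InQ b n x y := by
  unfold InQ JBox.Q
  rw [mem_union, mem_RC]
  left
  simp only
  refine ⟨⟨?_, ?_⟩, ?_, ?_⟩
  · exact Int.le_ediv_of_mul_le hn (by linarith [hx.1])
  · exact Int.ediv_lt_of_lt_mul hn hx.2
  · refine Int.le_ediv_of_mul_le hn ?_
    have : (1 : ℤ) ≤ b.H := by exact_mod_cast hH
    nlinarith
  · refine Int.ediv_lt_of_lt_mul hn ?_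
    have : (1 : ℤ) ≤ b.H := by exact_mod_cast hH
    nlinarith

/-- the row of a diagonal tile -/
lemma dgt_row (hn : 0 < n) (hH : 0 < b.H) (c : Bool × ℕ) :
    (dgt b n c).2 < -n ∨ n ≤ (dgt b n c).2 := by
  obtain ⟨u, i⟩ := c
  have : (1 : ℤ) ≤ b.H := by exact_mod_cast hH
  have hi : (0 : ℤ) ≤ i := Int.natCast_nonneg i
  have h1 : n ≤ (b.H + i + 1) * n := by nlinarith
  unfold dgt cpt
  cases u
  · left
    simp only [Bool.false_eq_true, if_false]
    omega
  · right
    simp only [if_true]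
    exact h1

/-- the middle rows of the strand graph -/
lemma mem_Lam_mid (hst : ∀ i < b.K, -(b.X : ℤ) ≤ b.st i) (hn : 0 < n) (hH : 0 < b.H) (hX : 0 < b.X)
    {M : Finset (Bool × ℕ)} {x y : ℤ} (h1 : -n ≤ y) (h2 : y < n) :
    lt (x, y) ∈ Lam b n M ↔ -(b.X * n) - 3 ≤ x ∧ x < b.X * n + 3 := by
  constructor
  · rintro ⟨x', y', he, h⟩
    have := lt_inj he
    rw [Prod.mk.injEq] at this
    obtain ⟨rfl, rfl⟩ := this
    rcases h with h | ⟨⟨-, i, j, hi, hj, h⟩, -⟩
    · have := InQ_col hst hn h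
      omega
    · have := InQ_col hst hn h
      rw [abs_le] at hi
      omega
  · intro hx
    refine ⟨x, y, rfl, ?_⟩
    by_cases hq : InQ b n x y
    · exact Or.inl hq
    · right
      have hXn : 0 < (b.X : ℤ) * n := by
        have : (0 : ℤ) < b.X := by exact_mod_cast hX
        positivity
      refine ⟨⟨hq, ?_⟩, ?_⟩
      · by_cases h3 : x < b.X * n
        · by_cases h4 : -(b.X * n) ≤ x
          · exact absurd (InQ_mid hn hH h1 h2 ⟨h4, h3⟩) hq
          · refine ⟨-(b.X * n) - x, 0, by rw [abs_le]; omega, by norm_num, ?_⟩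
            rw [add_zero]
            exact InQ_mid hn hH h1 h2 ⟨by omega, by omega⟩
        · refine ⟨b.X * n - 1 - x, 0, by rw [abs_le]; omega, by norm_num, ?_⟩
          rw [add_zero]
          exact InQ_mid hn hH h1 h2 ⟨by omega, by omega⟩
      · intro c _ hc
        have := dgt_row (b := b) hn hH c
        rw [← hc] at this
        simp only at this
        omega

lemma isolated {Λ D : Set (ℤ × ℤ)} {w : Finset (ℤ × ℤ)} {c d : ℤ × ℤ} (h1 : lab c ∉ Λ) (h2 : plab c ∉ Λ)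
    (h : (SG Λ D w).Reachable c d) : c = d := by
  obtain ⟨p⟩ := h
  cases p with
  | nil => rfl
  | cons ha _ =>
    exfalso
    obtain ⟨e, he, hT⟩ := ha
    rcases hT.label with h | h
    · exact h1 (h ▸ he)
    · exact h2 (h ▸ he)

lemma tiles_S {e : ℤ × ℤ} (ho : (e.1 + e.2) % 2 = 1) :
    (lab (eS e) = e ∨ lab (eS e) = dn e) ∧ (plab (eS e) = e ∨ plab (eS e) = dn e) := by
  obtain ⟨a, c⟩ := e
  unfold eS dn lab plab
  simp only at ho ⊢
  rcases Int.emod_two_eq_zero_or_one a with h | h <;> rcases Int.emod_two_eq_zero_or_one c with h' | h'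
  · omega
  · have : (a + 1) % 2 = 1 := by omega
    simp [h', this]
  · have : (a + 1) % 2 = 0 := by omega
    simp [h', this]
  · omega

lemma tiles_N {e : ℤ × ℤ} (ho : (e.1 + e.2) % 2 = 1) :
    (lab (eN e) = e ∨ lab (eN e) = H13.W.up e) ∧ (plab (eN e) = e ∨ plab (eN e) = H13.W.up e) := by
  obtain ⟨a, c⟩ := e
  unfold eN H13.W.up lab plab
  simp only at ho ⊢
  rcases Int.emod_two_eq_zero_or_one a with h | h <;> rcases Int.emod_two_eq_zero_or_one c with h' | h'
  · omega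
  · have : (c + 1) % 2 = 0 := by omega
    simp [h, this]
  · have : (c + 1) % 2 = 1 := by omega
    simp [h, this]
  · omega

lemma dn_lt (x y : ℤ) : dn (lt (x, y)) = lt (x, y - 1) := by
  unfold dn lt; exact Prod.ext (by simp only; ring) (by simp only; ring)

lemma up_lt (x y : ℤ) : H13.W.up (lt (x, y)) = lt (x, y + 1) := by
  unfold H13.W.up lt; exact Prod.ext (by simp only; ring) (by simp only; ring)

/-- number of passages through the deleted row of the strand of the mark `q` -/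
noncomputable def cntq (b : JBox) (h : ℕ) (s : Bool) (x1 : ℤ) (q : Bool × ℕ) (G : SimpleGraph (ℤ × ℤ)) : ℕ :=
  Set.ncard {x : ℤ | x < x1 ∧ RF b (2 * h) G (eS (lt (x, Yr s))) q}

lemma cntY_eq (b : JBox) (h : ℕ) (s : Bool) (x1 : ℤ) (c3 c4 : Bool × ℕ) (G : SimpleGraph (ℤ × ℤ)) :
    cntY b h s x1 c3 c4 G = cntq b h s x1 (fst2 b c3 c4) G := rfl

/-- the two sides of a tile of the deleted row are joined to the same marks -/
lemma RF_S_N (hst : ∀ i < b.K, -(b.X : ℤ) ≤ b.st i) (hn : 2 ≤ n) (hH : 0 < b.H) (hX : 0 < b.X)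
    {M : Finset (Bool × ℕ)} {D : Set (ℤ × ℤ)} {w : Finset (ℤ × ℤ)} {cl : Cl} (s : Bool) {x : ℤ}
    (hD : (x, Yr s) ∈ D) (q : Bool × ℕ) :
    RF b n (GG b n M cl D w) (eN (lt (x, Yr s))) q ↔ RF b n (GG b n M cl D w) (eS (lt (x, Yr s))) q := by
  have hn0 : 0 < n := by omega
  have hY : Yr s = 0 ∨ Yr s = -1 := by unfold Yr; cases s <;> simp
  by_cases he : lt (x, Yr s) ∈ Lam b n M
  · have ha : (GG b n M cl D w).Adj (eS (lt (x, Yr s))) (eN (lt (x, Yr s))) :=
      ⟨_, he, Or.inl ⟨⟨_, hD, rfl⟩, lt_odd _, Or.inl ⟨rfl, rfl⟩⟩⟩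
    unfold RF
    constructor
    · rintro (h | h)
      · exact Or.inl (ha.reachable.trans h)
      · exact Or.inr (ha.reachable.trans h)
    · rintro (h | h)
      · exact Or.inl (ha.symm.reachable.trans h)
      · exact Or.inr (ha.symm.reachable.trans h)
  · have key : ∀ y, -n ≤ y → y < n → lt (x, y) ∉ Lam b n M := by
      intro y h1 h2 h3
      apply he
      rw [mem_Lam_mid hst hn0 hH hX h1 h2] at h3
      rw [mem_Lam_mid hst hn0 hH hX (by omega) (by omega)]
      exact h3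
    have k0 := key (Yr s) (by omega) (by omega)
    have k1 := key (Yr s - 1) (by omega) (by omega)
    have k2 := key (Yr s + 1) (by omega) (by omega)
    rw [← dn_lt] at k1
    rw [← up_lt] at k2
    have hS := tiles_S (lt_odd (x, Yr s))
    have hN := tiles_N (lt_odd (x, Yr s))
    have hf : ∀ c, c = f1 b n q ∨ c = f2 b n q → lt (dgt b n q) = lab c ∨ lt (dgt b n q) = plab c := by
      rintro c (rfl | rfl)
      · exact of_side (lt_odd _) _ (Or.inr (Or.inl rfl))
      · unfold f2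
        split_ifs
        · exact of_side (lt_odd _) _ (Or.inr (Or.inr (Or.inl rfl)))
        · exact of_side (lt_odd _) _ (Or.inr (Or.inr (Or.inr rfl)))
    have hrow := dgt_row (b := b) hn0 hH q
    have bad : ∀ y, -n ≤ y → y < n → lt (dgt b n q) ≠ lt (x, y) := by
      intro y h1 h2 h3
      have := lt_inj h3
      rw [this] at hrow
      simp only at hrow
      omega
    have b0 := bad (Yr s) (by omega) (by omega)
    have b1 := bad (Yr s - 1) (by omega) (by omega)
    have b2 := bad (Yr s + 1) (by omega) (by omega)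
    rw [← dn_lt] at b1
    rw [← up_lt] at b2
    set e := lt (x, Yr s) with hedef
    have isoS : ∀ d, (GG b n M cl D w).Reachable (eS e) d → eS e = d := by
      intro d hd
      refine isolated (Λ := Lam b n M) ?_ ?_ hd
      · rcases hS.1 with h | h <;> rw [h] <;> assumption
      · rcases hS.2 with h | h <;> rw [h] <;> assumption
    have isoN : ∀ d, (GG b n M cl D w).Reachable (eN e) d → eN e = d := by
      intro d hd
      refine isolated (Λ := Lam b n M) ?_ ?_ hd
      · rcases hN.1 with h | h <;> rw [h] <;> assumption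
      · rcases hN.2 with h | h <;> rw [h] <;> assumption
    have nS : ¬ (eS e = f1 b n q ∨ eS e = f2 b n q) := by
      intro h
      rcases hf _ h with h1 | h1
      · rcases hS.1 with h2 | h2
        · exact b0 (h1.trans h2)
        · exact b1 (h1.trans h2)
      · rcases hS.2 with h2 | h2
        · exact b0 (h1.trans h2)
        · exact b1 (h1.trans h2)
    have nN : ¬ (eN e = f1 b n q ∨ eN e = f2 b n q) := by
      intro h
      rcases hf _ h with h1 | h1
      · rcases hN.1 with h2 | h2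
        · exact b0 (h1.trans h2)
        · exact b2 (h1.trans h2)
      · rcases hN.2 with h2 | h2
        · exact b0 (h1.trans h2)
        · exact b2 (h1.trans h2)
    unfold RF
    constructor
    · rintro (h | h)
      · exact absurd (Or.inl (isoN _ h)) nN
      · exact absurd (Or.inr (isoN _ h)) nN
    · rintro (h | h)
      · exact absurd (Or.inl (isoS _ h)) nS
      · exact absurd (Or.inr (isoS _ h)) nS

/-- **the passages in the reflected `Y` world** -/
theorem cntq_GY {h : ℕ} (hst : ∀ i < b.K, -(b.X : ℤ) ≤ b.st i) (hh : 0 < h) (hH : 0 < b.H) (hX : 0 < b.X)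
    (w s : Bool) (x1 : ℤ) {c3 c4 : Bool × ℕ} (h3 : c3 ≠ c4) {v : ℤ × ℤ} (hv : v.1 ≤ b.X * (2 * (h : ℤ)))
    (o : Bool) (ω : Finset (ℤ × ℤ)) (q : Bool × ℕ) :
    cntq b h (!s) x1 (rm q) (GY b h w (!s) x1 (rm c3) (rm c4) (rp v) o (swF ω)) =
      cntq b h s x1 q (GY b h w s x1 c3 c4 v o ω) := by
  unfold cntq
  congr 1
  ext x
  simp only [Set.mem_ofPred_eq]
  refine and_congr_right fun hx => ?_
  have e1 : eS (lt (x, Yr !s)) = sw (eN (lt (x, Yr s))) := by
    rw [Yr_not]
    have : (x, -1 - Yr s) = rp (x, Yr s) := rfl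
    rw [this, ← sw_lt, eS_sw]
  rw [e1, RF_of_reach (fun c d => reach_GY hh w s x1 h3 hv o ω)]
  exact RF_S_N hst (by omega) hH hX s (Or.inr ⟨rfl, hx⟩) q

/-- law of the mark on `P` as far end in the `Y` world, with any condition on the passages of the strand of
the mark `q` -/
theorem PJ_GY_cnt {h : ℕ} (hst : ∀ i < b.K, -(b.X : ℤ) ≤ b.st i) (hh : 0 < h) (hH : 0 < b.H) (hX : 0 < b.X)
    (w s : Bool) (x1 : ℤ) {c3 c4 : Bool × ℕ} (h3 : c3 ≠ c4) {v : ℤ × ℤ} (hv : v.1 ≤ b.X * (2 * (h : ℤ)))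
    (o : Bool) (q : Bool × ℕ) (P : ℕ → Prop) :
    b.PJ h (fun ω => (GY b h w (!s) x1 (rm c3) (rm c4) (rp v) o ω).Reachable (zc (rp v)) (mc (!s) x1) ∧
        P (cntq b h (!s) x1 (rm q) (GY b h w (!s) x1 (rm c3) (rm c4) (rp v) o ω))) =
      b.PJ h (fun ω => (GY b h w s x1 c3 c4 v o ω).Reachable (zc v) (mc s x1) ∧
        P (cntq b h s x1 q (GY b h w s x1 c3 c4 v o ω))) := by
  rw [← PJ_sw hh]
  congr 1
  funext ω
  rw [zc_rp, mc_not, reach_GY hh w s x1 h3 hv o ω, cntq_GY hst hh hH hX w s x1 h3 hv o ω q]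

end cnt

end Pool.Agent.H16.W
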