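import Mathlib
import Pool.Agent.H13.W.SolidPair

set_option autoImplicit false
open Finset

/-! # Passages through a line of a solid rectangle, counted by columns

`Solid.cnt_cols` : the number of sides of a line `Y` left of `x1` which are joined to `T` = the number of gap
columns left of `x1` whose strand is joined to `T`. Ends of strands (`up`, `lo`) left of `x1` are allowed if
they are not joined to `T`. `Solid.gap_line` : the strand of a gap column passes every line. -/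

namespace Pool.Agent.H13.W

open Pool.Agent.H75.Perc Pool.Agent.H75.TwoArm Pool.Agent.H99.W Pool.Agent.H47.W

namespace Sol

variable {Λ D : Set (ℤ × ℤ)} {w : Finset (ℤ × ℤ)} {xl xb ya yb : ℤ} {σ : ℤ → ℤ → Bool} {ct : ℤ → CT}

/-- the strand of a gap column passes every line -/
theorem Solid.gap_line (H : Solid Λ D w xl xb ya yb σ ct) {X Y Y' : ℤ} (hX : xl < X) (hX' : X < xb)
    (hg : ct X = .gap) (h1 : ya ≤ Y) (h2 : Y ≤ yb) (h1' : ya ≤ Y') (h2' : Y' ≤ yb) :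
    (SG Λ D w).Reachable (hcor σ X Y) (hcor σ X Y') := by
  have hc := H.col X hX.le hX'.le
  rw [hg] at hc
  exact (H.run hX hX' le_rfl h1 h2 (fun Z h3 h4 => hc Z h3 (by omega))).symm.trans
    (H.run hX hX' le_rfl h1' h2' (fun Z h3 h4 => hc Z h3 (by omega)))

/-- **Passages by columns.** -/
theorem Solid.cnt_cols (H : Solid Λ D w xl xb ya yb σ ct) {Y Y' x1 : ℤ} (hY : ya ≤ Y) (hY' : Y ≤ yb)
    (gY : ya ≤ Y') (gY' : Y' ≤ yb) (h1 : x1 ≤ xb) {T : Set (ℤ × ℤ)}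
    (hT : ∀ t ∈ T, NJ xl xb ya yb ct (nd σ t))
    (hend : ∀ X, xl < X → X < xb → X ≤ x1 → (∃ d, ct X = .up d ∨ ct X = .lo d) → ∀ t ∈ T,
      ¬ (SG Λ D w).Reachable (rep ya σ ct X) t)
    (hx1 : xl < x1 → x1 < xb → ct x1 ≠ .gap)
    (hout : ∀ x < xl, ∀ t ∈ T, ¬ (SG Λ D w).Reachable (hz x Y) t) :
    Set.ncard {x : ℤ | x < x1 ∧ ∃ t ∈ T, (SG Λ D w).Reachable (hz x Y) t} =
      Set.ncard {X : ℤ | xl < X ∧ X < x1 ∧ ct X = .gap ∧ ∃ t ∈ T, (SG Λ D w).Reachable (hcor σ X Y') t} := by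
  have dif : ∀ X, xl < X → X < x1 → ct X = .gap → ∀ Z, ya ≤ Z → Z ≤ yb → σ (X - 1) Z ≠ σ X Z := by
    intro X h2 h3 h4 Z h5 h6
    have := H.col X h2.le (by omega)
    rw [h4] at this
    exact this Z h5 h6
  have K1 : ∀ x, x < x1 → (∃ t ∈ T, (SG Λ D w).Reachable (hz x Y) t) →
      xl < kap σ x Y ∧ kap σ x Y < x1 ∧ ct (kap σ x Y) = .gap ∧
        ∃ t ∈ T, (SG Λ D w).Reachable (hcor σ (kap σ x Y) Y') t := by
    rintro x hx ⟨t, ht, hr⟩
    have hn : NJ xl xb ya yb ct (nd σ (hz x Y)) := (H.closed' hr).2 (hT t ht)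
    have hxl : xl ≤ x := by
      by_contra hh
      exact hout x (not_le.1 hh) t ht hr
    rw [nd_hz] at hn
    have hk : kap σ x Y = x ∨ kap σ x Y = x + 1 := by unfold kap; split_ifs <;> simp
    have hnj := hn ⟨by simp only; omega, by simp only; omega, hY, hY'⟩
    simp only at hnj
    have n1 : kap σ x Y ≠ xl := by
      intro h; rw [h, H.jl] at hnj; exact hnj
    have n2 : kap σ x Y ≠ xb := by
      intro h; rw [h, H.jr] at hnj; exact hnj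
    have a1 : xl < kap σ x Y := by omega
    have a2 : kap σ x Y < xb := by omega
    have hst : St D ya yb σ ct (kap σ x Y) (hz x Y) := Or.inl ⟨x, Y, rfl, rfl, hY, hY', hnj⟩
    have hrr := (H.zig a1 a2 hst).trans hr
    have hgap : ct (kap σ x Y) = .gap := by
      cases hct : ct (kap σ x Y) with
      | junk => rw [hct] at hnj; exact absurd hnj (by simp [CT.nj])
      | gap => rfl
      | up d => exact absurd hrr (hend _ a1 a2 (by omega) ⟨d, Or.inl hct⟩ t ht)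
      | lo d => exact absurd hrr (hend _ a1 a2 (by omega) ⟨d, Or.inr hct⟩ t ht)
    have n3 : kap σ x Y ≠ x1 := by
      intro h
      rw [h] at hgap a1 a2
      exact hx1 a1 a2 hgap
    refine ⟨a1, by omega, hgap, t, ht, ?_⟩
    have e1 : rep ya σ ct (kap σ x Y) = hcor σ (kap σ x Y) ya := by unfold rep; rw [hgap]
    rw [e1] at hrr
    exact (H.gap_line a1 a2 hgap gY gY' le_rfl (by omega)).trans hrr
  refine Set.ncard_congr (fun x _ => kap σ x Y) ?_ ?_ ?_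
  · intro x hx
    exact K1 x hx.1 hx.2
  · intro x x' hx hx' heq
    obtain ⟨g1, g2, g3, -⟩ := K1 x hx.1 hx.2
    obtain ⟨k1, k2, k3, -⟩ := K1 x' hx'.1 hx'.2
    have b1 := xa_kap (dif _ g1 g2 g3 Y hY hY') rfl
    have b2 := xa_kap (dif _ k1 k2 k3 Y hY hY') rfl
    rw [← b1, ← b2, heq]
  · rintro X ⟨g1, g2, g3, t, ht, g4⟩
    have hd := dif X g1 g2 g3 Y hY hY'
    have c1 : xa σ Y X = X ∨ xa σ Y X = X - 1 := by unfold xa; split_ifs <;> simp
    refine ⟨xa σ Y X, ⟨by omega, t, ht, ?_⟩, kap_xa hd⟩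
    rw [eq_hcor hd (kap_xa hd)]
    exact (H.gap_line g1 (by omega) g3 hY hY' gY gY').trans g4

/-- number of gap columns of `Q` whose strand is joined to `T`, seen at the line `Y` -/
noncomputable def gcn (G : SimpleGraph (ℤ × ℤ)) (σ : ℤ → ℤ → Bool) (ct : ℤ → CT) (Y : ℤ) (Q : ℤ → Prop)
    (T : Set (ℤ × ℤ)) : ℕ :=
  Set.ncard {X : ℤ | Q X ∧ ct X = .gap ∧ ∃ t ∈ T, G.Reachable (hcor σ X Y) t}

/-- the same in two worlds -/
lemma gcn_congr {G G' : SimpleGraph (ℤ × ℤ)} {σ σ' : ℤ → ℤ → Bool} {ct ct' : ℤ → CT} {Y Y' : ℤ}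
    {Q Q' : ℤ → Prop} {T T' : Set (ℤ × ℤ)}
    (h : ∀ X, (Q X ∧ ct X = .gap ∧ ∃ t ∈ T, G.Reachable (hcor σ X Y) t) ↔
      (Q' X ∧ ct' X = .gap ∧ ∃ t ∈ T', G'.Reachable (hcor σ' X Y') t)) :
    gcn G σ ct Y Q T = gcn G' σ' ct' Y' Q' T' := by
  unfold gcn
  congr 1
  ext X
  exact h X

/-- two worlds which agree outside of the rectangle: the strands of the gap columns -/
theorem Pair.gap_iff {Λ1 Λ2 D1 D2 : Set (ℤ × ℤ)} {w1 w2 : Finset (ℤ × ℤ)} {σ1 σ2 : ℤ → ℤ → Bool}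
    {ct1 ct2 : ℤ → CT} (P : Pair Λ1 Λ2 D1 D2 w1 w2 xl xb ya yb σ1 σ2 ct1 ct2) {X Y Y' : ℤ}
    (hX : xl < X) (hX' : X < xb) (hg : ct1 X = .gap) (h1 : ya ≤ Y) (h2 : Y ≤ yb) (h1' : ya ≤ Y')
    (h2' : Y' ≤ yb) {t t' : ℤ × ℤ} (ht : Im D1 D2 xl xb ya yb σ1 σ2 ct1 ct2 t t') :
    (SG Λ1 D1 w1).Reachable (hcor σ1 X Y) t ↔ (SG Λ2 D2 w2).Reachable (hcor σ2 X Y') t' := by
  have hg2 := P.ct_gap hX.le hX'.le hg
  have hs : ∀ {Λ D : Set (ℤ × ℤ)} {w : Finset (ℤ × ℤ)} {σ : ℤ → ℤ → Bool} {ct : ℤ → CT}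
      (H : Solid Λ D w xl xb ya yb σ ct) (hg : ct X = .gap) {Z : ℤ} (_ : ya ≤ Z) (_ : Z ≤ yb),
      St D ya yb σ ct X (hcor σ X Z) := by
    intro Λ D w σ ct H hg Z h3 h4
    have hc := H.col X hX.le hX'.le
    rw [hg] at hc
    left
    have hd := hc Z h3 h4
    refine ⟨xa σ Z X, Z, ?_, kap_xa hd, h3, h4, by rw [hg]; trivial⟩
    exact (eq_hcor hd (kap_xa hd)).symm
  exact P.reach (Or.inr ⟨X, hX, hX', hs P.s1 hg h1 h2, hs P.s2 hg2 h1' h2'⟩) ht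

end Sol

end Pool.Agent.H13.W
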