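import Mathlib
import Pool.Agent.H16.W.SolCnt

set_option autoImplicit false
open Finset

/-! # The solid middle part of the junction worlds

`ln κ s x1 y0 xs Yd x Y` : state of the column `x` at the line `Y`: colour `κ x` of the column, flipped on one side
(above if `s`, below if not) of the deleted row `y0` left of `x1`, flipped above the row `Yd` of the string from
`xs` on. `lct` : types of the columns. `Mid` : a world whose tiles in the rectangle `xl ≤ x ≤ xb`,
`ya - 1 ≤ y ≤ yb` are of this form. `Mid.solid`, `Mid.pair` : 13's `Solid` and `Pair` (two rows `y0`, `y0'`). -/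

namespace Pool.Agent.H16.W

open Pool.Agent.H75.Perc Pool.Agent.H75.TwoArm Pool.Agent.H99.W Pool.Agent.H47.W Pool.Agent.H13.W
open Pool.Agent.H13.W.Sol

/-- side of the deleted row of the slit -/
def sl1 (s : Bool) (x1 y0 x Y : ℤ) : Bool := decide (x < x1) && (if s then decide (y0 < Y) else decide (Y ≤ y0))

/-- side of the deleted row of the string -/
def sl2 (xs Yd x Y : ℤ) : Bool := decide (xs ≤ x) && decide (Yd < Y)

/-- state of the column `x` at the line `Y` -/
def ln (κ : ℤ → Bool) (s : Bool) (x1 y0 xs Yd x Y : ℤ) : Bool := κ x ^^ sl1 s x1 y0 x Y ^^ sl2 xs Yd x Y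

/-- the same with a fixed row to the left of `xl` (outside of the world) -/
def lnx (xl ya : ℤ) (κ : ℤ → Bool) (s : Bool) (x1 y0 xs Yd x Y : ℤ) : Bool :=
  ln κ s x1 (if x < xl then ya else y0) xs Yd x Y

/-- types of the columns -/
def lct (κ : ℤ → Bool) (s : Bool) (x1 y0 xs Yd X : ℤ) : CT :=
  if X = x1 then (if s then .up y0 else .lo y0)
  else if X = xs then (if κ (X - 1) = κ X then .up Yd else .lo Yd)
  else if κ (X - 1) = κ X then .junk else .gap

/-- **The middle part of a world.** -/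
structure Mid (Λ D : Set (ℤ × ℤ)) (w : Finset (ℤ × ℤ)) (xl xb ya yb : ℤ) (κ : ℤ → Bool) (s : Bool)
    (x1 y0 xs Yd : ℤ) : Prop where
  hx : xl ≤ xb
  lx1 : xl < x1
  x1b : x1 < xb
  lxs : xl < xs
  xsb : xs ≠ xb
  xs1 : xs ≠ x1
  ay0 : ya < y0
  y0b : y0 + 2 ≤ yb
  aYd : ya < Yd
  Ydb : Yd + 2 ≤ yb
  dist : y0 + 2 ≤ Yd ∨ Yd + 2 ≤ y0
  inL : ∀ x y, xl ≤ x → x ≤ xb → ya - 1 ≤ y → y ≤ yb → vt x y ∈ Λ
  outL : ∀ x y, x < xl → ya - 1 ≤ y → y ≤ yb → vt x y ∉ Λ
  mD : ∀ x y, xl ≤ x → x ≤ xb → ya - 1 ≤ y → y ≤ yb → (vt x y ∈ D ↔ (y = y0 ∧ x < x1) ∨ (y = Yd ∧ xs ≤ x))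
  mw : ∀ x y, xl ≤ x → x ≤ xb → ya - 1 ≤ y → y ≤ yb → vt x y ∉ D →
    (vt x y ∈ w ↔ ln κ s x1 y0 xs Yd x y = true)
  k1 : κ (x1 - 1) = κ x1
  kl : κ (xl - 1) = κ xl
  kb : κ (xb - 1) = κ xb

variable {Λ D Λ' D' : Set (ℤ × ℤ)} {w w' : Finset (ℤ × ℤ)} {xl xb ya yb : ℤ} {κ : ℤ → Bool} {s : Bool}
  {x1 y0 y0' xs Yd : ℤ}

lemma ln_ne {x Y : ℤ} (h : sl1 s x1 y0 (x - 1) Y = sl1 s x1 y0 x Y) (h' : sl2 xs Yd (x - 1) Y = sl2 xs Yd x Y) :
    ln κ s x1 y0 xs Yd (x - 1) Y = ln κ s x1 y0 xs Yd x Y ↔ κ (x - 1) = κ x := by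
  unfold ln
  rw [h, h']
  generalize sl1 s x1 y0 x Y = p
  generalize sl2 xs Yd x Y = q
  cases κ (x - 1) <;> cases κ x <;> cases p <;> cases q <;> simp

lemma sl1_eq {x Y : ℤ} (h : x ≠ x1) : sl1 s x1 y0 (x - 1) Y = sl1 s x1 y0 x Y := by
  unfold sl1
  congr 1
  have : (x - 1 < x1) = (x < x1) := propext ⟨fun _ => by omega, fun _ => by omega⟩
  simp only [this]

lemma sl2_eq {x Y : ℤ} (h : x ≠ xs) : sl2 xs Yd (x - 1) Y = sl2 xs Yd x Y := by
  unfold sl2
  congr 1
  have : (xs ≤ x - 1) = (xs ≤ x) := propext ⟨fun _ => by omega, fun _ => by omega⟩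
  simp only [this]

/-- same side of both rows -/
lemma ln_line {x Y Y' : ℤ} (h : x < x1 → (y0 < Y ↔ y0 < Y')) (h' : xs ≤ x → (Yd < Y ↔ Yd < Y')) :
    ln κ s x1 y0 xs Yd x Y = ln κ s x1 y0 xs Yd x Y' := by
  unfold ln
  have e1 : sl1 s x1 y0 x Y = sl1 s x1 y0 x Y' := by
    unfold sl1
    by_cases hx : x < x1
    · have g := h hx
      have g' : (Y ≤ y0) = (Y' ≤ y0) := by
        apply propext
        constructor <;> intro hh <;> by_contra hc
        · exact absurd (g.2 (not_le.1 hc)) (not_lt.2 hh)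
        · exact absurd (g.1 (not_le.1 hc)) (not_lt.2 hh)
      simp only [g, g']
    · simp [hx]
  have e2 : sl2 xs Yd x Y = sl2 xs Yd x Y' := by
    unfold sl2
    by_cases hx : xs ≤ x
    · have g := h' hx
      simp only [g]
    · simp [hx]
  rw [e1, e2]

lemma lnx_eq {x Y : ℤ} (h : xl ≤ x) : lnx xl ya κ s x1 y0 xs Yd x Y = ln κ s x1 y0 xs Yd x Y := by
  unfold lnx
  rw [if_neg (by omega)]

namespace Mid

variable (H : Mid Λ D w xl xb ya yb κ s x1 y0 xs Yd)
include H

theorem solid : Solid Λ D w xl xb ya yb (lnx xl ya κ s x1 y0 xs Yd) (lct κ s x1 y0 xs Yd) where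
  hx := H.hx
  hy := by have := H.ay0; have := H.y0b; omega
  rule x y h1 h2 h3 h4 hL := by
    have hx : xl ≤ x := by
      by_contra hc
      exact H.outL x y (not_le.1 hc) h3 h4 hL
    rw [lnx_eq hx, lnx_eq hx]
    have hD := H.mD x y hx h2 h3 h4
    by_cases hd : vt x y ∈ D
    · left
      refine ⟨hd, ?_⟩
      have hdis := H.dist
      unfold ln
      rcases hD.1 hd with ⟨rfl, h5⟩ | ⟨rfl, h5⟩
      · have e2 : sl2 xs Yd x (y + 1) = sl2 xs Yd x y := by
          unfold sl2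
          congr 1
          have : (Yd < y + 1) = (Yd < y) := propext ⟨fun _ => by omega, fun _ => by omega⟩
          simp only [this]
        have e1 : sl1 s x1 y x (y + 1) = !sl1 s x1 y x y := by
          unfold sl1
          cases s <;> simp [h5]
        rw [e1, e2]
        generalize sl1 s x1 y x y = p
        generalize sl2 xs Yd x y = q
        cases κ x <;> cases p <;> cases q <;> simp
      · have e2 : sl2 xs y x (y + 1) = !sl2 xs y x y := by
          unfold sl2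
          simp [h5]
        have e1 : sl1 s x1 y0 x (y + 1) = sl1 s x1 y0 x y := by
          unfold sl1
          have a1 : (y0 < y + 1) = (y0 < y) := propext ⟨fun _ => by omega, fun _ => by omega⟩
          have a2 : (y + 1 ≤ y0) = (y ≤ y0) := propext ⟨fun _ => by omega, fun _ => by omega⟩
          simp only [a1, a2]
        rw [e1, e2]
        generalize sl1 s x1 y0 x y = p
        generalize sl2 xs y x y = q
        cases κ x <;> cases p <;> cases q <;> simp
    · right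
      refine ⟨hd, ?_, H.mw x y hx h2 h3 h4 hd⟩
      have hd' : ¬ ((y = y0 ∧ x < x1) ∨ (y = Yd ∧ xs ≤ x)) := fun h => hd (hD.2 h)
      refine ln_line (fun hx => ?_) (fun hx => ?_)
      · omega
      · omega
  inL x y h1 h2 h3 h4 := H.inL x y h1 (by omega) (by omega) (by omega)
  lo x h1 h2 := by
    have a1 := H.ay0
    have a2 := H.aYd
    unfold lnx
    split_ifs
    · exact ln_line (fun _ => by omega) (fun _ => by omega)
    · exact ln_line (fun _ => by omega) (fun _ => by omega)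
  hi x h1 h2 := by
    have a1 := H.ay0
    have a2 := H.y0b
    have a3 := H.Ydb
    unfold lnx
    split_ifs
    · exact ln_line (fun _ => by omega) (fun _ => by omega)
    · exact ln_line (fun _ => by omega) (fun _ => by omega)
  jl := by
    unfold lct
    rw [if_neg (by have := H.lx1; omega), if_neg (by have := H.lxs; omega), if_pos H.kl]
  jr := by
    unfold lct
    rw [if_neg (by have := H.x1b; omega), if_neg H.xsb.symm, if_pos H.kb]
  col X h1 h2 := by
    have a1 := H.ay0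
    have a2 := H.y0b
    have a3 := H.aYd
    have a4 := H.Ydb
    have a5 := H.dist
    by_cases hXl : X = xl
    · subst hXl
      have hc : lct κ s x1 y0 xs Yd X = .junk := by
        unfold lct
        rw [if_neg (by have := H.lx1; omega), if_neg (by have := H.lxs; omega), if_pos H.kl]
      rw [hc]
      have key : ∀ Y, Y = ya ∨ Y = yb → lnx X ya κ s x1 y0 xs Yd (X - 1) Y = lnx X ya κ s x1 y0 xs Yd X Y := by
        intro Y hY
        rw [lnx_eq le_rfl]
        unfold lnx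
        rw [if_pos (by omega)]
        have e1 : ln κ s x1 ya xs Yd (X - 1) Y = ln κ s x1 ya xs Yd X Y :=
          (ln_ne (sl1_eq (by have := H.lx1; omega)) (sl2_eq (by have := H.lxs; omega))).2 H.kl
        rw [e1]
        unfold ln sl1
        have e2 : decide (ya < Y) = decide (y0 < Y) := by
          rcases hY with rfl | rfl
          · rw [decide_eq_false (by omega : ¬ Y < Y), decide_eq_false (by omega : ¬ y0 < Y)]
          · rw [decide_eq_true (by omega : ya < Y), decide_eq_true (by omega : y0 < Y)]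
        have e3 : decide (Y ≤ ya) = decide (Y ≤ y0) := by
          rcases hY with rfl | rfl
          · rw [decide_eq_true (by omega : Y ≤ Y), decide_eq_true (by omega : Y ≤ y0)]
          · rw [decide_eq_false (by omega : ¬ Y ≤ ya), decide_eq_false (by omega : ¬ Y ≤ y0)]
        rw [e2, e3]
      exact ⟨key ya (Or.inl rfl), key yb (Or.inr rfl)⟩
    have z1 : ∀ Y, lnx xl ya κ s x1 y0 xs Yd (X - 1) Y = ln κ s x1 y0 xs Yd (X - 1) Y :=
      fun Y => lnx_eq (by omega)
    have z2 : ∀ Y, lnx xl ya κ s x1 y0 xs Yd X Y = ln κ s x1 y0 xs Yd X Y := fun Y => lnx_eq (by omega)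
    suffices hs : ColOK (ln κ s x1 y0 xs Yd) ya yb X (lct κ s x1 y0 xs Yd X) by
      unfold ColOK at hs ⊢
      cases hct : lct κ s x1 y0 xs Yd X <;> rw [hct] at hs <;> simp only [z1, z2] <;> exact hs
    unfold lct
    by_cases hX : X = x1
    · rw [if_pos hX]
      subst hX
      have e2 : ∀ Y, sl2 xs Yd (X - 1) Y = sl2 xs Yd X Y := fun Y => sl2_eq (fun h => H.xs1 h.symm)
      have e1 : ∀ Y, sl1 s X y0 (X - 1) Y = (if s then decide (y0 < Y) else decide (Y ≤ y0)) := by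
        intro Y; unfold sl1; simp
      have e3 : ∀ Y, sl1 s X y0 X Y = false := by intro Y; unfold sl1; simp
      have e4 : ∀ Y, ln κ s X y0 xs Yd (X - 1) Y = ln κ s X y0 xs Yd X Y ↔
          (if s then decide (y0 < Y) else decide (Y ≤ y0)) = false := by
        intro Y
        unfold ln
        rw [e1, e2, e3, H.k1]
        generalize (if s then decide (y0 < Y) else decide (Y ≤ y0)) = p
        generalize sl2 xs Yd X Y = q
        cases κ X <;> cases p <;> cases q <;> simp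
      cases s
      · simp only [Bool.false_eq_true, if_false]
        refine ⟨by omega, by omega, fun Y _ h4 => ?_, fun Y h3 _ => ?_, ?_⟩
        · intro h5
          rw [e4] at h5
          simp [h4] at h5
        · rw [e4]
          simp only [Bool.false_eq_true, if_false, decide_eq_false_iff_not]
          omega
        · exact ln_line (fun _ => by omega) (fun _ => by omega)
      · simp only [if_true]
        refine ⟨by omega, by omega, fun Y _ h4 => ?_, fun Y h3 _ => ?_, ?_⟩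
        · rw [e4]
          simp only [if_true, decide_eq_false_iff_not]
          omega
        · intro h5
          rw [e4] at h5
          simp [h3] at h5
        · exact ln_line (fun h => absurd h (lt_irrefl _)) (fun _ => by omega)
    · rw [if_neg hX]
      have e1 : ∀ Y, sl1 s x1 y0 (X - 1) Y = sl1 s x1 y0 X Y := fun Y => sl1_eq hX
      by_cases hXs : X = xs
      · rw [if_pos hXs]
        subst hXs
        have e2 : ∀ Y, sl2 X Yd (X - 1) Y = false := by intro Y; unfold sl2; simp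
        have e3 : ∀ Y, sl2 X Yd X Y = decide (Yd < Y) := by intro Y; unfold sl2; simp
        have e4 : ∀ Y, ln κ s x1 y0 X Yd (X - 1) Y = ln κ s x1 y0 X Yd X Y ↔
            (κ (X - 1) = κ X ↔ ¬ Yd < Y) := by
          intro Y
          unfold ln
          rw [e1, e2, e3]
          by_cases hp : Yd < Y
          · simp only [hp, decide_true, not_true_eq_false, iff_false]
            generalize sl1 s x1 y0 X Y = q
            cases κ X <;> cases κ (X - 1) <;> cases q <;> simp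
          · simp only [hp, decide_false, not_false_eq_true, iff_true]
            generalize sl1 s x1 y0 X Y = q
            cases κ X <;> cases κ (X - 1) <;> cases q <;> simp
        by_cases hk : κ (X - 1) = κ X
        · rw [if_pos hk]
          refine ⟨by omega, by omega, fun Y _ h4 => ?_, fun Y h3 _ => ?_, ?_⟩
          · rw [e4]
            simp only [hk, true_iff]
            omega
          · intro h5
            rw [e4] at h5
            exact (h5.1 hk) h3
          · exact ln_line (fun _ => by omega) (fun _ => by omega)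
        · rw [if_neg hk]
          refine ⟨by omega, by omega, fun Y _ h4 => ?_, fun Y h3 _ => ?_, ?_⟩
          · intro h5
            rw [e4] at h5
            exact hk (h5.2 (by omega))
          · rw [e4]
            exact ⟨fun h => absurd h hk, fun h => absurd h3 h⟩
          · exact ln_line (fun _ => by omega) (fun _ => by omega)
      · rw [if_neg hXs]
        have e2 : ∀ Y, sl2 xs Yd (X - 1) Y = sl2 xs Yd X Y := fun Y => sl2_eq hXs
        by_cases hk : κ (X - 1) = κ X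
        · rw [if_pos hk]
          exact ⟨(ln_ne (e1 _) (e2 _)).2 hk, (ln_ne (e1 _) (e2 _)).2 hk⟩
        · rw [if_neg hk]
          exact fun Y _ _ h => hk ((ln_ne (e1 _) (e2 _)).1 h)

/-- **Two worlds with the slit rows `y0`, `y0'`.** -/
theorem pair (H' : Mid Λ' D' w' xl xb ya yb κ s x1 y0' xs Yd)
    (out : ∀ x y, ¬ (xl ≤ x ∧ x < xb ∧ ya ≤ y ∧ y < yb) → (vt x y ∈ Λ ↔ vt x y ∈ Λ') ∧
      (vt x y ∈ Λ → (vt x y ∈ D ↔ vt x y ∈ D') ∧ (vt x y ∉ D → (vt x y ∈ w ↔ vt x y ∈ w')))) :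
    Pair Λ Λ' D D' w w' xl xb ya yb (lnx xl ya κ s x1 y0 xs Yd) (lnx xl ya κ s x1 y0' xs Yd)
      (lct κ s x1 y0 xs Yd) (lct κ s x1 y0' xs Yd) where
  s1 := H.solid
  s2 := H'.solid
  out := out
  bot x _ _ := by
    have a1 := H.ay0
    have a2 := H'.ay0
    unfold lnx
    split_ifs
    · rfl
    · unfold ln sl1
      have e1 : decide (y0 < ya) = decide (y0' < ya) := by
        rw [decide_eq_false (by omega : ¬ y0 < ya), decide_eq_false (by omega : ¬ y0' < ya)]
      have e2 : decide (ya ≤ y0) = decide (ya ≤ y0') := by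
        rw [decide_eq_true (by omega : ya ≤ y0), decide_eq_true (by omega : ya ≤ y0')]
      rw [e1, e2]
  top x _ _ := by
    have a1 := H.y0b
    have a2 := H'.y0b
    unfold lnx
    split_ifs
    · rfl
    · unfold ln sl1
      have e1 : decide (y0 < yb) = decide (y0' < yb) := by
        rw [decide_eq_true (by omega : y0 < yb), decide_eq_true (by omega : y0' < yb)]
      have e2 : decide (yb ≤ y0) = decide (yb ≤ y0') := by
        rw [decide_eq_false (by omega : ¬ yb ≤ y0), decide_eq_false (by omega : ¬ yb ≤ y0')]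
      rw [e1, e2]
  lft Y _ _ := by
    unfold lnx
    rw [if_pos (by omega), if_pos (by omega)]
  rgt Y _ _ := by
    have a1 := H.x1b
    have a2 := H.hx
    rw [lnx_eq a2, lnx_eq a2]
    unfold ln sl1
    rw [decide_eq_false (by omega : ¬ xb < x1)]
    simp

end Mid

/-! ### Far corners, ends, passages -/

/-- twice the height of a corner -/
def hgt (c : ℤ × ℤ) : ℤ := c.2 - c.1

lemma hgt_hz (x Y : ℤ) : hgt (hz x Y) = 2 * Y := by unfold hgt hz; simp only; ring
lemma hgt_vt (x y : ℤ) : hgt (vt x y) = 2 * y + 1 := by unfold hgt vt; simp only; ring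

/-- corner above or below the rectangle -/
def Far (ya yb : ℤ) (c : ℤ × ℤ) : Prop := 2 * yb + 1 < hgt c ∨ hgt c < 2 * ya - 1

lemma Far.out {σ : ℤ → ℤ → Bool} {c : ℤ × ℤ} (h : Far ya yb c) :
    ¬ Inn xl xb ya yb c ∧ ¬ Box xl xb ya yb (nd σ c).1 (nd σ c).2 := by
  unfold Far at h
  rcases hz_or_vt c with ⟨x, y, rfl⟩ | ⟨x, y, rfl⟩
  · rw [hgt_hz] at h
    rw [Inn_hz, nd_hz]
    unfold Box
    simp only
    omega
  · rw [hgt_vt] at h
    rw [Inn_vt, nd_vt]
    have hr : rho σ x y = y ∨ rho σ x y = y + 1 := by unfold rho; split_ifs <;> simp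
    unfold Box
    simp only
    omega

lemma Far.im {σ1 σ2 : ℤ → ℤ → Bool} {ct1 ct2 : ℤ → CT} {D1 D2 : Set (ℤ × ℤ)} {c : ℤ × ℤ}
    (h : Far ya yb c) : Im D1 D2 xl xb ya yb σ1 σ2 ct1 ct2 c c := Im_far (h.out (σ := σ1)).1 (h.out (σ := σ1)).2

lemma Far.nj {σ : ℤ → ℤ → Bool} {ct : ℤ → CT} {c : ℤ × ℤ} (h : Far ya yb c) :
    NJ xl xb ya yb ct (nd σ c) := fun hb => absurd hb h.out.2

lemma lct_x1 : lct κ s x1 y0 xs Yd x1 = .up y0 ∨ lct κ s x1 y0 xs Yd x1 = .lo y0 := by
  unfold lct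
  rw [if_pos rfl]
  cases s
  · right; simp
  · left; simp

lemma lct_xs (h : xs ≠ x1) : lct κ s x1 y0 xs Yd xs = .up Yd ∨ lct κ s x1 y0 xs Yd xs = .lo Yd := by
  unfold lct
  rw [if_neg h, if_pos rfl]
  split_ifs
  · left; rfl
  · right; rfl

lemma lct_gap {X : ℤ} : lct κ s x1 y0 xs Yd X = .gap ↔ X ≠ x1 ∧ X ≠ xs ∧ κ (X - 1) ≠ κ X := by
  unfold lct
  by_cases h1 : X = x1
  · rw [if_pos h1]
    cases s <;> simp [h1]
  · rw [if_neg h1]
    by_cases h2 : X = xs
    · rw [if_pos h2]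
      split_ifs <;> simp [h2]
    · rw [if_neg h2]
      split_ifs with h3 <;> simp [h1, h2, h3]

lemma rep_x1 : rep ya (lnx xl ya κ s x1 y0 xs Yd) (lct κ s x1 y0 xs Yd) x1 = vt x1 y0 := by
  unfold rep
  rcases lct_x1 (κ := κ) (s := s) (x1 := x1) (y0 := y0) (xs := xs) (Yd := Yd) with h | h <;> rw [h]

lemma rep_xs (h : xs ≠ x1) :
    rep ya (lnx xl ya κ s x1 y0 xs Yd) (lct κ s x1 y0 xs Yd) xs = vt xs Yd := by
  unfold rep
  rcases lct_xs (κ := κ) (s := s) (y0 := y0) (Yd := Yd) h with h | h <;> rw [h]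

/-- the corner of the strand of the gap column `X` on the line `Y` -/
def gc (κ : ℤ → Bool) (s : Bool) (x1 y0 xs Yd X Y : ℤ) : ℤ × ℤ := hcor (ln κ s x1 y0 xs Yd) X Y

lemma gc_eq {X Y : ℤ} (h : xl ≤ X) :
    hcor (lnx xl ya κ s x1 y0 xs Yd) X Y = gc κ s x1 y0 xs Yd X Y := by
  unfold gc hcor
  rw [lnx_eq h]

/-- number of gap columns left of `x1` whose strand is joined to `T` -/
noncomputable def gn (G : SimpleGraph (ℤ × ℤ)) (xl : ℤ) (κ : ℤ → Bool) (s : Bool) (x1 y0 xs Yd Y : ℤ)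
    (T : Set (ℤ × ℤ)) : ℕ :=
  Set.ncard {X : ℤ | xl < X ∧ X < x1 ∧ X ≠ xs ∧ κ (X - 1) ≠ κ X ∧
    ∃ t ∈ T, G.Reachable (gc κ s x1 y0 xs Yd X Y) t}

/-- number of sides of the line `Y` left of `x1` which are joined to `T` -/
noncomputable def lnn (G : SimpleGraph (ℤ × ℤ)) (x1 Y : ℤ) (T : Set (ℤ × ℤ)) : ℕ :=
  Set.ncard {x : ℤ | x < x1 ∧ ∃ t ∈ T, G.Reachable (hz x Y) t}

lemma iso_hz {Λ D : Set (ℤ × ℤ)} {w : Finset (ℤ × ℤ)} {x Y : ℤ} (h1 : vt x Y ∉ Λ) (h2 : vt x (Y - 1) ∉ Λ)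
    {d : ℤ × ℤ} (h : (SG Λ D w).Reachable (hz x Y) d) : hz x Y = d := by
  obtain ⟨p⟩ := h
  cases p with
  | nil => rfl
  | cons ha _ =>
    exfalso
    obtain ⟨e, he, hT⟩ := ha
    have hl : e = vt x Y ∨ e = vt x (Y - 1) := by
      rcases tiles_hz x Y with ⟨a1, a2⟩ | ⟨a1, a2⟩ <;> rcases hT.label with h | h <;>
        rw [h] <;> simp only [a1, a2] <;> tauto
    rcases hl with h | h
    · exact h1 (h ▸ he)
    · exact h2 (h ▸ he)

/-- **Passages of a line = strands of the gap columns.** -/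
theorem Mid.cnt (H : Mid Λ D w xl xb ya yb κ s x1 y0 xs Yd) {Y Y' : ℤ} (h1 : ya ≤ Y) (h2 : Y ≤ yb)
    (h1' : ya ≤ Y') (h2' : Y' ≤ yb) {T : Set (ℤ × ℤ)} (hT : ∀ t ∈ T, Far ya yb t)
    (hm : ∀ t ∈ T, ¬ (SG Λ D w).Reachable (vt x1 y0) t)
    (hz' : xs < x1 → ∀ t ∈ T, ¬ (SG Λ D w).Reachable (vt xs Yd) t) :
    lnn (SG Λ D w) x1 Y T = gn (SG Λ D w) xl κ s x1 y0 xs Yd Y' T := by
  have hs := H.solid
  have key := hs.cnt_cols h1 h2 h1' h2' H.x1b.le (T := T) (fun t ht => (hT t ht).nj)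
    (fun X a1 a2 a3 => by
      rintro ⟨d, hd⟩ t ht
      by_cases hX : X = x1
      · rw [hX, rep_x1]
        exact hm t ht
      · by_cases hX2 : X = xs
        · rw [hX2, rep_xs H.xs1]
          exact hz' (by omega) t ht
        · exfalso
          unfold lct at hd
          rw [if_neg hX, if_neg hX2] at hd
          split_ifs at hd <;> rcases hd with hd | hd <;> cases hd)
    (fun _ _ h => (lct_gap.1 h).1 rfl)
    (fun x hx t ht hr => by
      have h3 := iso_hz (H.outL x Y hx (by omega) h2) (H.outL x (Y - 1) hx (by omega) (by omega)) hr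
      have h4 := hT t ht
      rw [← h3] at h4
      unfold Far at h4
      rw [hgt_hz] at h4
      omega)
  unfold lnn gn
  rw [key]
  congr 1
  ext X
  simp only [Set.mem_ofPred_eq, lct_gap]
  constructor
  · rintro ⟨a1, a2, ⟨-, a4, a5⟩, a6⟩
    rw [gc_eq a1.le] at a6
    exact ⟨a1, a2, a4, a5, a6⟩
  · rintro ⟨a1, a2, a4, a5, a6⟩
    rw [← gc_eq (ya := ya) a1.le] at a6
    exact ⟨a1, a2, ⟨by omega, a4, a5⟩, a6⟩

section two

variable (H : Mid Λ D w xl xb ya yb κ s x1 y0 xs Yd) (H' : Mid Λ' D' w' xl xb ya yb κ s x1 y0' xs Yd)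
  (out : ∀ x y, ¬ (xl ≤ x ∧ x < xb ∧ ya ≤ y ∧ y < yb) → (vt x y ∈ Λ ↔ vt x y ∈ Λ') ∧
    (vt x y ∈ Λ → (vt x y ∈ D ↔ vt x y ∈ D') ∧ (vt x y ∉ D → (vt x y ∈ w ↔ vt x y ∈ w'))))
include H H' out

/-- corresponding corners of the two worlds: far corners, the mark, the end of the string -/
def CC (ya yb x1 y0 y0' xs Yd xb : ℤ) (c c' : ℤ × ℤ) : Prop :=
  (Far ya yb c ∧ c' = c) ∨ (c = vt x1 y0 ∧ c' = vt x1 y0') ∨ (xs < xb ∧ c = vt xs Yd ∧ c' = vt xs Yd)

omit out in
lemma cc_im {c c' : ℤ × ℤ} (h : CC ya yb x1 y0 y0' xs Yd xb c c') :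
    Im D D' xl xb ya yb (lnx xl ya κ s x1 y0 xs Yd) (lnx xl ya κ s x1 y0' xs Yd)
      (lct κ s x1 y0 xs Yd) (lct κ s x1 y0' xs Yd) c c' := by
  rcases h with ⟨h, rfl⟩ | ⟨rfl, rfl⟩ | ⟨h, rfl, rfl⟩
  · exact h.im
  · exact Or.inr ⟨x1, H.lx1, H.x1b, H.solid.St_end H.lx1 H.x1b lct_x1, H'.solid.St_end H.lx1 H.x1b lct_x1⟩
  · exact Or.inr ⟨xs, H.lxs, h, H.solid.St_end H.lxs h (lct_xs H.xs1),
      H'.solid.St_end H.lxs h (lct_xs H.xs1)⟩

/-- **Connections agree.** -/
theorem Mid.reach {c c' d d' : ℤ × ℤ} (hc : CC ya yb x1 y0 y0' xs Yd xb c c')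
    (hd : CC ya yb x1 y0 y0' xs Yd xb d d') :
    (SG Λ D w).Reachable c d ↔ (SG Λ' D' w').Reachable c' d' :=
  (H.pair H' out).reach (cc_im H H' hc) (cc_im H H' hd)

/-- **The numbers of passages agree**, for any two lines. -/
theorem Mid.cnt_eq {Y Y' : ℤ} (h1 : ya ≤ Y) (h2 : Y ≤ yb) (h1' : ya ≤ Y') (h2' : Y' ≤ yb)
    {T : Set (ℤ × ℤ)} (hT : ∀ t ∈ T, Far ya yb t) (hm : ∀ t ∈ T, ¬ (SG Λ D w).Reachable (vt x1 y0) t)
    (hz' : xs < x1 → ∀ t ∈ T, ¬ (SG Λ D w).Reachable (vt xs Yd) t) :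
    lnn (SG Λ D w) x1 Y T = lnn (SG Λ' D' w') x1 Y' T := by
  have ffar : ∀ t ∈ T, CC ya yb x1 y0 y0' xs Yd xb t t := fun t ht => Or.inl ⟨hT t ht, rfl⟩
  rw [H.cnt h1 h2 h1' h2' hT hm hz', H'.cnt h1' h2' h1' h2' hT
    (fun t ht hr => hm t ht ((Mid.reach H H' out (Or.inr (Or.inl ⟨rfl, rfl⟩)) (ffar t ht)).2 hr))
    (fun hx t ht hr => hz' hx t ht
      ((Mid.reach H H' out (Or.inr (Or.inr ⟨hx.trans H.x1b, rfl, rfl⟩)) (ffar t ht)).2 hr))]
  unfold gn
  congr 1
  ext X
  simp only [Set.mem_ofPred_eq]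
  refine and_congr_right fun a1 => and_congr_right fun a2 => and_congr_right fun a3 =>
    and_congr_right fun a4 => exists_congr fun t => and_congr_right fun ht => ?_
  have hg : lct κ s x1 y0 xs Yd X = .gap := lct_gap.2 ⟨by omega, a3, a4⟩
  have := (H.pair H' out).gap_iff a1 (a2.trans H.x1b) hg h1' h2' h1' h2' ((hT t ht).im)
  rw [gc_eq a1.le, gc_eq a1.le] at this
  exact this

end two

end Pool.Agent.H16.W
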