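import Mathlib
import Pool.Agent.H71.W.J6F
import Pool.Agent.H71.W.J6E
import Pool.Agent.H16.W.JMir
import Pool.Agent.H16.W.JSol

set_option autoImplicit false
open Finset

/-! # Route W, J6, Y worlds: layer colours with the change of the left wall at the row `y0`

`lcS b n cl y0 x y` : colour of the layer tile; the left wall has the colour `cl.u 0` above the row `y0` and `cl.l 0`
below. `WlS` : the open labels. `lay_WlS` : 71's `Lay`. `GY_WA` : 61's `GY` is `WA` with these labels. -/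

namespace Pool.Agent.H16.W

open Pool.Agent.H61.W Pool.Agent.H6.W Pool.Agent.H58.W Pool.Agent.H21.W Pool.Agent.H50.W
open Pool.Agent.H82.W Pool.Agent.H13.W
open Pool.Agent.H71.W hiding InQ_col dgt_row
open Pool.Agent.H19.W (cx cy lt_cc cx_lt cy_lt mv mv_in mv_out StripOK Moved Rc stripOK_rect
  cx_up cy_up cx_dn cy_dn tile_ext odd_up odd_dn dn_up up_dn)
open Pool.Agent.H33.Q1 (lt tt TL ct mem_TL lt_odd)

variable {δ σ : ℝ} {b : JBox} {h : ℕ} {M : Finset (Bool × ℕ)}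
  {L L' : Finset (ℤ × ℤ)} {o s : Bool} {x1 y0 xs xe xl ρ Yd : ℤ} {v : ℤ × ℤ}

/-- colour of the layer, with the change of the left wall at the row `y0` -/
def lcS (b : JBox) (n : ℤ) (cl : Cl) (y0 x y : ℤ) : Bool :=
  if x < -(b.X * n) ∧ -(b.H * n) ≤ y ∧ y < b.H * n then (if y0 < y then cl.u 0 else cl.l 0)
  else lcol b n cl x y

open Classical in
/-- open labels of the layer, with the change of the left wall at the row `y0` -/
noncomputable def WlS (b : JBox) (n : ℤ) (cl : Cl) (y0 : ℤ) : Finset (ℤ × ℤ) :=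
  ((Icc (-(b.X * n) - 3) (b.X * n + 2) ×ˢ Icc (-((b.H + b.K) * n) - 3) ((b.H + b.K) * n + 2)).filter fun t =>
    ¬ InQ b n t.1 t.2 ∧ lcS b n cl y0 t.1 t.2 = true).image lt

lemma WlS_notMem {cl : Cl} {e : ℤ × ℤ} (he : e ∈ WlS b (2 * h) cl y0) (hh : 0 < h) : e ∉ b.B h := by
  classical
  intro hB
  unfold WlS at he
  rw [mem_image] at he
  obtain ⟨t, ht, rfl⟩ := he
  rw [mem_filter] at ht
  rw [mem_B hh, cx_lt, cy_lt] at hB
  exact ht.2.1 hB.2

lemma mem_WlS (hh : 0 < h) {cl : Cl} {e : ℤ × ℤ} (ho : (e.1 + e.2) % 2 = 1)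
    (hI : ¬ InQ b (2 * h) (cx e) (cy e)) (h1 : -(b.X * (2 * h : ℤ)) - 3 ≤ cx e)
    (h2 : cx e < b.X * (2 * h : ℤ) + 3) (h3 : -((b.H + b.K) * (2 * h : ℤ)) - 3 ≤ cy e)
    (h4 : cy e < (b.H + b.K) * (2 * h : ℤ) + 3) :
    e ∈ WlS b (2 * h) cl y0 ↔ lcS b (2 * h) cl y0 (cx e) (cy e) = true := by
  classical
  unfold WlS
  rw [mem_image]
  constructor
  · rintro ⟨t, ht, rfl⟩
    rw [mem_filter] at ht
    rw [cx_lt, cy_lt]
    exact ht.2.2
  · intro hc
    refine ⟨(cx e, cy e), ?_, lt_cc ho⟩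
    rw [mem_filter, mem_product, mem_Icc, mem_Icc]
    exact ⟨⟨⟨h1, by linarith⟩, h3, by linarith⟩, hI, hc⟩

/-- open layer tiles of the strand graph -/
lemma mem_WlS' (hb : b.Ok δ σ) (hh : 0 < h) {cl : Cl} {e : ℤ × ℤ} (he : e ∈ Lam b (2 * h) M)
    (hI : ¬ InQ b (2 * h) (cx e) (cy e)) :
    e ∈ WlS b (2 * h) cl y0 ↔ lcS b (2 * h) cl y0 (cx e) (cy e) = true := by
  have hn : (0 : ℤ) < 2 * h := by positivity
  rcases (mem_Lam.1 he).2 with h1 | ⟨h1, -⟩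
  · exact absurd h1 hI
  · have h2 := Ly_col hb hn h1
    have h3 := Ly_row hb hn h1
    exact mem_WlS hh (mem_Lam.1 he).1 hI h2.1 h2.2 h3.1 h3.2

/-- outside of the left wall nothing changes -/
lemma mem_WlS_Wl (hb : b.Ok δ σ) (hh : 0 < h) {cl : Cl} {e : ℤ × ℤ} (he : e ∈ Lam b (2 * h) M)
    (hI : ¬ InQ b (2 * h) (cx e) (cy e))
    (hx : ¬ (cx e < -(b.X * (2 * h : ℤ)) ∧ -(b.H * (2 * h : ℤ)) ≤ cy e ∧ cy e < b.H * (2 * h : ℤ))) :
    e ∈ WlS b (2 * h) cl y0 ↔ e ∈ Wl b (2 * h) cl := by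
  rw [mem_WlS' hb hh he hI, mem_Wl' hb hh he hI]
  unfold lcS
  rw [if_neg hx]

/-- the colour of the left wall -/
lemma lcol_left {n : ℤ} (hn : 0 < n) (hX : 0 < b.X * n) {cl : Cl} {x y : ℤ} (h1 : x < -(b.X * n))
    (h2 : -(b.H * n) ≤ y) (h3 : y < b.H * n) : lcol b n cl x y = if 0 ≤ y then cl.u 0 else cl.l 0 := by
  unfold lcol
  rw [if_neg (by linarith)]
  have e1 : y / n < b.H := (div_lt_iff' hn).2 h3
  have e2 : (-y - 1) / n < b.H := (div_lt_iff' hn).2 (by linarith)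
  have e3 : (y / n - b.H).toNat = 0 := by omega
  have e4 : ((-y - 1) / n - b.H).toNat = 0 := by omega
  rw [e3, e4, Nat.min_zero]

/-- at the natural row: the colours of 61 -/
lemma lcS_Yr {n : ℤ} (hn : 0 < n) (hX : 0 < b.X * n) {cl : Cl} {x y : ℤ}
    (hy : ¬ (y = Yr s ∧ x < -(b.X * n))) : lcS b n cl (Yr s) x y = lcol b n cl x y := by
  unfold lcS
  split_ifs with h1 h2
  · rw [lcol_left hn hX h1.1 h1.2.1 h1.2.2]
    rw [if_pos]
    revert h2; unfold Yr; cases s <;> simp only [Bool.false_eq_true, if_false, if_true] <;> omega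
  · rw [lcol_left hn hX h1.1 h1.2.1 h1.2.2]
    have : y ≠ Yr s := fun g => hy ⟨g, h1.1⟩
    rw [if_neg]
    revert h2 this; unfold Yr; cases s <;> simp only [Bool.false_eq_true, if_false, if_true] <;> omega
  · rfl

/-- **61's `Y` world.** -/
theorem GY_WA (hb : b.Ok δ σ) (hh : 0 < h) (hm : b.m ≤ nP b) (ht : (b.τ : ℤ) + nP b ≤ b.H) (cl : Cl)
    (hx1 : -(b.X * (2 * h : ℤ)) ≤ x1) {ω : Finset (ℤ × ℤ)} (hω : ω ⊆ b.B h) :
    GG b (2 * h) M cl (strD v ∪ slD s x1) (symmDiff (cfg b h o ω) (flp b h s x1)) =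
      (WA b h M (WlS b (2 * h) cl (Yr s)) o s x1 (Yr s) v).G (ω \ b.Pl h) := by
  have hn : (0 : ℤ) < 2 * h := by positivity
  have hX : (0 : ℤ) < b.X * (2 * h) := mul_pos (by exact_mod_cast X_pos hb) hn
  refine GY_eq hb hh hm ht cl ?_ (fun e he => WlS_notMem he hh) hω
  intro e he hB hD
  have ho := Lam_odd he
  have hI : ¬ InQ b (2 * h) (cx e) (cy e) := fun g => hB ((mem_B hh).2 ⟨ho, g⟩)
  rw [mem_WlS' hb hh he hI, mem_Wl' hb hh he hI, lcS_Yr hn hX]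
  rintro ⟨g1, g2⟩
  apply hD
  refine ⟨(cx e, cy e), Or.inr ⟨g1, ?_⟩, lt_cc ho⟩
  show cx e < x1
  linarith

end Pool.Agent.H16.W

namespace Pool.Agent.H71.W.UpH

open Pool.Agent.H61.W Pool.Agent.H6.W Pool.Agent.H58.W Pool.Agent.H21.W Pool.Agent.H50.W
open Pool.Agent.H82.W Pool.Agent.H13.W Pool.Agent.H16.W
open Pool.Agent.H19.W (cx cy lt_cc cx_lt cy_lt mv mv_in mv_out StripOK Moved Rc stripOK_rect
  cx_up cy_up cx_dn cy_dn tile_ext odd_up odd_dn dn_up up_dn)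
open Pool.Agent.H33.Q1 (lt tt TL ct mem_TL lt_odd)

variable {δ σ : ℝ} {b : JBox} {h : ℕ} {M : Finset (Bool × ℕ)}
  {x1 y0 xs xe xl ρ Yd : ℤ} {v : ℤ × ℤ}

variable (U : UpH δ σ b h x1 y0 xs xe xl ρ Yd v)
include U

/-- **The layer colours of the Y worlds correspond.** -/
theorem lay_WlS (bse : Bool) : Lay b h M (WlS b (2 * h) (colM bse M (some v.2)) y0)
    (WlS b (2 * h) (colM bse M (some Yd)) y0) x1 y0 xe Yd v where
  dA e he := WlS_notMem he U.hh
  dB e he := WlS_notMem he U.hh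
  out e he hb hS h1 h2 := by
    have ho := Lam_odd he
    have hI : ¬ InQ b (2 * h) (cx e) (cy e) := fun g => hb ((mem_B U.hh).2 ⟨ho, g⟩)
    by_cases hx : cx e < -(b.X * (2 * h : ℤ)) ∧ -(b.H * (2 * h : ℤ)) ≤ cy e ∧ cy e < b.H * (2 * h : ℤ)
    · rw [mem_WlS' U.ok U.hh he hI, mem_WlS' U.ok U.hh he hI]
      unfold lcS
      rw [if_pos hx, if_pos hx]
      rfl
    · rw [mem_WlS_Wl U.ok U.hh he hI hx, mem_WlS_Wl U.ok U.hh he hI hx]
      exact (U.lay_Wl bse).out e he hb hS h1 h2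
  st e he hb hS := by
    obtain ⟨⟨a1, a2⟩, a3, a4⟩ := id hS
    have hr := U.rho_lo
    have hy := U.y0d
    have hv := U.vH
    have ho := Lam_odd he
    have hcol := Lam_col U.ok U.hn he
    have hx := U.right_lay he hb (by linarith) (by linarith) a1
    have hX := U.Xn
    have hI : ¬ InQ b (2 * h) (cx e) (cy e) := fun g => hb ((mem_B U.hh).2 ⟨ho, g⟩)
    have hu : up e ∈ Lam b (2 * h) M := by
      rw [mem_Lam_band U.ok U.hn (by rw [cy_up]; linarith) (by rw [cy_up]; linarith), odd_up, cx_up]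
      exact ⟨ho, hcol⟩
    have hI' : ¬ InQ b (2 * h) (cx (up e)) (cy (up e)) := by
      rw [cx_up, cy_up, InQ_band U.ok U.hn (by linarith) (by linarith)]
      intro g
      linarith [g.2]
    rw [mem_WlS_Wl U.ok U.hh hu hI' (by rw [cx_up]; intro g; linarith [g.1]),
      mem_WlS_Wl U.ok U.hh he hI (by intro g; linarith [g.1])]
    exact (U.lay_Wl bse).st e he hb hS

end Pool.Agent.H71.W.UpH
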