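import Mathlib
import Pool.Agent.H16.W.JWlS
import Pool.Agent.H82.W.EB

set_option autoImplicit false
open Finset

/-! # Route W, J6, Y worlds: the row behind the mark of `P` can be moved inside the slit

`BC` : configurations which are constant on the blocks; `EB_bc`. `kp` : colours of the columns. `mid_of` : the
worlds are solid in the middle (`Mid`). `midA` : for `WA`. `WA_reach`, `WA_cnt` : connections and passages do not
depend on the row `y0`. -/

namespace Pool.Agent.H16.W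

open Pool.Agent.H61.W Pool.Agent.H6.W Pool.Agent.H58.W Pool.Agent.H21.W Pool.Agent.H50.W
open Pool.Agent.H82.W Pool.Agent.H13.W
open Pool.Agent.H47.W (hz vt)
open Pool.Agent.H71.W hiding InQ_col dgt_row
open Pool.Agent.H19.W (cx cy lt_cc cx_lt cy_lt)
open Pool.Agent.H33.Q1 (lt tt TL ct mem_TL lt_odd)

variable {δ σ : ℝ} {b : JBox} {h : ℕ} {M : Finset (Bool × ℕ)}
  {L L' : Finset (ℤ × ℤ)} {o s : Bool} {x1 y0 y0' xs xe xl ρ Yd : ℤ} {v : ℤ × ℤ}

section bc
variable {α β : Type*} [DecidableEq α] [DecidableEq β]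

/-- configuration of the coin model: constant on the blocks -/
def BC (E : Finset α) (b : α → β) (ω : Finset α) : Prop :=
  ω ⊆ E ∧ ∀ e ∈ E, ∀ e' ∈ E, b e = b e' → (e ∈ ω ↔ e' ∈ ω)

lemma bc_up (E : Finset α) (b : α → β) (S : Finset β) : BC E b (up E b S) := by
  refine ⟨up_subset _ _ _, fun e he e' he' hb => ?_⟩
  rw [mem_up, mem_up, hb]
  exact ⟨fun g => ⟨he', g.2⟩, fun g => ⟨he, g.2⟩⟩

theorem EB_bc {E : Finset α} {b : α → β} {V V' : Finset α → ℂ} (h : ∀ ω, BC E b ω → V ω = V' ω) :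
    EB E b V = EB E b V' := by
  unfold EB
  rw [sum_congr rfl fun ω _ => h _ (bc_up _ _ _)]

end bc

lemma vt_lt (x y : ℤ) : vt x y = lt (x, y) := rfl

lemma cx_vt (x y : ℤ) : cx (vt x y) = x := cx_lt (x, y)
lemma cy_vt (x y : ℤ) : cy (vt x y) = y := cy_lt (x, y)
lemma vt_odd (x y : ℤ) : ((vt x y).1 + (vt x y).2) % 2 = 1 := lt_odd (x, y)

/-- colour of the left wall as the first column -/
def cw (s : Bool) (cl : Cl) : Bool := if s then cl.l 0 else cl.u 0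

/-- colours of the columns -/
def kp (b : JBox) (n : ℤ) (c o : Bool) (ω : Finset (ℤ × ℤ)) (x : ℤ) : Bool :=
  if x < -(b.X * n) then c else if pin b n x < b.m then o else decide (lt (x, 0) ∈ ω)

/-- **Numerical hypotheses on the mark of `P`.** -/
structure MkH (δ σ : ℝ) (b : JBox) (h : ℕ) (x1 : ℤ) : Prop where
  ok : b.Ok δ σ
  hh : 0 < h
  mn : b.m ≤ nP b
  thk : (b.τ : ℤ) + nP b < b.H
  ten : 10 ≤ b.τ * (2 * h : ℤ)
  x1l : -(b.m * b.M * (2 * h) : ℤ) < x1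
  x1r : x1 ≤ -2

namespace MkH

variable (N : MkH δ σ b h x1)
include N

lemma hn : (0 : ℤ) < 2 * h := by
  have := N.hh
  positivity

lemma hM : (0 : ℤ) < b.M := by exact_mod_cast N.ok.M0

lemma Xn : (0 : ℤ) < b.X * (2 * h : ℤ) := mul_pos (by exact_mod_cast X_pos N.ok) N.hn

lemma mX : (b.m * b.M * (2 * h) : ℤ) ≤ b.X * (2 * h) := by
  rw [X_eq N.ok]
  have h1 : (b.m : ℤ) ≤ nP b := by exact_mod_cast N.mn
  exact mul_le_mul_of_nonneg_right (mul_le_mul_of_nonneg_right h1 N.hM.le) N.hn.le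

lemma tH : (b.τ * (2 * h) : ℤ) ≤ b.H * (2 * h) := by
  refine mul_le_mul_of_nonneg_right ?_ N.hn.le
  have : (0 : ℤ) ≤ nP b := Int.natCast_nonneg _
  linarith [N.thk]

/-- columns of `P` -/
lemma pin_P {x : ℤ} (h1 : x1 - 1 ≤ x) (h2 : x < 0) : pin b (2 * h) x < b.m := by
  have h3 := (pin_eq N.ok.M0 N.hn h2 (i := pin b (2 * h) x)).1 rfl
  by_contra hc
  have h4 : (b.m : ℤ) ≤ pin b (2 * h) x := by exact_mod_cast not_lt.1 hc
  have h5 : (b.m * b.M * (2 * h) : ℤ) ≤ pin b (2 * h) x * b.M * (2 * h) :=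
    mul_le_mul_of_nonneg_right (mul_le_mul_of_nonneg_right h4 N.hM.le) N.hn.le
  linarith [N.x1l, h3.2]

/-- tiles of the columns of the plates in the middle rows -/
lemma plate {x y : ℤ} (h1 : -(b.X * (2 * h : ℤ)) ≤ x) (h2 : x < 0) (h3 : -10 ≤ y) (h4 : y ≤ 9) :
    vt x y ∈ b.B h ∧ cpl b (2 * h) (vt x y) = some (pin b (2 * h) x) := by
  have hn := N.hn
  have hX := N.Xn
  have h5 := (pin_eq N.ok.M0 hn h2 (i := pin b (2 * h) x)).1 rfl
  have h6 : (b.τ * (2 * h) : ℤ) ≤ ((b.τ : ℤ) + pin b (2 * h) x) * (2 * h) := by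
    have : (0 : ℤ) ≤ (pin b (2 * h) x : ℤ) * (2 * h) := by positivity
    linarith
  have := N.ten
  have := N.tH
  constructor
  · rw [mem_B N.hh, cx_vt, cy_vt, InQ_band N.ok hn (by linarith) (by linarith)]
    exact ⟨vt_odd _ _, h1, by linarith⟩
  · rw [cpl_some N.ok.M0 hn, cx_vt, cy_vt]
    exact ⟨h5, by linarith, by linarith⟩

/-- **The worlds are solid in the middle.** -/
theorem mid_of {D : Set (ℤ × ℤ)} {w : Finset (ℤ × ℤ)} {c : Bool} {ω : Finset (ℤ × ℤ)}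
    (hy1 : -8 ≤ y0) (hy2 : y0 ≤ 5) (hYd1 : -8 ≤ Yd) (hYd2 : Yd ≤ 7) (hd : y0 + 2 ≤ Yd ∨ Yd + 2 ≤ y0)
    (hxs : -(b.X * (2 * h : ℤ)) ≤ xs) (hxs1 : xs ≠ x1) (hxs2 : xs ≠ x1 + 1)
    (mD : ∀ x y, -(b.X * (2 * h : ℤ)) - 3 ≤ x → x ≤ x1 + 1 → -10 ≤ y → y ≤ 9 →
      (vt x y ∈ D ↔ (y = y0 ∧ x < x1) ∨ (y = Yd ∧ xs ≤ x)))
    (mL : ∀ x y, -(b.X * (2 * h : ℤ)) - 3 ≤ x → x < -(b.X * (2 * h : ℤ)) → -10 ≤ y → y ≤ 9 →
      vt x y ∉ D → (vt x y ∈ w ↔ (c ^^ (if s then decide (y0 < y) else decide (y ≤ y0))) = true))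
    (mP : ∀ x y, -(b.X * (2 * h : ℤ)) ≤ x → x ≤ x1 + 1 → -10 ≤ y → y ≤ 9 → vt x y ∉ D →
      (vt x y ∈ w ↔ Xor (kp b (2 * h) c o ω x = true) (Xor (fA s x1 y0 x y) (xs ≤ x ∧ Yd < y)))) :
    Mid (Lam b (2 * h) M) D w (-(b.X * (2 * h : ℤ)) - 3) (x1 + 1) (-9) 9 (kp b (2 * h) c o ω) s x1 y0
      xs Yd := by
  have hn := N.hn
  have hX := N.Xn
  have hmX := N.mX
  have hx1l := N.x1l
  have hx1r := N.x1r
  have hten := N.ten
  have htH := N.tH
  have hkP : ∀ x, x1 - 1 ≤ x → x < 0 → kp b (2 * h) c o ω x = o := by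
    intro x g1 g2
    unfold kp
    rw [if_neg (by linarith), if_pos (N.pin_P g1 g2)]
  refine
    { hx := by linarith
      lx1 := by linarith
      x1b := by linarith
      lxs := by linarith
      xsb := hxs2
      xs1 := hxs1
      ay0 := by linarith
      y0b := by linarith
      aYd := by linarith
      Ydb := by linarith
      dist := hd
      inL := ?_
      outL := ?_
      mD := fun x y g1 g2 g3 g4 => mD x y g1 g2 (by linarith) g4
      mw := ?_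
      k1 := ?_
      kl := ?_
      kb := ?_ }
  · intro x y g1 g2 g3 g4
    rw [mem_Lam_band N.ok hn (by rw [cy_vt]; linarith) (by rw [cy_vt]; linarith), cx_vt]
    exact ⟨vt_odd _ _, g1, by linarith⟩
  · intro x y g1 g3 g4
    rw [mem_Lam_band N.ok hn (by rw [cy_vt]; linarith) (by rw [cy_vt]; linarith), cx_vt]
    rintro ⟨-, g5, -⟩
    linarith
  · intro x y g1 g2 g3 g4 hD
    have g3' : -10 ≤ y := by linarith
    have hD' := hD
    rw [mD x y g1 g2 g3' g4] at hD'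
    by_cases hxX : x < -(b.X * (2 * h : ℤ))
    · rw [mL x y g1 hxX g3' g4 hD]
      have e1 : kp b (2 * h) c o ω x = c := by unfold kp; rw [if_pos hxX]
      have e2 : sl2 xs Yd x y = false := by
        unfold sl2
        rw [decide_eq_false (by linarith : ¬ xs ≤ x), Bool.false_and]
      have e3 : sl1 s x1 y0 x y = (if s then decide (y0 < y) else decide (y ≤ y0)) := by
        unfold sl1
        rw [decide_eq_true (by linarith : x < x1), Bool.true_and]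
      unfold ln
      rw [e1, e2, e3, Bool.xor_false]
    · rw [mP x y (not_lt.1 hxX) g2 g3' g4 hD]
      have e1 : fA s x1 y0 x y ↔ sl1 s x1 y0 x y = true := by
        unfold fA sl1
        by_cases hx1 : x < x1
        · have hy : y ≠ y0 := fun g => hD' (Or.inl ⟨g, hx1⟩)
          cases s
          · simp only [hx1, Bool.false_eq_true, if_false, true_and, decide_true, Bool.true_and,
              decide_eq_true_eq]
            omega
          · simp only [hx1, if_true, true_and, decide_true, Bool.true_and, decide_eq_true_eq]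
        · simp [hx1]
      have e2 : (xs ≤ x ∧ Yd < y) ↔ sl2 xs Yd x y = true := by
        unfold sl2
        simp
      rw [e1, e2]
      unfold ln
      generalize kp b (2 * h) c o ω x = p1
      generalize sl1 s x1 y0 x y = p2
      generalize sl2 xs Yd x y = p3
      cases p1 <;> cases p2 <;> cases p3 <;> simp [Xor]
  · rw [hkP _ (by linarith) (by linarith), hkP _ (by linarith) (by linarith)]
  · unfold kp
    rw [if_pos (by linarith), if_pos (by linarith)]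
  · rw [hkP _ (by linarith) (by linarith), hkP _ (by linarith) (by linarith)]

/-- **`WA` is solid in the middle.** -/
theorem midA {cl : Cl} {ω : Finset (ℤ × ℤ)} (hcl : cl.u 0 = !cl.l 0)
    (hω : BC (b.B h \ b.Pl h) (blk (cpl b (2 * h))) ω) (hv : 10 ≤ v.2) (hy1 : -8 ≤ y0) (hy2 : y0 ≤ 5) :
    Mid (WA b h M (WlS b (2 * h) cl y0) o s x1 y0 v).Λ (WA b h M (WlS b (2 * h) cl y0) o s x1 y0 v).D
      ((WA b h M (WlS b (2 * h) cl y0) o s x1 y0 v).st ω) (-(b.X * (2 * h : ℤ)) - 3) (x1 + 1) (-9) 9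
      (kp b (2 * h) (cw s cl) o ω) s x1 y0 (x1 + 3) 7 := by
  have hn := N.hn
  have hX := N.Xn
  have hmX := N.mX
  have hx1l := N.x1l
  have hx1r := N.x1r
  have hten := N.ten
  have htH := N.tH
  have hL : ∀ e ∈ WlS b (2 * h) cl y0, e ∉ b.B h := fun e he => WlS_notMem he N.hh
  refine N.mid_of (ω := ω) hy1 hy2 (by norm_num) le_rfl (Or.inl (by linarith)) (by linarith) (by omega) (by omega)
    ?_ ?_ ?_
  · intro x y g1 g2 g3 g4
    rw [mem_DA (vt_odd _ _), cx_vt, cy_vt]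
    constructor
    · rintro (⟨g5, -⟩ | g5)
      · linarith
      · exact Or.inl g5
    · rintro (g5 | ⟨-, g5⟩)
      · exact Or.inr g5
      · linarith
  · intro x y g1 g2 g3 g4 hD
    have hI : ¬ InQ b (2 * h) x y := by
      rw [InQ_band N.ok hn (by linarith) (by linarith)]
      rintro ⟨g5, -⟩; linarith
    have hB : vt x y ∉ b.B h := by
      rw [mem_B N.hh, cx_vt, cy_vt]; exact fun g => hI g.2
    have hLam : vt x y ∈ Lam b (2 * h) M := by
      rw [mem_Lam_band N.ok hn (by rw [cy_vt]; linarith) (by rw [cy_vt]; linarith), cx_vt]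
      exact ⟨vt_odd _ _, g1, by linarith⟩
    rw [mem_stA N.hh hL hω.1 N.ok.M0]
    have e1 : vt x y ∈ WlS b (2 * h) cl y0 ↔ lcS b (2 * h) cl y0 x y = true := by
      rw [mem_WlS' N.ok N.hh hLam (by rw [cx_vt, cy_vt]; exact hI), cx_vt, cy_vt]
    have e2 : lcS b (2 * h) cl y0 x y = (if y0 < y then cl.u 0 else cl.l 0) := by
      unfold lcS
      rw [if_pos ⟨g2, by linarith, by linarith⟩]
    rw [e1, e2]
    simp only [hB, not_false_eq_true, true_and, false_and, or_false]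
    unfold cw
    rw [hcl]
    by_cases hy : y0 < y
    · rw [if_pos hy, decide_eq_true hy, decide_eq_false (by linarith : ¬ y ≤ y0)]
      cases s <;> simp
    · rw [if_neg hy, decide_eq_false hy, decide_eq_true (by linarith : y ≤ y0)]
      cases s <;> simp
  · intro x y g1 g2 g3 g4 hD
    obtain ⟨hB, hc⟩ := N.plate g1 (by linarith) g3 g4
    obtain ⟨hB0, hc0⟩ := N.plate g1 (by linarith) (y := 0) (by norm_num) (by norm_num)
    rw [mem_stA N.hh hL hω.1 N.ok.M0, cx_vt, cy_vt]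
    have hk : ¬ x < -(b.X * (2 * h : ℤ)) := by linarith
    have hs : ¬ (x1 + 3 ≤ x ∧ 7 < y) := by rintro ⟨g5, -⟩; linarith
    unfold kp
    rw [if_neg hk]
    by_cases hp : pin b (2 * h) x < b.m
    · have hP : vt x y ∈ b.Pl h := (mem_Pl' N.ok.M0 N.hh).2 ⟨vt_odd _ _, _, hp, hc⟩
      rw [if_pos hp]
      simp only [hB, hP, hs, not_true_eq_false, true_and, false_and, or_false, false_or, Xor,
        not_false_eq_true, and_true]
    · have hP : ∀ y', cpl b (2 * h) (vt x y') = some (pin b (2 * h) x) → vt x y' ∉ b.Pl h := by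
        intro y' hc' g
        obtain ⟨-, i, hi, hi2⟩ := (mem_Pl' N.ok.M0 N.hh).1 g
        rw [hc', Option.some.injEq] at hi2
        omega
      have hP1 := hP y hc
      have hP0 := hP 0 hc0
      rw [if_neg hp]
      have hex : ∃ i, cpl b (2 * h) (vt x y) = some i := ⟨_, hc⟩
      have hbc : vt x y ∈ ω ↔ lt (x, 0) ∈ ω := by
        refine hω.2 _ (mem_sdiff.2 ⟨hB, hP1⟩) _ (mem_sdiff.2 ⟨hB0, hP0⟩) ?_
        show blk (cpl b (2 * h)) (vt x y) = blk (cpl b (2 * h)) (vt x 0)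
        rw [blk_some hc, blk_some hc0]
      simp only [hB, hP1, hs, hex, hbc, not_true_eq_false, true_and, false_and, or_false, false_or, Xor,
        not_false_eq_true, and_true, decide_eq_true_eq]

omit N in
lemma fA_out {x y : ℤ} (h1 : -8 ≤ y0) (h2 : y0 ≤ 5) (h1' : -8 ≤ y0') (h2' : y0' ≤ 5) (hy : y < -9 ∨ 9 ≤ y) :
    fA s x1 y0 x y ↔ fA s x1 y0' x y := by
  unfold fA
  refine and_congr_right fun _ => ?_
  cases s
  · simp only [Bool.false_eq_true, if_false]; omega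
  · simp only [if_true]; omega

omit N in
lemma lcS_out {cl : Cl} {n x y : ℤ} (h1 : -8 ≤ y0) (h2 : y0 ≤ 5) (h1' : -8 ≤ y0') (h2' : y0' ≤ 5)
    (hy : y < -9 ∨ 9 ≤ y) : lcS b n cl y0 x y = lcS b n cl y0' x y := by
  unfold lcS
  split_ifs with g1 g2 g3 g3
  · rfl
  · omega
  · omega
  · rfl
  · rfl

/-- the tiles outside of the rectangle agree -/
lemma out_A {cl : Cl} {ω : Finset (ℤ × ℤ)} (hω : ω ⊆ b.B h \ b.Pl h) (h1 : -8 ≤ y0) (h2 : y0 ≤ 5)
    (h1' : -8 ≤ y0') (h2' : y0' ≤ 5) (x y : ℤ)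
    (ho : ¬ (-(b.X * (2 * h : ℤ)) - 3 ≤ x ∧ x < x1 + 1 ∧ -9 ≤ y ∧ y < 9)) :
    (vt x y ∈ (WA b h M (WlS b (2 * h) cl y0) o s x1 y0 v).Λ ↔
      vt x y ∈ (WA b h M (WlS b (2 * h) cl y0') o s x1 y0' v).Λ) ∧
    (vt x y ∈ (WA b h M (WlS b (2 * h) cl y0) o s x1 y0 v).Λ →
      (vt x y ∈ (WA b h M (WlS b (2 * h) cl y0) o s x1 y0 v).D ↔
        vt x y ∈ (WA b h M (WlS b (2 * h) cl y0') o s x1 y0' v).D) ∧
      (vt x y ∉ (WA b h M (WlS b (2 * h) cl y0) o s x1 y0 v).D →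
        (vt x y ∈ (WA b h M (WlS b (2 * h) cl y0) o s x1 y0 v).st ω ↔
          vt x y ∈ (WA b h M (WlS b (2 * h) cl y0') o s x1 y0' v).st ω))) := by
  have hn := N.hn
  have hX := N.Xn
  have hmX := N.mX
  have hx1l := N.x1l
  have hx1r := N.x1r
  refine ⟨Iff.rfl, fun hL => ?_⟩
  have hcol := Lam_col N.ok hn hL
  rw [cx_vt] at hcol
  have hcase : x < x1 + 1 → y < -9 ∨ 9 ≤ y := by
    intro g
    by_contra hc
    push Not at hc
    exact ho ⟨hcol.1, g, hc.1, hc.2⟩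
  refine ⟨?_, fun _ => ?_⟩
  · rw [mem_DA (vt_odd _ _), mem_DA (vt_odd _ _), cx_vt, cy_vt]
    have e1 : ¬ (y = y0 ∧ x < x1) := by
      rintro ⟨g1, g2⟩
      rcases hcase (by linarith) with g | g <;> linarith
    have e2 : ¬ (y = y0' ∧ x < x1) := by
      rintro ⟨g1, g2⟩
      rcases hcase (by linarith) with g | g <;> linarith
    simp only [e1, e2]
  · have hL1 : ∀ e ∈ WlS b (2 * h) cl y0, e ∉ b.B h := fun e he => WlS_notMem he N.hh
    have hL2 : ∀ e ∈ WlS b (2 * h) cl y0', e ∉ b.B h := fun e he => WlS_notMem he N.hh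
    rw [mem_stA N.hh hL1 hω N.ok.M0, mem_stA N.hh hL2 hω N.ok.M0, cx_vt, cy_vt]
    have e1 : fA s x1 y0 x y ↔ fA s x1 y0' x y := by
      by_cases g : x < x1
      · exact fA_out h1 h2 h1' h2' (hcase (by linarith))
      · unfold fA; simp [g]
    have e2 : (vt x y ∉ b.B h ∧ vt x y ∈ WlS b (2 * h) cl y0) ↔
        (vt x y ∉ b.B h ∧ vt x y ∈ WlS b (2 * h) cl y0') := by
      refine and_congr_right fun hB => ?_
      have hI : ¬ InQ b (2 * h) (cx (vt x y)) (cy (vt x y)) := fun g => hB ((mem_B N.hh).2 ⟨vt_odd _ _, g⟩)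
      rw [mem_WlS' N.ok N.hh hL hI, mem_WlS' N.ok N.hh hL hI, cx_vt, cy_vt]
      by_cases g : x < x1 + 1
      · rw [lcS_out h1 h2 h1' h2' (hcase g)]
      · have : ∀ y0, lcS b (2 * h) cl y0 x y = lcol b (2 * h) cl x y := by
          intro y0
          unfold lcS
          rw [if_neg (by rintro ⟨g1, -⟩; linarith)]
        rw [this, this]
    rw [e1, e2]

/-- corners of the two worlds with the rows `y0`, `y0'` which correspond -/
theorem WA_reach {cl : Cl} {ω : Finset (ℤ × ℤ)} (hcl : cl.u 0 = !cl.l 0)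
    (hω : BC (b.B h \ b.Pl h) (blk (cpl b (2 * h))) ω) (hv : 10 ≤ v.2) (h1 : -8 ≤ y0) (h2 : y0 ≤ 5)
    (h1' : -8 ≤ y0') (h2' : y0' ≤ 5) {c c' d d' : ℤ × ℤ}
    (hc : CC (-9) 9 x1 y0 y0' (x1 + 3) 7 (x1 + 1) c c') (hd : CC (-9) 9 x1 y0 y0' (x1 + 3) 7 (x1 + 1) d d') :
    ((WA b h M (WlS b (2 * h) cl y0) o s x1 y0 v).G ω).Reachable c d ↔
      ((WA b h M (WlS b (2 * h) cl y0') o s x1 y0' v).G ω).Reachable c' d' :=
  Mid.reach (N.midA hcl hω hv h1 h2) (N.midA hcl hω hv h1' h2') (N.out_A hω.1 h1 h2 h1' h2') hc hd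

/-- the passages of the two worlds -/
theorem WA_cnt {cl : Cl} {ω : Finset (ℤ × ℤ)} (hcl : cl.u 0 = !cl.l 0)
    (hω : BC (b.B h \ b.Pl h) (blk (cpl b (2 * h))) ω) (hv : 10 ≤ v.2) (h1 : -8 ≤ y0) (h2 : y0 ≤ 5)
    (h1' : -8 ≤ y0') (h2' : y0' ≤ 5) {Y Y' : ℤ} (k1 : -9 ≤ Y) (k2 : Y ≤ 9) (k1' : -9 ≤ Y') (k2' : Y' ≤ 9)
    {T : Set (ℤ × ℤ)} (hT : ∀ t ∈ T, Far (-9) 9 t)
    (hm : ∀ t ∈ T, ¬ ((WA b h M (WlS b (2 * h) cl y0) o s x1 y0 v).G ω).Reachable (vt x1 y0) t) :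
    lnn ((WA b h M (WlS b (2 * h) cl y0) o s x1 y0 v).G ω) x1 Y T =
      lnn ((WA b h M (WlS b (2 * h) cl y0') o s x1 y0' v).G ω) x1 Y' T :=
  Mid.cnt_eq (N.midA hcl hω hv h1 h2) (N.midA hcl hω hv h1' h2') (N.out_A hω.1 h1 h2 h1' h2') k1 k2 k1' k2'
    hT hm (fun hx => absurd hx (by linarith))

end MkH

end Pool.Agent.H16.W
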