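import Mathlib
import Pool.Agent.H16.W.JMid

set_option autoImplicit false
open Finset

/-! # Route W, J6, Y worlds: the value as expectation of a functional of the strand graph

`Vy b n q q0 G z m x1 Y` : `1` if the end `z` is joined to the mark `q`, `ph` / `ph⁻¹` if it is joined to the mark
`m` on `P`, according to the parity of the number of passages of the strand of the mark `q0` through the line `Y` left
of `x1`. `VG` : mean of it in 61's world `GY`. `V1_VG`, `VG_mir` (reflection), `VG_WA` (row `y0` arbitrary in the slit). -/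

namespace Pool.Agent.H16.W

open Pool.Agent.H61.W Pool.Agent.H6.W Pool.Agent.H58.W Pool.Agent.H21.W Pool.Agent.H50.W
open Pool.Agent.H82.W Pool.Agent.H13.W
open Pool.Agent.H47.W (hz vt)
open Pool.Agent.H71.W hiding InQ_col dgt_row
open Pool.Agent.H19.W (cx cy lt_cc cx_lt cy_lt)
open Pool.Agent.H33.Q1 (lt tt TL ct mem_TL lt_odd)
open Pool.Agent.H73.W (ph ph_norm ph_inv_norm ph_ne)

variable {δ σ : ℝ} {b : JBox} {h : ℕ} {M : Finset (Bool × ℕ)}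
  {L L' : Finset (ℤ × ℤ)} {o s : Bool} {x1 y0 y0' xs xe xl ρ Yd : ℤ} {v : ℤ × ℤ}

/-- the two corners at the mark `q` -/
def fq (b : JBox) (n : ℤ) (q : Bool × ℕ) : Set (ℤ × ℤ) := {f1 b n q, f2 b n q}

lemma RF_fq {n : ℤ} {G : SimpleGraph (ℤ × ℤ)} {c : ℤ × ℤ} {q : Bool × ℕ} :
    RF b n G c q ↔ ∃ t ∈ fq b n q, G.Reachable c t := by
  unfold RF fq
  simp

lemma eS_lt (x y : ℤ) : eS (lt (x, y)) = hz x y := by
  unfold eS lt hz; exact Prod.ext (by simp only; ring) (by simp only; ring)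

lemma eN_lt (x y : ℤ) : eN (lt (x, y)) = hz x (y + 1) := by
  unfold eN lt hz; exact Prod.ext (by simp only; ring) (by simp only; ring)

lemma zc_vt (v : ℤ × ℤ) : zc v = vt v.1 v.2 := rfl

lemma mc_vt (s : Bool) (x1 : ℤ) : mc s x1 = vt x1 (Yr s) := rfl

/-- passages of the strand of the mark `q` -/
noncomputable def cq (b : JBox) (n : ℤ) (q : Bool × ℕ) (G : SimpleGraph (ℤ × ℤ)) (x1 Y : ℤ) : ℕ :=
  lnn G x1 Y (fq b n q)

lemma cntq_cq (b : JBox) (h : ℕ) (s : Bool) (x1 : ℤ) (q : Bool × ℕ) (G : SimpleGraph (ℤ × ℤ)) :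
    cntq b h s x1 q G = cq b (2 * h) q G x1 (Yr s) := by
  unfold cntq cq lnn
  congr 1
  ext x
  simp only [Set.mem_ofPred_eq, RF_fq, eS_lt]

open Classical in
/-- indicator -/
noncomputable def ind (P : Prop) : ℂ := if P then 1 else 0

lemma norm_ind_le (P : Prop) : ‖ind P‖ ≤ 1 := by
  unfold ind
  split_ifs <;> simp

lemma EB_ind' {α β : Type*} [DecidableEq α] [DecidableEq β] (E : Finset α) (b : α → β)
    (A : Finset α → Prop) : EB E b (fun ω => ind (A ω)) = (PB E b A : ℂ) := EB_ind E b A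

/-- **The value of the end `z`.** -/
noncomputable def Vy (b : JBox) (n : ℤ) (q q0 : Bool × ℕ) (G : SimpleGraph (ℤ × ℤ)) (z m : ℤ × ℤ)
    (x1 Y : ℤ) : ℂ :=
  ind (RF b n G z q) + ph * ind (G.Reachable z m ∧ Even (cq b n q0 G x1 Y)) +
    ph⁻¹ * ind (G.Reachable z m ∧ ¬ Even (cq b n q0 G x1 Y))

lemma norm_Vy_le (b : JBox) (n : ℤ) (q q0 : Bool × ℕ) (G : SimpleGraph (ℤ × ℤ)) (z m : ℤ × ℤ)
    (x1 Y : ℤ) : ‖Vy b n q q0 G z m x1 Y‖ ≤ 3 := by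
  unfold Vy
  refine (norm_add₃_le).trans ?_
  rw [norm_mul, norm_mul, ph_norm, ph_inv_norm, one_mul, one_mul]
  linarith [norm_ind_le (RF b n G z q), norm_ind_le (G.Reachable z m ∧ Even (cq b n q0 G x1 Y)),
    norm_ind_le (G.Reachable z m ∧ ¬ Even (cq b n q0 G x1 Y))]

/-- equal values -/
lemma Vy_congr {n : ℤ} {q q0 : Bool × ℕ} {G G' : SimpleGraph (ℤ × ℤ)} {z z' m m' : ℤ × ℤ}
    {Y Y' : ℤ} (h1 : ∀ t ∈ fq b n q, (G.Reachable z t ↔ G'.Reachable z' t))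
    (h2 : G.Reachable z m ↔ G'.Reachable z' m')
    (h3 : G.Reachable z m → (Even (cq b n q0 G x1 Y) ↔ Even (cq b n q0 G' x1 Y'))) :
    Vy b n q q0 G z m x1 Y = Vy b n q q0 G' z' m' x1 Y' := by
  have e1 : RF b n G z q = RF b n G' z' q := by
    rw [RF_fq, RF_fq]
    exact propext (exists_congr fun t => and_congr_right fun ht => h1 t ht)
  have e2 : (G.Reachable z m ∧ Even (cq b n q0 G x1 Y)) =
      (G'.Reachable z' m' ∧ Even (cq b n q0 G' x1 Y')) := by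
    rw [← h2]
    exact propext (and_congr_right fun g => h3 g)
  have e3 : (G.Reachable z m ∧ ¬ Even (cq b n q0 G x1 Y)) =
      (G'.Reachable z' m' ∧ ¬ Even (cq b n q0 G' x1 Y')) := by
    rw [← h2]
    exact propext (and_congr_right fun g => not_congr (h3 g))
  unfold Vy
  rw [e1, e2, e3]

/-- mean of the value in the world `G` -/
noncomputable def VG (b : JBox) (h : ℕ) (s : Bool) (x1 : ℤ) (q q0 : Bool × ℕ) (z : ℤ × ℤ)
    (G : Finset (ℤ × ℤ) → SimpleGraph (ℤ × ℤ)) : ℂ :=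
  EB (b.B h) (bk (2 * h) (chn 0 b.M b.τ)) fun ω => Vy b (2 * h) q q0 (G ω) z (mc s x1) x1 (Yr s)

lemma VG_PJ (b : JBox) (h : ℕ) (s : Bool) (x1 : ℤ) (q q0 : Bool × ℕ) (z : ℤ × ℤ)
    (G : Finset (ℤ × ℤ) → SimpleGraph (ℤ × ℤ)) :
    VG b h s x1 q q0 z G = (b.PJ h (fun ω => RF b (2 * h) (G ω) z q) : ℂ) +
    ph * (b.PJ h (fun ω => (G ω).Reachable z (mc s x1) ∧ Even (cntq b h s x1 q0 (G ω))) : ℂ) +
    ph⁻¹ * (b.PJ h (fun ω => (G ω).Reachable z (mc s x1) ∧ ¬ Even (cntq b h s x1 q0 (G ω))) : ℂ) := by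
  classical
  unfold VG JBox.PJ Vy
  rw [EB_add, EB_add, EB_mul, EB_mul, EB_ind', EB_ind', EB_ind']
  simp only [cntq_cq]

theorem V1_VG (b : JBox) (h : ℕ) (s : Bool) (x1 : ℤ) (c3 c4 : Bool × ℕ)
    (G : Finset (ℤ × ℤ) → SimpleGraph (ℤ × ℤ)) (c : ℤ × ℤ) :
    V1 b h s x1 c3 c4 G c = VG b h s x1 (fst2 b c3 c4) (fst2 b c3 c4) c G := by
  rw [VG_PJ]
  rfl

/-- **Reflection.** -/
theorem VG_mir (hst : ∀ i < b.K, -(b.X : ℤ) ≤ b.st i) (hh : 0 < h) (hH : 0 < b.H) (hX : 0 < b.X)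
    (w s : Bool) (x1 : ℤ) {c3 c4 : Bool × ℕ} (h3 : c3 ≠ c4) {v : ℤ × ℤ} (hv : v.1 ≤ b.X * (2 * (h : ℤ)))
    (o : Bool) (q q0 : Bool × ℕ) :
    VG b h (!s) x1 (rm q) (rm q0) (zc (rp v)) (GY b h w (!s) x1 (rm c3) (rm c4) (rp v) o) =
      VG b h s x1 q q0 (zc v) (GY b h w s x1 c3 c4 v o) := by
  rw [VG_PJ, VG_PJ, PJ_GY hh w s x1 h3 hv o q, PJ_GY_cnt hst hh hH hX w s x1 h3 hv o q0 Even,
    PJ_GY_cnt hst hh hH hX w s x1 h3 hv o q0 (fun k => ¬ Even k)]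

/-! ### The row `y0` -/

lemma far_f1 {n : ℤ} (hn : 0 < n) (h1 : 10 ≤ b.H * n) (q : Bool × ℕ) : Far (-9) 9 (f1 b n q) := by
  have e : f1 b n q = vt ((dgt b n q).1 + 1) (dgt b n q).2 := by
    unfold f1 eE lt vt; exact Prod.ext (by simp only; ring) (by simp only; ring)
  unfold Far
  rw [e, hgt_vt]
  rcases Pool.Agent.H71.W.dgt_row (b := b) hn q with g | g
  · left; linarith
  · right; linarith

lemma far_f2 {n : ℤ} (hn : 0 < n) (h1 : 10 ≤ b.H * n) (q : Bool × ℕ) : Far (-9) 9 (f2 b n q) := by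
  have hi : (0 : ℤ) ≤ q.2 * n := by positivity
  have e1 : ((b.H : ℤ) + q.2 + 1) * n = b.H * n + q.2 * n + n := by ring
  unfold f2 Far
  have e2 : dgt b n q = ((dgt b n q).1, (dgt b n q).2) := rfl
  rw [e2, eS_lt, eN_lt]
  unfold dgt cpt
  rcases q.1 with _ | _
  · simp only [Bool.false_eq_true, if_false, hgt_hz]
    right; linarith
  · simp only [if_true, hgt_hz]
    left; linarith

lemma far_fq {n : ℤ} (hn : 0 < n) (h1 : 10 ≤ b.H * n) {q : Bool × ℕ} {t : ℤ × ℤ} (ht : t ∈ fq b n q) :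
    Far (-9) 9 t := by
  rcases ht with rfl | rfl
  · exact far_f1 hn h1 q
  · exact far_f2 hn h1 q

namespace MkH

variable (N : MkH δ σ b h x1)
include N

/-- **The value does not depend on the row `y0`.** -/
theorem Vy_row {cl : Cl} {ω : Finset (ℤ × ℤ)} (hcl : cl.u 0 = !cl.l 0)
    (hω : BC (b.B h \ b.Pl h) (blk (cpl b (2 * h))) ω) (hv : 10 ≤ v.2) (h1 : -8 ≤ y0) (h2 : y0 ≤ 5)
    (h1' : -8 ≤ y0') (h2' : y0' ≤ 5) (q q0 : Bool × ℕ)
    (hun : ∀ t ∈ fq b (2 * h) q0,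
      ¬ (((WA b h M (WlS b (2 * h) cl y0) o s x1 y0 v).G ω).Reachable (zc v) (vt x1 y0) ∧
        ((WA b h M (WlS b (2 * h) cl y0) o s x1 y0 v).G ω).Reachable (zc v) t)) :
    Vy b (2 * h) q q0 ((WA b h M (WlS b (2 * h) cl y0) o s x1 y0 v).G ω) (zc v) (vt x1 y0) x1 y0 =
      Vy b (2 * h) q q0 ((WA b h M (WlS b (2 * h) cl y0') o s x1 y0' v).G ω) (zc v) (vt x1 y0') x1 y0' := by
  have hH : 10 ≤ b.H * (2 * h : ℤ) := le_trans N.ten N.tH
  have hz' : CC (-9) 9 x1 y0 y0' (x1 + 3) 7 (x1 + 1) (zc v) (zc v) := by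
    refine Or.inl ⟨?_, rfl⟩
    unfold Far
    rw [zc_vt, hgt_vt]
    left; linarith
  have hm : CC (-9) 9 x1 y0 y0' (x1 + 3) 7 (x1 + 1) (vt x1 y0) (vt x1 y0') := Or.inr (Or.inl ⟨rfl, rfl⟩)
  have hf : ∀ {q : Bool × ℕ}, ∀ t ∈ fq b (2 * h) q, CC (-9) 9 x1 y0 y0' (x1 + 3) 7 (x1 + 1) t t :=
    fun t ht => Or.inl ⟨far_fq N.hn hH ht, rfl⟩
  refine Vy_congr (fun t ht => ?_) ?_ (fun g => ?_)
  · exact N.WA_reach hcl hω hv h1 h2 h1' h2' hz' (hf t ht)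
  · exact N.WA_reach hcl hω hv h1 h2 h1' h2' hz' hm
  · unfold cq
    rw [N.WA_cnt hcl hω hv h1 h2 h1' h2' (Y := y0) (Y' := y0') (by linarith) (by linarith) (by linarith)
      (by linarith) (fun t ht => far_fq N.hn hH ht) (fun t ht gt => hun t ht ⟨g, g.trans gt⟩)]

end MkH

end Pool.Agent.H16.W
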