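import Mathlib
import Pool.Agent.H16.W.JVy
import Pool.Agent.H45.W.Sym

set_option autoImplicit false
open Finset

/-! # Route W, J6, Y worlds: the reverse of the strip move and the visible corners

`StR` : strip of the reverse move; `UpH.rev` : 45's `DownMove` from the canonical world to the world of the moving
end. `UpH.back` : a corner, its image and the image of the image are joined. `UpH.vis` : strands of ends which are not
joined to the exit pass the same corners outside of the block (82's `Simu.vis`). -/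

namespace Pool.Agent.H71.W

open Pool.Agent.H61.W Pool.Agent.H6.W Pool.Agent.H58.W Pool.Agent.H21.W Pool.Agent.H50.W
open Pool.Agent.H82.W Pool.Agent.H13.W
open Pool.Agent.H45.W (DownMove SRd)
open Pool.Agent.H19.W (cx cy lt_cc cx_lt cy_lt mv mv_in mv_out StripOK Moved Rc stripOK_rect ea we
  cx_up cy_up cx_dn cy_dn tile_ext odd_up odd_dn dn_up up_dn cx_ea cy_ea cx_we cy_we shared odd_ea odd_we)
open Pool.Agent.H33.Q1 (lt tt TL ct mem_TL lt_odd)

variable {δ σ : ℝ} {b : JBox} {h : ℕ} {M : Finset (Bool × ℕ)}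
  {L L' : Finset (ℤ × ℤ)} {o s : Bool} {x1 y0 xs xe xl ρ Yd : ℤ} {v : ℤ × ℤ}

/-- the strip of the reverse move -/
def StR (b : JBox) (n xe Yd : ℤ) (v : ℤ × ℤ) : Set (ℤ × ℤ) := Rc xe (b.X * n + 2) (Yd + 1) (v.2 + 1)

namespace UpH

variable (U : UpH δ σ b h x1 y0 xs xe xl ρ Yd v)
include U

/-- a tile of the rows `Yd .. v.2` left of `xe` next to a tile right of it is in the block -/
lemma inBk {e : ℤ × ℤ} (h1 : cx e < xe) (h2 : xe - 1 ≤ cx e) (h3 : Yd ≤ cy e) (h4 : cy e ≤ v.2) :
    e ∈ Bk xl xe ρ := by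
  have := U.rho_lo
  have := U.y0d
  have := U.vr
  have := U.xlv
  have := U.vxe
  exact ⟨⟨by omega, h1⟩, by omega, by omega⟩

/-- the rows `Yd + 1 .. v.2`: either in the first strip or deleted -/
lemma stR_cases (M : Finset (Bool × ℕ)) (L : Finset (ℤ × ℤ)) (o s : Bool) {e : ℤ × ℤ}
    (ho : (e.1 + e.2) % 2 = 1) (hS : e ∈ StR b (2 * h) xe Yd v) :
    e ∈ St b (2 * h) xe Yd v ∨ (cy e = v.2 ∧ e ∈ (WA b h M L o s x1 y0 v).D) := by
  obtain ⟨⟨a1, a2⟩, a3, a4⟩ := hS
  have := U.vxe
  rcases lt_or_ge (cy e) v.2 with g | g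
  · exact Or.inl ⟨⟨a1, a2⟩, by omega, g⟩
  · refine Or.inr ⟨by omega, ?_⟩
    rw [mem_DA ho]
    exact Or.inl ⟨by omega, by omega⟩

/-- **The reverse move.** -/
theorem rev {ω1 ω2 : Finset (ℤ × ℤ)} (hL : Lay b h M L L' x1 y0 xe Yd v)
    (hC : Cor (WA b h M L o s x1 y0 v) (WB b h M L' o s x1 y0 xs Yd) (mv (St b (2 * h) xe Yd v))
      (St b (2 * h) xe Yd v) (O1 b h x1 y0 xe xl ρ v) (O2 b h x1 y0 xe xl ρ Yd v) ω1 ω2) :
    DownMove (WB b h M L' o s x1 y0 xs Yd).Λ (WA b h M L o s x1 y0 v).Λ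
      (WB b h M L' o s x1 y0 xs Yd).D (WA b h M L o s x1 y0 v).D
      ((WB b h M L' o s x1 y0 xs Yd).st ω2) ((WA b h M L o s x1 y0 v).st ω1) (Bk xl xe ρ)
      (StR b (2 * h) xe Yd v) := by
  have Mv := U.moved (o := o) (s := s) hL hC
  have hr := U.rho_lo
  have hy := U.y0d
  have hv := U.vH
  have hvd := U.vd
  have hxs := U.xse
  have hvx := U.vxe
  have band : ∀ e ∈ Lam b (2 * h) M, e ∈ StR b (2 * h) xe Yd v → dn e ∈ Lam b (2 * h) M := by
    intro e he hS
    obtain ⟨⟨a1, a2⟩, a3, a4⟩ := hS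
    have h5 := Lam_col U.ok U.hn he
    rw [mem_Lam_band U.ok U.hn (by rw [cy_dn]; omega) (by rw [cy_dn]; omega), odd_dn, cx_dn]
    exact ⟨Lam_odd he, h5⟩
  refine
    { odd := fun e he => Lam_odd he
      plain := ?_
      strip := ?_
      del := ?_
      sh1 := ?_
      sh2 := ?_ }
  · intro e h1 h2 h3 h4
    have ho := Lam_odd h1
    have hcol := Lam_col U.ok U.hn h1
    rw [mem_DB ho] at h4
    have hDA : e ∉ (WA b h M L o s x1 y0 v).D := by
      rw [mem_DA ho]
      rintro (⟨g1, g2⟩ | g)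
      · rcases lt_or_ge (cx e) xe with g3 | g3
        · exact h2 ⟨⟨by linarith [U.xlv], g3⟩, by linarith, by linarith [U.vr]⟩
        · exact h3 ⟨⟨g3, by omega⟩, by omega, by omega⟩
      · exact h4 (Or.inr g)
    have hSt : e ∉ St b (2 * h) xe Yd v := by
      rintro ⟨⟨a1, a2⟩, a3, a4⟩
      rcases a3.lt_or_eq with g | g
      · exact h3 ⟨⟨a1, a2⟩, by omega, by omega⟩
      · exact h4 (Or.inl ⟨g.symm, by omega⟩)
    obtain ⟨k1, k2, k3⟩ := Mv.plain e h1 h2 hSt hDA
    exact ⟨h1, hDA, k3.symm⟩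
  · intro e h1 h2 h3
    have ho := Lam_odd h1
    have hd := band e h1 h3
    obtain ⟨⟨a1, a2⟩, a3, a4⟩ := id h3
    have hS : dn e ∈ St b (2 * h) xe Yd v :=
      ⟨⟨by rw [cx_dn]; exact a1, by rw [cx_dn]; exact a2⟩, by rw [cy_dn]; omega, by rw [cy_dn]; omega⟩
    have hB : dn e ∉ Bk xl xe ρ := by
      rintro ⟨⟨-, g⟩, -⟩
      rw [cx_dn] at g
      omega
    obtain ⟨k1, k2, k3⟩ := Mv.strip (dn e) hd hB hS
    rw [up_dn] at k1 k2 k3
    have k4 := (U.sok (M := M) (L := L) (o := o) (s := s)).sD (dn e) hd hB hS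
    exact ⟨k2, hd, k4, by tauto⟩
  · intro e h1 h2 h3
    have ho := Lam_odd h1
    have hcol := Lam_col U.ok U.hn h1
    rw [mem_DB ho] at h3
    rcases h3 with ⟨g1, g2⟩ | ⟨g1, g2⟩
    · left
      have hx : xe ≤ cx e := by
        by_contra hc
        exact h2 ⟨⟨by linarith [U.xls], not_le.1 hc⟩, by omega, by linarith [U.vr]⟩
      refine ⟨⟨⟨by rw [cx_up]; exact hx, by rw [cx_up]; omega⟩, by rw [cy_up]; omega, by rw [cy_up]; omega⟩,
        ?_, ?_⟩
      · show up e ∈ Lam b (2 * h) M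
        rw [mem_Lam_band U.ok U.hn (by rw [cy_up]; omega) (by rw [cy_up]; omega), odd_up, cx_up]
        exact ⟨ho, hcol⟩
      · rintro ⟨⟨-, g⟩, -⟩
        rw [cx_up] at g
        omega
    · right
      refine ⟨?_, h1, ?_⟩
      · rintro ⟨-, g, -⟩
        rw [cy_up] at g
        omega
      · rw [mem_DA ho]
        exact Or.inr ⟨g1, g2⟩
  · intro e h1 h2 h3 e' k1 k2 k3 k4 c hc hc'
    have ho := Lam_odd h1
    have hcol' := Lam_col U.ok U.hn k1
    obtain ⟨⟨a1, a2⟩, a3, a4⟩ := id h3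
    rw [mem_DB (Lam_odd k1)] at k4
    rcases shared ho (Lam_odd k1) hc hc' with g | ⟨-, g⟩ | ⟨-, g⟩ | ⟨g0, g⟩ | ⟨g0, g⟩
    · exact absurd (g ▸ h3) k3
    · subst g
      rw [cx_ea] at hcol'
      exact absurd ⟨⟨by rw [cx_ea]; omega, by rw [cx_ea]; omega⟩, by rw [cy_ea]; omega, by rw [cy_ea]; omega⟩ k3
    · subst g
      rcases lt_or_ge (cx e - 1) xe with g5 | g5
      · exact absurd (U.inBk (e := we e) (by rw [cx_we]; exact g5) (by rw [cx_we]; omega)
          (by rw [cy_we]; omega) (by rw [cy_we]; omega)) k2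
      · exact absurd ⟨⟨by rw [cx_we]; omega, by rw [cx_we]; omega⟩, by rw [cy_we]; omega, by rw [cy_we]; omega⟩ k3
    · subst g
      refine ⟨g0, h1, ?_⟩
      rw [mem_DA ho]
      left
      refine ⟨?_, by omega⟩
      by_contra hc
      exact k3 ⟨⟨by rw [cx_up]; exact a1, by rw [cx_up]; exact a2⟩, by rw [cy_up]; omega, by rw [cy_up]; omega⟩
    · subst g
      exfalso
      rcases a3.lt_or_eq with g5 | g5
      · exact k3 ⟨⟨by rw [cx_dn]; exact a1, by rw [cx_dn]; exact a2⟩, by rw [cy_dn]; omega, by rw [cy_dn]; omega⟩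
      · exact k4 (Or.inl ⟨by rw [cy_dn]; omega, by rw [cx_dn]; omega⟩)
  · intro e h1 h2 h3 e' k1 k2 k3 c hc hc'
    have ho := Lam_odd h1
    obtain ⟨⟨a1, a2⟩, a3, a4⟩ := id h3
    rw [mem_DB (Lam_odd k1)] at k3
    rcases shared ho (Lam_odd k1) hc hc' with g | ⟨-, g⟩ | ⟨-, g⟩ | ⟨g0, g⟩ | ⟨g0, g⟩
    · subst g
      exfalso
      rcases k3 with ⟨g1, -⟩ | ⟨g1, -⟩ <;> omega
    · subst g
      exfalso
      rw [cy_ea] at k3
      rcases k3 with ⟨g1, -⟩ | ⟨g1, -⟩ <;> omega
    · subst g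
      exfalso
      rw [cy_we] at k3
      rcases k3 with ⟨g1, -⟩ | ⟨g1, -⟩ <;> omega
    · subst g
      exfalso
      rw [cy_up] at k3
      rcases k3 with ⟨g1, -⟩ | ⟨g1, -⟩ <;> omega
    · subst g
      refine ⟨?_, by rw [up_dn]; exact h3⟩
      rw [g0]
      unfold eN eS H13.W.dn
      simp

/-- tiles of the rows `Yd + 1 .. v.2` next to a tile of the reverse strip -/
lemma stR_nb {e e' : ℤ × ℤ} (he' : e' ∈ Lam b (2 * h) M) (hB : e' ∉ Bk xl xe ρ)
    (hS : e ∈ StR b (2 * h) xe Yd v) (h1 : cx e - 1 ≤ cx e') (h3 : Yd ≤ cy e')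
    (h4 : cy e' ≤ v.2) : xe ≤ cx e' ∧ cx e' ≤ b.X * (2 * h : ℤ) + 2 := by
  have hcol := Lam_col U.ok U.hn he'
  obtain ⟨⟨a1, a2⟩, a3, a4⟩ := hS
  refine ⟨?_, by omega⟩
  by_contra hc
  exact hB (U.inBk (not_le.1 hc) (by omega) h3 h4)

/-- **A corner is joined to the image of its image.** -/
theorem back {ω : Finset (ℤ × ℤ)} {c c' d : ℤ × ℤ}
    (hR : SR (WA b h M L o s x1 y0 v).Λ (WA b h M L o s x1 y0 v).D (Bk xl xe ρ) (St b (2 * h) xe Yd v) c c')
    (hR' : SRd (WB b h M L' o s x1 y0 xs Yd).Λ (WB b h M L' o s x1 y0 xs Yd).D (Bk xl xe ρ)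
      (StR b (2 * h) xe Yd v) c' d) : ((WA b h M L o s x1 y0 v).G ω).Reachable c d := by
  have hr := U.rho_lo
  have hy := U.y0d
  have hv := U.vH
  have hvd := U.vd
  have hxs := U.xse
  have hvx := U.vxe
  have hxv := U.xlv
  have hvr := U.vr
  have hdn : ∀ c : ℤ × ℤ, H13.W.dn (up c) = c := dn_up
  -- the deleted tile of the row `v.2`
  have del : ∀ e ∈ Lam b (2 * h) M, cy e = v.2 → v.1 ≤ cx e →
      ((WA b h M L o s x1 y0 v).G ω).Reachable (eS e) (eN e) := by
    intro e he g1 g2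
    have ha : ((WA b h M L o s x1 y0 v).G ω).Adj (eS e) (eN e) :=
      ⟨e, he, Or.inl ⟨(mem_DA (Lam_odd he)).2 (Or.inl ⟨g1, g2⟩), Lam_odd he, Or.inl ⟨rfl, rfl⟩⟩⟩
    exact ha.reachable
  rcases hR with ⟨rfl, hR⟩ | ⟨rfl, e, he, heB, heS, hs⟩
  · rcases hR' with ⟨rfl, -⟩ | ⟨rfl, e', he', heB', heS', hs'⟩
    · exact SimpleGraph.Reachable.refl _
    · have ho' := Lam_odd he'
      obtain ⟨⟨b1, b2⟩, b3, b4⟩ := id heS'
      rcases hR with ⟨e, he, heB, heS, heD, hs⟩ | ⟨e, he, heB, heD, hs⟩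
      · have ho := Lam_odd he
        rw [mem_DA ho] at heD
        -- `e` is not in the rows `Yd .. v.2` right of `xe`
        have key : cx e' - 1 ≤ cx e → cx e ≤ cx e' + 1 → Yd ≤ cy e → cy e ≤ v.2 → False := by
          intro g1 g2 g3 g4
          obtain ⟨k1, k2⟩ := U.stR_nb he heB heS' g1 g3 g4
          rcases g4.lt_or_eq with g5 | g5
          · exact heS ⟨⟨k1, k2⟩, g3, g5⟩
          · exact heD (Or.inl ⟨g5, by omega⟩)
        rcases shared ho' ho hs' hs with g | ⟨-, g⟩ | ⟨-, g⟩ | ⟨g0, g⟩ | ⟨g0, g⟩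
        · subst g; exact (key (by omega) (by omega) (by omega) (by omega)).elim
        · subst g; rw [cx_ea, cy_ea] at key
          exact (key (by omega) (by omega) (by omega) (by omega)).elim
        · subst g; rw [cx_we, cy_we] at key
          exact (key (by omega) (by omega) (by omega) (by omega)).elim
        · subst g
          rw [cx_up, cy_up] at key
          have hrow : cy e' = v.2 := by
            by_contra hc
            exact key (by omega) (by omega) (by omega) (by omega)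
          have e1 : H13.W.dn c' = eS e' := by
            rw [g0]; unfold H13.W.dn eN eS; simp
          rw [e1, g0]
          exact (del e' he' hrow (by omega)).symm
        · subst g; rw [cx_dn, cy_dn] at key
          exact (key (by omega) (by omega) (by omega) (by omega)).elim
      · have ho := Lam_odd he
        have heD' := heD
        rw [mem_DA ho] at heD'
        have hsd : Sd e c' := by
          rcases hs with hs | ⟨-, hs⟩
          · exact Or.inr (Or.inr (Or.inr hs))
          · exact Or.inr (Or.inr (Or.inl hs))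
        have hpar : (c'.1 + c'.2) % 2 = 0 := by
          rcases hs with hs | ⟨-, hs⟩
          · rw [hs]; unfold eN; simp only; omega
          · rw [hs]; unfold eS; simp only; omega
        have hne : c' ≠ eE e' ∧ c' ≠ eW e' := by
          constructor
          · intro g
            rw [g] at hpar
            unfold eE at hpar
            simp only at hpar
            omega
          · intro g
            rw [g] at hpar
            unfold eW at hpar
            simp only at hpar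
            omega
        rcases shared ho' ho hs' hsd with g | ⟨g0, g⟩ | ⟨g0, g⟩ | ⟨g0, g⟩ | ⟨g0, g⟩
        · subst g
          have hrow : cy e = v.2 ∧ v.1 ≤ cx e := by
            rcases heD' with g1 | ⟨g1, -⟩
            · exact g1
            · omega
          rcases hs with hs | ⟨hs, -⟩
          · have e1 : H13.W.dn c' = eS e := by
              rw [hs]; unfold H13.W.dn eN eS; simp
            rw [e1, hs]
            exact (del e he hrow.1 hrow.2).symm
          · exfalso
            exact hs ⟨⟨by rw [cx_dn]; omega, by rw [cx_dn]; omega⟩, by rw [cy_dn]; omega, by rw [cy_dn]; omega⟩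
        · exact absurd g0 hne.1
        · exact absurd g0 hne.2
        · exfalso
          subst g
          rw [cx_up, cy_up] at heD'
          have hrow : cy e' + 1 = v.2 := by
            rcases heD' with g1 | ⟨g1, -⟩
            · exact g1.1
            · omega
          rcases hs with hs | ⟨hs, -⟩
          · rw [g0] at hs
            unfold eN H13.W.up at hs
            simp only [Prod.mk.injEq] at hs
            omega
          · rw [dn_up] at hs
            exact hs ⟨⟨b1, b2⟩, by omega, by omega⟩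
        · exfalso
          subst g
          rw [cx_dn, cy_dn] at heD'
          rcases heD' with ⟨g1, -⟩ | ⟨g1, -⟩ <;> omega
  · have ho := Lam_odd he
    obtain ⟨⟨a1, a2⟩, a3, a4⟩ := id heS
    rcases hR' with ⟨rfl, hR'⟩ | ⟨rfl, e', he', heB', heS', hs'⟩
    · have hsu : Sd (up e) (up c) := by
        obtain ⟨p, p'⟩ := e
        obtain ⟨q, q'⟩ := c
        unfold Sd eE eW eN eS at hs ⊢
        unfold H13.W.up
        simp only [Prod.mk.injEq] at hs ⊢
        omega
      have hou : ((up e).1 + (up e).2) % 2 = 1 := odd_up.2 ho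
      have hSu : up e ∈ StR b (2 * h) xe Yd v :=
        ⟨⟨by rw [cx_up]; exact a1, by rw [cx_up]; exact a2⟩, by rw [cy_up]; omega, by rw [cy_up]; omega⟩
      rcases hR' with ⟨e', he', heB', heS', heD', hs'⟩ | ⟨e', he', heB', heD', hs'⟩
      · have ho' := Lam_odd he'
        rw [mem_DB ho'] at heD'
        have key : cx e - 1 ≤ cx e' → cx e' ≤ cx e + 1 → Yd ≤ cy e' → cy e' ≤ v.2 → False := by
          intro g1 g2 g3 g4
          obtain ⟨k1, k2⟩ := U.stR_nb he' heB' hSu (by rw [cx_up]; exact g1) g3 g4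
          rcases g3.lt_or_eq with g5 | g5
          · exact heS' ⟨⟨k1, k2⟩, by omega, by omega⟩
          · exact heD' (Or.inl ⟨g5.symm, by omega⟩)
        rcases shared hou ho' hsu hs' with g | ⟨-, g⟩ | ⟨-, g⟩ | ⟨g0, g⟩ | ⟨g0, g⟩
        · subst g; rw [cx_up, cy_up] at key
          exact (key (by omega) (by omega) (by omega) (by omega)).elim
        · subst g; rw [cx_ea, cy_ea, cx_up, cy_up] at key
          exact (key (by omega) (by omega) (by omega) (by omega)).elim
        · subst g; rw [cx_we, cy_we, cx_up, cy_up] at key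
          exact (key (by omega) (by omega) (by omega) (by omega)).elim
        · subst g
          rw [cx_up, cy_up, cx_up, cy_up] at key
          have hrow : cy e + 1 = v.2 := by
            by_contra hc
            exact key (by omega) (by omega) (by omega) (by omega)
          have hΛ : up e ∈ Lam b (2 * h) M := by
            have h5 := Lam_col U.ok U.hn he
            rw [mem_Lam_band U.ok U.hn (by rw [cy_up]; omega) (by rw [cy_up]; omega), odd_up, cx_up]
            exact ⟨ho, h5⟩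
          have e1 : c = eS (up e) := by
            have := congrArg H13.W.dn g0
            rw [hdn] at this
            rw [this]; unfold H13.W.dn eN eS; simp
          rw [g0, e1]
          exact del (up e) hΛ (by rw [cy_up]; exact hrow) (by rw [cx_up]; omega)
        · subst g
          rw [dn_up] at key
          exact (key (by omega) (by omega) (by omega) (by omega)).elim
      · exfalso
        have ho' := Lam_odd he'
        rw [mem_DB ho'] at heD'
        have hsd : Sd e' (up c) := by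
          rcases hs' with hs' | ⟨-, hs'⟩
          · exact Or.inr (Or.inr (Or.inl hs'))
          · exact Or.inr (Or.inr (Or.inr hs'))
        rcases shared hou ho' hsu hsd with g | ⟨-, g⟩ | ⟨-, g⟩ | ⟨g0, g⟩ | ⟨g0, g⟩
        · subst g; rw [cx_up, cy_up] at heD'
          rcases heD' with ⟨g1, -⟩ | ⟨g1, -⟩ <;> omega
        · subst g; rw [cx_ea, cy_ea, cx_up, cy_up] at heD'
          rcases heD' with ⟨g1, -⟩ | ⟨g1, -⟩ <;> omega
        · subst g; rw [cx_we, cy_we, cx_up, cy_up] at heD'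
          rcases heD' with ⟨g1, -⟩ | ⟨g1, -⟩ <;> omega
        · subst g; rw [cx_up, cy_up, cx_up, cy_up] at heD'
          rcases heD' with ⟨g1, -⟩ | ⟨g1, -⟩ <;> omega
        · subst g
          rw [dn_up] at hs' heD'
          rcases hs' with hs' | ⟨hs', -⟩
          · rw [g0] at hs'
            unfold eS H13.W.up at hs'
            simp only [Prod.mk.injEq] at hs'
            omega
          · exact hs' hSu
    · rw [hdn]

/-- **Visible corners**, one end `x` of the world of the moving end with the image `y`. -/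
theorem vis {ω1 ω2 : Finset (ℤ × ℤ)} (hL : Lay b h M L L' x1 y0 xe Yd v)
    (hC : Cor (WA b h M L o s x1 y0 v) (WB b h M L' o s x1 y0 xs Yd) (mv (St b (2 * h) xe Yd v))
      (St b (2 * h) xe Yd v) (O1 b h x1 y0 xe xl ρ v) (O2 b h x1 y0 xe xl ρ Yd v) ω1 ω2)
    {I : Set (ℤ × ℤ)} {ex : ℤ × ℤ}
    (hI : ∀ u v', u ∈ I → v' ∉ I → ((WB b h M L' o s x1 y0 xs Yd).G ω2).Adj u v' → v' = ex)
    (hK : ∀ c ∈ KB (Bk xl xe ρ), ∀ c', SR (WA b h M L o s x1 y0 v).Λ (WA b h M L o s x1 y0 v).D
      (Bk xl xe ρ) (St b (2 * h) xe Yd v) c c' → c' ∈ I)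
    (hBI : ∀ e ∈ Lam b (2 * h) M, e ∈ Bk xl xe ρ → ∀ c, Sd e c → c ∈ I) {x y : ℤ × ℤ}
    (hx : SR (WA b h M L o s x1 y0 v).Λ (WA b h M L o s x1 y0 v).D (Bk xl xe ρ)
      (St b (2 * h) xe Yd v) x y)
    (hx' : SRd (WB b h M L' o s x1 y0 xs Yd).Λ (WB b h M L' o s x1 y0 xs Yd).D (Bk xl xe ρ)
      (StR b (2 * h) xe Yd v) y x)
    (hyI : y ∉ I) (hyb : ¬ ((WB b h M L' o s x1 y0 xs Yd).G ω2).Reachable y ex) {c c' : ℤ × ℤ}
    (hc : SR (WA b h M L o s x1 y0 v).Λ (WA b h M L o s x1 y0 v).D (Bk xl xe ρ)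
      (St b (2 * h) xe Yd v) c c' ∨ (c ∈ KB (Bk xl xe ρ) ∧ c' ∈ I)) :
    ((WA b h M L o s x1 y0 v).G ω1).Reachable x c ↔
      ((WB b h M L' o s x1 y0 xs Yd).G ω2).Reachable y c' := by
  refine (U.move hL hC).simu.vis hI hK (R' := SRd (WB b h M L' o s x1 y0 xs Yd).Λ
    (WB b h M L' o s x1 y0 xs Yd).D (Bk xl xe ρ) (StR b (2 * h) xe Yd v)) ?_ ?_ hx hx' hyI hyb hc
  · intro u u' a hadj hR
    obtain ⟨hg, hu, hu'⟩ := hadj
    obtain ⟨e, he, hT⟩ := hg
    have heB : e ∉ Bk xl xe ρ := fun g => hu (hBI e he g u hT.sd)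
    exact (U.rev hL hC).sim_step (⟨e, ⟨he, heB⟩, hT⟩ : (SG ((WB b h M L' o s x1 y0 xs Yd).Λ \ Bk xl xe ρ)
      (WB b h M L' o s x1 y0 xs Yd).D ((WB b h M L' o s x1 y0 xs Yd).st ω2)).Adj u u') hR
  · intro c' c d h1 h2
    exact U.back h1 h2

end UpH

end Pool.Agent.H71.W
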