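import Mathlib
import Pool.Agent.H16.W.JRev
import Pool.Agent.H71.W.J6K
import Pool.Agent.H45.W.EndsJ9

set_option autoImplicit false
open Finset hiding val

/-! # Route W, J6, Y worlds: far ends of the worlds `WA`, `WB`

`JW_S` : 45's structure for the layer `WlS`; `UpH.jwA`, `UpH.jwB`; `yY` : far ends (the mark of `P` and the corners of
the marks); `exYA`, `exYB`, `unYA`, `unYB` : exactly one of them is joined to the moving end. -/

namespace Pool.Agent.H16.W

open Pool.Agent.H61.W Pool.Agent.H6.W Pool.Agent.H58.W Pool.Agent.H21.W Pool.Agent.H50.W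
open Pool.Agent.H82.W Pool.Agent.H13.W
open Pool.Agent.H47.W (hz vt)
open Pool.Agent.H45.W (JW JOk DD lfD lamG_Lam BG Tq Tq_bd Tq_iff lcolG foot InQ_iff LL_le_low ds)
open Pool.Agent.H71.W hiding InQ_col dgt_row
open Pool.Agent.H19.W (cx cy lt_cc cx_lt cy_lt)
open Pool.Agent.H33.Q1 (lt tt TL ct mem_TL lt_odd)

variable {δ σ : ℝ} {b : JBox} {h : ℕ} {M : Finset (Bool × ℕ)}
  {L L' : Finset (ℤ × ℤ)} {o s bse : Bool} {x1 y0 xs xe xl ρ Yd : ℤ} {v : ℤ × ℤ}

lemma DD_S (v : ℤ × ℤ) (x1 y0 : ℤ) : DD (some v) (some (x1, y0)) = strD v ∪ slR y0 x1 := by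
  ext p
  constructor
  · rintro (⟨v', hv, h⟩ | ⟨s', hs, h⟩)
    · rw [Option.mem_def, Option.some.injEq] at hv
      exact Or.inl (by rwa [hv])
    · rw [Option.mem_def, Option.some.injEq] at hs
      rw [← hs] at h
      exact Or.inr h
  · rintro (h | h)
    · exact Or.inl ⟨v, rfl, h⟩
    · exact Or.inr ⟨_, rfl, h⟩

/-- the colours `lcS` are 45's `lcolG` next to the box -/
lemma lcS_lcolG {n : ℤ} (J : JOk b n M (some v) (some (x1, y0))) {cl : Cl} {x y : ℤ} (hT : Tq b n x y) :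
    lcS b n cl y0 x y = lcolG b n cl (some (x1, y0)) x y := by
  have hn0 := J.n0
  have hb := J.bg
  have hXn : 0 < b.X * n := by have := hb.X0; positivity
  have hHn : 0 < b.H * n := by have := hb.H0; positivity
  unfold lcolG
  by_cases hx : x < -(b.X * n)
  · rw [if_pos hx]
    have hf : foot (some (x1, y0)) = y0 := rfl
    rw [hf]
    have hy : -(b.H * n) - 1 ≤ y ∧ y ≤ b.H * n := by
      obtain ⟨i, j, h1, h2, h3⟩ := Tq_iff.1 hT
      rw [InQ_iff hn0] at h3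
      rw [abs_le] at h1 h2
      have h4 := LL_le_low hb hn0 (y := y + j) (by omega)
      unfold ds at h4
      split_ifs at h4 <;> constructor <;> omega
    have hs := (J.hs _ rfl).2
    simp only at hs
    unfold lcS
    by_cases hband : -(b.H * n) ≤ y ∧ y < b.H * n
    · rw [if_pos ⟨hx, hband⟩]
    · rw [if_neg fun g => hband g.2]
      have hle : ∀ z : ℤ, z ≤ b.H * n → (z / n - (b.H : ℤ)).toNat = 0 := by
        intro z hz
        have : z / n ≤ b.H := by
          rw [Int.ediv_le_iff_le_mul hn0]; linarith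
        omega
      unfold lcol
      rw [if_neg (show ¬ b.X * n ≤ x by omega), hle y hy.2, hle (-y - 1) (by omega), Nat.min_zero]
      have h3 : (0 ≤ y) ↔ (y0 < y) := by
        rw [not_and_or, not_le, not_lt] at hband
        rcases hband with g | g
        · constructor <;> intro g2 <;> omega
        · constructor <;> intro g2 <;> omega
      simp only [h3]
  · rw [if_neg hx]
    unfold lcS
    rw [if_neg fun g => hx g.1]

/-- **45's structure for the layer `WlS`.** -/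
theorem JW_S (hh : 0 < h) (J : JOk b (2 * h) M (some v) (some (x1, y0))) {w : Finset (ℤ × ℤ)}
    (hw : ∀ e, e ∉ b.B h → (e ∈ w ↔ e ∈ WlS b (2 * h) (colM bse M (some v.2)) y0)) :
    JW b (2 * h) M (some v) (some (x1, y0)) bse (Lam b (2 * h) M) w := by
  refine ⟨J, lamG_Lam J.bg J.n0 J.idx, ?_⟩
  intro x y hq hT _
  have hB : lt (x, y) ∉ b.B h := by
    rw [mem_B hh, cx_lt, cy_lt]
    exact fun g => hq g.2
  have h1 := Tq_bd J.bg J.n0 hT
  rw [hw _ hB, ← lcS_lcolG J hT]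
  have h2 := mem_WlS (b := b) (y0 := y0) (cl := colM bse M (some v.2)) hh (lt_odd (x, y))
    (by rw [cx_lt, cy_lt]; exact hq) (by rw [cx_lt]; linarith [h1.1.1]) (by rw [cx_lt]; linarith [h1.1.2])
    (by rw [cy_lt]; linarith [h1.2.1]) (by rw [cy_lt]; linarith [h1.2.2])
  rw [cx_lt, cy_lt] at h2
  exact h2

/-- far ends: the mark of `P` or a corner of a mark -/
def yY (b : JBox) (n : ℤ) (M : Finset (Bool × ℕ)) (m : ℤ × ℤ) : Option (Ix M) → ℤ × ℤ
  | none => m
  | some i => yM b n M i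

end Pool.Agent.H16.W

namespace Pool.Agent.H71.W.UpH

open Pool.Agent.H61.W Pool.Agent.H6.W Pool.Agent.H58.W Pool.Agent.H21.W Pool.Agent.H50.W
open Pool.Agent.H82.W Pool.Agent.H13.W Pool.Agent.H16.W
open Pool.Agent.H47.W (hz vt)
open Pool.Agent.H45.W (JW JOk DD BG)
open Pool.Agent.H19.W (cx cy lt_cc cx_lt cy_lt)
open Pool.Agent.H33.Q1 (lt tt TL ct mem_TL lt_odd)

variable {δ σ : ℝ} {b : JBox} {h : ℕ} {M : Finset (Bool × ℕ)}
  {x1 y0 xs xe xl ρ Yd : ℤ} {v : ℤ × ℤ} {o s bse : Bool}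

variable (U : UpH δ σ b h x1 y0 xs xe xl ρ Yd v)
include U

lemma jokA (hM : ∀ q ∈ M, q.2 < b.K) (hc : par M.card = false) (h1 : -(b.X * (2 * h : ℤ)) < x1)
    (h2 : x1 < b.X * (2 * h : ℤ)) : JOk b (2 * h) M (some v) (some (x1, y0)) := by
  have hr := U.rho_lo
  have hy := U.y0d
  have hY := U.Ydt
  have hH := U.tH
  refine ⟨BG.of_ok U.ok, U.hn, hM, ?_, ?_, ?_, by rw [hc]; rfl⟩
  · intro v' hv
    rw [Option.mem_def, Option.some.injEq] at hv
    rw [← hv]; exact U.inQv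
  · intro s' hs
    rw [Option.mem_def, Option.some.injEq] at hs
    rw [← hs]
    exact ⟨⟨h1, h2⟩, by show -(b.H * (2 * h : ℤ)) ≤ y0; linarith, by show y0 < b.H * (2 * h : ℤ); linarith⟩
  · intro v' hv s' hs h3
    rw [Option.mem_def, Option.some.injEq] at hs hv
    rw [← hs, ← hv] at h3
    have h3' : v.2 = y0 := h3
    linarith [U.vd]

lemma jokB (hM : ∀ q ∈ M, q.2 < b.K) (hc : par M.card = false) (h1 : -(b.X * (2 * h : ℤ)) < x1)
    (h2 : x1 < b.X * (2 * h : ℤ)) : JOk b (2 * h) M (some (xs, Yd)) (some (x1, y0)) := by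
  have hr := U.rho_lo
  have hy := U.y0d
  have hY := U.Ydt
  have hH := U.tH
  refine ⟨BG.of_ok U.ok, U.hn, hM, ?_, ?_, ?_, by rw [hc]; rfl⟩
  · intro v' hv
    rw [Option.mem_def, Option.some.injEq] at hv
    rw [← hv]; exact U.inQs
  · intro s' hs
    rw [Option.mem_def, Option.some.injEq] at hs
    rw [← hs]
    exact ⟨⟨h1, h2⟩, by show -(b.H * (2 * h : ℤ)) ≤ y0; linarith, by show y0 < b.H * (2 * h : ℤ); linarith⟩
  · intro v' hv s' hs h3
    rw [Option.mem_def, Option.some.injEq] at hs hv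
    rw [← hs, ← hv] at h3
    have h3' : Yd = y0 := h3
    linarith

variable (hM : ∀ q ∈ M, q.2 < b.K) (hc : par M.card = false) (h1 : -(b.X * (2 * h : ℤ)) < x1)
  (h2 : x1 < b.X * (2 * h : ℤ))
include hM hc h1 h2

/-- **45's structure for the world of the moving end.** -/
theorem jwA {ω : Finset (ℤ × ℤ)} (hω : ω ⊆ b.B h \ b.Pl h) :
    JW b (2 * h) M (some v) (some (x1, y0)) bse (Lam b (2 * h) M)
      ((WA b h M (WlS b (2 * h) (colM bse M (some v.2)) y0) o s x1 y0 v).st ω) := by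
  refine JW_S U.hh (U.jokA hM hc h1 h2) fun e he => ?_
  rw [mem_stA U.hh (fun e he => WlS_notMem he U.hh) hω U.ok.M0]
  simp only [he, not_false_eq_true, true_and, false_and, or_false]

/-- **45's structure for the canonical world.** -/
theorem jwB {ω : Finset (ℤ × ℤ)}
    (hω : ω ⊆ (WB b h M (WlS b (2 * h) (colM bse M (some Yd)) y0) o s x1 y0 xs Yd).E) :
    JW b (2 * h) M (some (xs, Yd)) (some (x1, y0)) bse (Lam b (2 * h) M)
      ((WB b h M (WlS b (2 * h) (colM bse M (some Yd)) y0) o s x1 y0 xs Yd).st ω) := by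
  refine JW_S (v := (xs, Yd)) U.hh (U.jokB hM hc h1 h2) fun e he => ?_
  rw [mem_stB (fun e he => WlS_notMem he U.hh) hω]
  simp only [he, not_false_eq_true, true_and, false_and, or_false]

/-- a far end exists, world of the moving end -/
theorem exYA {ω : Finset (ℤ × ℤ)} (hω : ω ⊆ b.B h \ b.Pl h) : ∃ i : Option (Ix M),
    ((WA b h M (WlS b (2 * h) (colM bse M (some v.2)) y0) o s x1 y0 v).G ω).Reachable (zc v)
      (yY b (2 * h) M (Pool.Agent.H47.W.vt x1 y0) i) := by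
  have W := U.jwA (bse := bse) (o := o) (s := s) hM hc h1 h2 hω
  have hG : (WA b h M (WlS b (2 * h) (colM bse M (some v.2)) y0) o s x1 y0 v).G ω =
      SG (Lam b (2 * h) M) (lt '' DD (some v) (some (x1, y0)))
        ((WA b h M (WlS b (2 * h) (colM bse M (some v.2)) y0) o s x1 y0 v).st ω) := by
    rw [DD_S]; rfl
  rw [hG]
  rcases Pool.Agent.H45.W.exY W with ⟨q, hq, g | g⟩ | g
  · exact ⟨some (⟨q, hq⟩, true), g⟩
  · exact ⟨some (⟨q, hq⟩, false), g⟩
  · exact ⟨none, g⟩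

/-- a far end exists, canonical world -/
theorem exYB {ω : Finset (ℤ × ℤ)}
    (hω : ω ⊆ (WB b h M (WlS b (2 * h) (colM bse M (some Yd)) y0) o s x1 y0 xs Yd).E) :
    ∃ i : Option (Ix M),
    ((WB b h M (WlS b (2 * h) (colM bse M (some Yd)) y0) o s x1 y0 xs Yd).G ω).Reachable (zc (xs, Yd))
      (yY b (2 * h) M (Pool.Agent.H47.W.vt x1 y0) i) := by
  have W := U.jwB (bse := bse) (o := o) (s := s) hM hc h1 h2 hω
  have hG : (WB b h M (WlS b (2 * h) (colM bse M (some Yd)) y0) o s x1 y0 xs Yd).G ω =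
      SG (Lam b (2 * h) M) (lt '' DD (some (xs, Yd)) (some (x1, y0)))
        ((WB b h M (WlS b (2 * h) (colM bse M (some Yd)) y0) o s x1 y0 xs Yd).st ω) := by
    rw [DD_S]; rfl
  rw [hG]
  rcases Pool.Agent.H45.W.exY W with ⟨q, hq, g | g⟩ | g
  · exact ⟨some (⟨q, hq⟩, true), g⟩
  · exact ⟨some (⟨q, hq⟩, false), g⟩
  · exact ⟨none, g⟩

/-- not both the mark of `P` and a mark, world of the moving end -/
theorem nbYA {ω : Finset (ℤ × ℤ)} (hω : ω ⊆ b.B h \ b.Pl h) {q : Bool × ℕ} (hq : q ∈ M) {t : ℤ × ℤ}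
    (ht : t ∈ fq b (2 * h) q) :
    ¬ (((WA b h M (WlS b (2 * h) (colM bse M (some v.2)) y0) o s x1 y0 v).G ω).Reachable (zc v) (Pool.Agent.H47.W.vt x1 y0) ∧
      ((WA b h M (WlS b (2 * h) (colM bse M (some v.2)) y0) o s x1 y0 v).G ω).Reachable (zc v) t) := by
  have W := U.jwA (bse := bse) (o := o) (s := s) hM hc h1 h2 hω
  have hG : (WA b h M (WlS b (2 * h) (colM bse M (some v.2)) y0) o s x1 y0 v).G ω =
      SG (Lam b (2 * h) M) (lt '' DD (some v) (some (x1, y0)))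
        ((WA b h M (WlS b (2 * h) (colM bse M (some v.2)) y0) o s x1 y0 v).st ω) := by
    rw [DD_S]; rfl
  rw [hG]
  rintro ⟨g1, g2⟩
  exact W.zc_not_both rfl rfl hq (RF_fq.2 ⟨t, ht, g2⟩) g1

/-- not both the mark of `P` and a mark, canonical world -/
theorem nbYB {ω : Finset (ℤ × ℤ)}
    (hω : ω ⊆ (WB b h M (WlS b (2 * h) (colM bse M (some Yd)) y0) o s x1 y0 xs Yd).E) {q : Bool × ℕ}
    (hq : q ∈ M) {t : ℤ × ℤ} (ht : t ∈ fq b (2 * h) q) :
    ¬ (((WB b h M (WlS b (2 * h) (colM bse M (some Yd)) y0) o s x1 y0 xs Yd).G ω).Reachable (zc (xs, Yd))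
        (Pool.Agent.H47.W.vt x1 y0) ∧
      ((WB b h M (WlS b (2 * h) (colM bse M (some Yd)) y0) o s x1 y0 xs Yd).G ω).Reachable (zc (xs, Yd)) t) := by
  have W := U.jwB (bse := bse) (o := o) (s := s) hM hc h1 h2 hω
  have hG : (WB b h M (WlS b (2 * h) (colM bse M (some Yd)) y0) o s x1 y0 xs Yd).G ω =
      SG (Lam b (2 * h) M) (lt '' DD (some (xs, Yd)) (some (x1, y0)))
        ((WB b h M (WlS b (2 * h) (colM bse M (some Yd)) y0) o s x1 y0 xs Yd).st ω) := by
    rw [DD_S]; rfl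
  rw [hG]
  rintro ⟨g1, g2⟩
  exact W.zc_not_both rfl rfl hq (RF_fq.2 ⟨t, ht, g2⟩) g1

omit U hM hc h1 h2 in
lemma yM_fq (i : Ix M) : yM b (2 * h) M i ∈ fq b (2 * h) i.1.1 := by
  unfold yM fM fq
  rcases i.2 with _ | _
  · exact Or.inr rfl
  · exact Or.inl rfl

/-- uniqueness, canonical world -/
theorem unYB {ω : Finset (ℤ × ℤ)}
    (hω : ω ⊆ (WB b h M (WlS b (2 * h) (colM bse M (some Yd)) y0) o s x1 y0 xs Yd).E)
    (i j : Option (Ix M))
    (hi : ((WB b h M (WlS b (2 * h) (colM bse M (some Yd)) y0) o s x1 y0 xs Yd).G ω).Reachable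
      (zc (xs, Yd)) (yY b (2 * h) M (Pool.Agent.H47.W.vt x1 y0) i))
    (hj : ((WB b h M (WlS b (2 * h) (colM bse M (some Yd)) y0) o s x1 y0 xs Yd).G ω).Reachable
      (zc (xs, Yd)) (yY b (2 * h) M (Pool.Agent.H47.W.vt x1 y0) j)) : i = j := by
  rcases i with _ | i <;> rcases j with _ | j
  · rfl
  · exact absurd ⟨hi, hj⟩ (U.nbYB hM hc h1 h2 hω j.1.2 (yM_fq j))
  · exact absurd ⟨hj, hi⟩ (U.nbYB hM hc h1 h2 hω i.1.2 (yM_fq i))
  · rw [U.un_B hM ω i j hi hj]

end Pool.Agent.H71.W.UpH
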