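import Mathlib
import Pool.Agent.H16.W.JVy
import Pool.Agent.H71.W.JY2

set_option autoImplicit false
open Finset

/-! # Route W, J6, Y worlds: value of the base world

`gY` : mean value in 71's base world `G0Y`, `gY1` : with the forced bank. `RowY` : the one row terms. -/

namespace Pool.Agent.H16.W

open Pool.Agent.H61.W Pool.Agent.H6.W Pool.Agent.H58.W Pool.Agent.H21.W Pool.Agent.H50.W
open Pool.Agent.H82.W Pool.Agent.H13.W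
open Pool.Agent.H47.W (hz vt)
open Pool.Agent.H71.W hiding InQ_col dgt_row

/-- **value of the base world** -/
noncomputable def gY (b : JBox) (h : ℕ) (M : Finset (Bool × ℕ)) (bse o s : Bool) (x1 y0 xs Yd : ℤ)
    (q q0 : Bool × ℕ) : ℂ :=
  EB (b.B h) (bk (2 * h) (chn 0 b.M b.τ)) fun ω =>
    Vy b (2 * h) q q0 (G0Y b h M (LY b h M bse y0 Yd) o s x1 y0 xs Yd ω) (zc (xs, Yd)) (vt x1 y0) x1 y0

/-- the same with the forced bank -/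
noncomputable def gY1 (b : JBox) (h : ℕ) (M : Finset (Bool × ℕ)) (bse o s : Bool) (x1 y0 xs Yd : ℤ)
    (q q0 : Bool × ℕ) : ℂ :=
  EB (b.B h) (bk (2 * h) (chn 0 b.M b.τ)) fun ω =>
    Vy b (2 * h) q q0 (G1Y b h M (LY b h M bse y0 Yd) o s x1 y0 xs Yd ω) (zc (xs, Yd)) (vt x1 y0) x1 y0

/-- **one row terms, Y worlds** -/
def RowY : Prop := ∀ (b : JBox) (δ σ : ℝ), b.Ok δ σ → δ ≤ 1 → σ ≤ 1 → ∀ k j : ℕ, 0 < j → j < b.m → b.m ≤ k →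
  k * b.M + 2 ≤ b.X → ∀ η > 0, ∃ h0 : ℕ, ∀ h : ℕ, h0 ≤ h → ∀ (M : Finset (Bool × ℕ)),
  (∀ c ∈ M, c.2 < b.K) → ∀ (bse o s : Bool) (Yd : ℤ), (Yd = 0 ∨ Yd = -1) → ∀ q ∈ M, ∀ q0 ∈ M,
    ‖gY1 b h M bse o s (-(j * b.M * (2 * h) : ℤ)) (-5) (-(k * b.M * (2 * h) : ℤ)) Yd q q0 -
      gY b h M bse o s (-(j * b.M * (2 * h) : ℤ)) (-5) (-(k * b.M * (2 * h) : ℤ)) Yd q q0‖ ≤ η

end Pool.Agent.H16.W
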