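import Mathlib
import Pool.Agent.H16.W.JEnd
import Pool.Agent.H16.W.JYDef
import Pool.Agent.H55.W.JBlkF

set_option autoImplicit false
open Finset hiding val

/-! # Route W, J6, Y worlds: from the moving end to the canonical world

`VG_WA`, `VG_row` : 61's `Y` world as the world `WA` with the row `-5`. `half_vy` : equal values of the world of the
moving end and the canonical world with the block. `VY_up` : the value of a moving end above the slit is `gY`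
up to the block term and the one row terms. -/

namespace Pool.Agent.H16.W

open Pool.Agent.H61.W Pool.Agent.H6.W Pool.Agent.H58.W Pool.Agent.H21.W Pool.Agent.H50.W
open Pool.Agent.H82.W Pool.Agent.H13.W
open Pool.Agent.H47.W (hz vt)
open Pool.Agent.H45.W (JW JOk DD BG SRd)
open Pool.Agent.H55.W (JB FieldB BY)
open Pool.Agent.H71.W hiding InQ_col dgt_row
open Pool.Agent.H75.Perc (lab)
open Pool.Agent.H75.TwoArm (plab)
open Pool.Agent.H19.W (cx cy lt_cc cx_lt cy_lt mv)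
open Pool.Agent.H33.Q1 (lt tt TL ct mem_TL lt_odd)

variable {δ σ : ℝ} {b : JBox} {h : ℕ} {M : Finset (Bool × ℕ)}
  {L L' : Finset (ℤ × ℤ)} {o s bse : Bool} {x1 y0 xs xe xl ρ Yd : ℤ} {v : ℤ × ℤ}

/-- other rows and marks -/
lemma upH_chg (U : UpH δ σ b h x1 y0 xs xe xl ρ Yd v) {x1' y0' Yd' : ℤ} (h1 : y0' + 2 ≤ Yd')
    (h2 : -(b.τ * (2 * h) : ℤ) ≤ y0') (h3 : Yd' < b.τ * (2 * h)) (h4 : Yd' < v.2) :
    UpH δ σ b h x1' y0' xs xe xl ρ Yd' v :=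
  ⟨U.ok, U.hh, U.thk, U.mn, U.xl0, U.xls, U.xse, U.xlv, U.vxe, U.xem, U.rho, U.vr, h1, h2, h3, U.vt, U.vH, h4⟩

lemma colM_ul (hc : par M.card = false) (r : ℤ) :
    (colM bse M (some r)).u 0 = !(colM bse M (some r)).l 0 := by
  have h1 : (M.filter fun c => c.1 = true ∧ c.2 < 0) = ∅ := by
    ext c; simp
  have h2 : (M.filter fun c => c.1 = false ∧ 0 ≤ c.2) = M.filter fun c => c.1 = false := by
    ext c; simp
  have h3 : (par (M.filter fun c => c.1 = true).card ^^ par (M.filter fun c => c.1 = false).card) = false := by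
    rw [← par_add, ← card_split, hc]
  have h4 : par 0 = false := rfl
  unfold colM
  simp only [h1, h2, card_empty, h4, Option.isSome_some]
  revert h3
  generalize par (M.filter fun c => c.1 = true).card = p
  generalize par (M.filter fun c => c.1 = false).card = q
  intro h3
  rcases p <;> rcases q <;> rcases bse <;> simp at h3 ⊢

lemma ten_v (N : MkH δ σ b h x1) (U : UpH δ σ b h x1 y0 xs xe xl ρ Yd v) : 10 ≤ v.2 := by
  have h1 := N.x1l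
  have h2 := N.x1r
  have hm : (0 : ℤ) < b.m * b.M * (2 * h) := by linarith
  have hm0 : 0 < b.m := by
    rcases Nat.eq_zero_or_pos b.m with g | g
    · rw [g] at hm; simp at hm
    · exact g
  have h3 := U.vt 0 (by push_cast; linarith [U.xem]) (by have := U.mn; omega)
  push_cast at h3
  linarith [N.ten]

/-- **61's `Y` world as a world `WA`.** -/
theorem VG_WA (N : MkH δ σ b h x1) (w s o : Bool) (c3 c4 q q0 : Bool × ℕ) (v : ℤ × ℤ) :
    VG b h s x1 q q0 (zc v) (GY b h w s x1 c3 c4 v o) =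
      EB (b.B h \ b.Pl h) (blk (cpl b (2 * h))) fun ω => Vy b (2 * h) q q0
        ((WA b h {c3, c4} (WlS b (2 * h) (colM (bsP w s) {c3, c4} (some v.2)) (Yr s)) o s x1 (Yr s) v).G ω)
        (zc v) (vt x1 (Yr s)) x1 (Yr s) := by
  have hx1 : -(b.X * (2 * h : ℤ)) ≤ x1 := by linarith [N.x1l, N.mX]
  unfold VG
  rw [← blk_cpl, ← EB_restrict (F := b.B h \ b.Pl h) (E := b.B h) sdiff_subset]
  refine EB_congr fun ω hω => ?_
  have e1 : ω ∩ (b.B h \ b.Pl h) = ω \ b.Pl h := by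
    ext e
    simp only [mem_inter, mem_sdiff]
    constructor
    · rintro ⟨g1, -, g2⟩; exact ⟨g1, g2⟩
    · rintro ⟨g1, g2⟩; exact ⟨g1, hω g1, g2⟩
  have e2 : GY b h w s x1 c3 c4 v o ω = (WA b h {c3, c4} (WlS b (2 * h)
      (colM (bsP w s) {c3, c4} (some v.2)) (Yr s)) o s x1 (Yr s) v).G (ω \ b.Pl h) :=
    GY_WA N.ok N.hh N.mn (le_of_lt N.thk) _ hx1 hω
  rw [e1, e2, mc_vt]

/-- **61's `Y` world with the deleted row `-5`.** -/
theorem VG_row (N : MkH δ σ b h x1) (U : UpH δ σ b h x1 y0 xs xe xl ρ Yd v) (w s o : Bool)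
    {c3 c4 : Bool × ℕ} (h34 : c3 ≠ c4) (hM : ∀ q ∈ ({c3, c4} : Finset (Bool × ℕ)), q.2 < b.K)
    (q : Bool × ℕ) {q0 : Bool × ℕ} (hq0 : q0 ∈ ({c3, c4} : Finset (Bool × ℕ))) :
    VG b h s x1 q q0 (zc v) (GY b h w s x1 c3 c4 v o) =
      EB (b.B h \ b.Pl h) (blk (cpl b (2 * h))) fun ω => Vy b (2 * h) q q0
        ((WA b h {c3, c4} (WlS b (2 * h) (colM (bsP w s) {c3, c4} (some v.2)) (-5)) o s x1 (-5) v).G ω)
        (zc v) (vt x1 (-5)) x1 (-5) := by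
  have hx1 : -(b.X * (2 * h : ℤ)) < x1 := by linarith [N.x1l, N.mX]
  have hx2 : x1 < b.X * (2 * h : ℤ) := by linarith [N.x1r, N.Xn]
  have hc : par ({c3, c4} : Finset (Bool × ℕ)).card = false := Pool.Agent.H45.W.par2 h34
  have hv := ten_v N U
  have hten := N.ten
  have hY : Yr s = 0 ∨ Yr s = -1 := by unfold Yr; cases s <;> simp
  have U' : UpH δ σ b h x1 (Yr s) xs xe xl ρ 2 v :=
    upH_chg U (by omega) (by omega) (by omega) (by omega)
  rw [VG_WA N]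
  refine EB_bc fun ω hω => ?_
  exact N.Vy_row (colM_ul hc _) hω hv (by omega) (by omega) (by norm_num) (by norm_num) q q0
    (fun t ht => U'.nbYA hM hc hx1 hx2 hω.1 hq0 ht)


/-! ### The two worlds -/

section half

variable (U : UpH δ σ b h x1 y0 xs xe xl ρ Yd v)
include U

/-- a tile at each corner of a mark -/
lemma fq_tile (hM : ∀ q ∈ M, q.2 < b.K) {q : Bool × ℕ} (hq : q ∈ M) {t : ℤ × ℤ}
    (ht : t ∈ fq b (2 * h) q) : ∃ e ∈ Lam b (2 * h) M,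
      (b.H * (2 * h : ℤ) ≤ cy e ∨ cy e < -(b.H * (2 * h : ℤ))) ∧ Sd e t := by
  have hn : (2 : ℤ) ≤ 2 * h := by have := U.hh; omega
  obtain ⟨h1, h2⟩ := nb_Lam (M := M) U.ok hn (hM q hq) hM
  obtain ⟨h3, h4⟩ := nb_row (b := b) hn q
  rcases ht with rfl | rfl
  · exact ⟨_, h1, by rw [cy_lt]; exact h3, by rw [f1_nb]; exact Or.inl rfl⟩
  · exact ⟨_, h2, by rw [cy_lt]; exact h4, f2_nb q⟩

lemma sr_fq (hM : ∀ q ∈ M, q.2 < b.K) (hB : ρ ≤ b.H * (2 * h : ℤ)) {q : Bool × ℕ} (hq : q ∈ M)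
    {t : ℤ × ℤ} (ht : t ∈ fq b (2 * h) q) :
    SR (WA b h M L o s x1 y0 v).Λ (WA b h M L o s x1 y0 v).D (Bk xl xe ρ) (Pool.Agent.H71.W.St b (2 * h) xe Yd v)
      t t := by
  obtain ⟨e, he, hr, hs⟩ := fq_tile U hM hq ht
  exact U.sr_of he hr hB hs

lemma srd_fq (hM : ∀ q ∈ M, q.2 < b.K) (hB : ρ ≤ b.H * (2 * h : ℤ)) {q : Bool × ℕ} (hq : q ∈ M)
    {t : ℤ × ℤ} (ht : t ∈ fq b (2 * h) q) :
    SRd (WB b h M L' o s x1 y0 xs Yd).Λ (WB b h M L' o s x1 y0 xs Yd).D (Bk xl xe ρ)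
      (StR b (2 * h) xe Yd v) t t := by
  obtain ⟨e, he, hr, hs⟩ := fq_tile U hM hq ht
  have h0 := U.rho_lo
  have hy := U.y0d
  have hd := U.vd
  have hv := U.vH
  left
  refine ⟨rfl, Or.inl ⟨e, he, ?_, ?_, ?_, hs⟩⟩
  · rintro ⟨-, k1, k2⟩
    rcases hr with hr | hr <;> linarith
  · rintro ⟨-, k1, k2⟩
    rcases hr with hr | hr <;> omega
  · rw [mem_DB (Lam_odd he)]
    rintro (⟨k1, -⟩ | ⟨k1, -⟩)
    · rcases hr with hr | hr <;> linarith
    · rcases hr with hr | hr <;> linarith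

/-- the mark of `P` does not move -/
lemma sr_mP (h1 : -(b.X * (2 * h : ℤ)) < x1) (h2 : x1 < b.X * (2 * h : ℤ)) (hx : xe ≤ x1) :
    SR (WA b h M L o s x1 y0 v).Λ (WA b h M L o s x1 y0 v).D (Bk xl xe ρ) (Pool.Agent.H71.W.St b (2 * h) xe Yd v)
      (vt x1 y0) (vt x1 y0) := by
  have h0 := U.rho_lo
  have hy := U.y0d
  have hd := U.vd
  have hv := U.vH
  left
  refine ⟨rfl, Or.inl ⟨lt (x1, y0), ?_, ?_, ?_, ?_, Or.inl rfl⟩⟩
  · show lt (x1, y0) ∈ Lam b (2 * h) M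
    rw [mem_Lam_band U.ok U.hn (by rw [cy_lt]; linarith) (by rw [cy_lt]; linarith)]
    exact ⟨lt_odd _, by rw [cx_lt]; linarith, by rw [cx_lt]; linarith⟩
  · rintro ⟨⟨-, k1⟩, -⟩
    rw [cx_lt] at k1; exact absurd k1 (not_lt.2 hx)
  · rintro ⟨-, k1, -⟩
    rw [cy_lt] at k1
    linarith
  · rw [mem_DA (lt_odd _), cy_lt, cx_lt]
    rintro (⟨k1, -⟩ | ⟨-, k1⟩)
    · linarith
    · exact lt_irrefl _ k1

/-- the corners of the deleted row -/
lemma sr_hz {x : ℤ} {I : Set (ℤ × ℤ)} (hBI : ∀ e ∈ Bk xl xe ρ, ∀ c, Sd e c → c ∈ I)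
    (hx : vt x (y0 - 1) ∈ Lam b (2 * h) M) :
    SR (WA b h M L o s x1 y0 v).Λ (WA b h M L o s x1 y0 v).D (Bk xl xe ρ) (Pool.Agent.H71.W.St b (2 * h) xe Yd v)
      (hz x y0) (hz x y0) ∨ (hz x y0 ∈ KB (Bk xl xe ρ) ∧ hz x y0 ∈ I) := by
  have h0 := U.rho_lo
  have hy := U.y0d
  have hd := U.vd
  have hv := U.vH
  have hs : Sd (vt x (y0 - 1)) (hz x y0) := by
    right; right; right
    have := eN_lt x (y0 - 1)
    rw [sub_add_cancel] at this
    exact this.symm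
  by_cases hB : vt x (y0 - 1) ∈ Bk xl xe ρ
  · right
    refine ⟨?_, hBI _ hB _ hs⟩
    show lab (hz x y0) ∈ Bk xl xe ρ ∨ plab (hz x y0) ∈ Bk xl xe ρ
    rcases of_side (vt_odd _ _) _ hs with g | g
    · left; rwa [← g]
    · right; rwa [← g]
  · left
    left
    refine ⟨rfl, Or.inl ⟨_, hx, hB, ?_, ?_, hs⟩⟩
    · rintro ⟨-, k1, -⟩
      rw [cy_vt] at k1
      linarith
    · rw [mem_DA (vt_odd _ _), cy_vt, cx_vt]
      rintro (⟨k1, -⟩ | ⟨k1, -⟩) <;> linarith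

variable {ω1 ω2 : Finset (ℤ × ℤ)} (hL : Lay b h M L L' x1 y0 xe Yd v)
  (hC : Cor (WA b h M L o s x1 y0 v) (WB b h M L' o s x1 y0 xs Yd) (mv (Pool.Agent.H71.W.St b (2 * h) xe Yd v))
    (Pool.Agent.H71.W.St b (2 * h) xe Yd v) (O1 b h x1 y0 xe xl ρ v) (O2 b h x1 y0 xe xl ρ Yd v) ω1 ω2)
include hL hC

/-- **Equal numbers of passages.** -/
theorem cq_half (hM : ∀ q ∈ M, q.2 < b.K) (hB : ρ ≤ b.H * (2 * h : ℤ)) (hy1 : -9 ≤ y0) (hy2 : y0 ≤ 9)
    (h10 : 10 ≤ b.H * (2 * h : ℤ)) {q : Bool × ℕ} (hq : q ∈ M) {I : Set (ℤ × ℤ)} {p : ℤ × ℤ}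
    (hI : ∀ u w, u ∈ I → w ∉ I → ((WB b h M L' o s x1 y0 xs Yd).G ω2).Adj u w → w = p)
    (hK : ∀ c ∈ KB (Bk xl xe ρ), ∀ c', SR (WA b h M L o s x1 y0 v).Λ (WA b h M L o s x1 y0 v).D
      (Bk xl xe ρ) (Pool.Agent.H71.W.St b (2 * h) xe Yd v) c c' → c' ∈ I)
    (hBI : ∀ e ∈ Bk xl xe ρ, ∀ c, Sd e c → c ∈ I)
    (hF : ∀ t ∈ fq b (2 * h) q, t ∉ I)
    (hP : ∀ t ∈ fq b (2 * h) q, ¬ ((WB b h M L' o s x1 y0 xs Yd).G ω2).Reachable t p) :
    cq b (2 * h) q ((WA b h M L o s x1 y0 v).G ω1) x1 y0 =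
      cq b (2 * h) q ((WB b h M L' o s x1 y0 xs Yd).G ω2) x1 y0 := by
  unfold cq lnn
  congr 1
  ext x
  simp only [Set.mem_ofPred_eq]
  refine and_congr_right fun hx => exists_congr fun t => and_congr_right fun ht => ?_
  have hvis := U.vis (c := hz x y0) (c' := hz x y0) hL hC hI hK (fun e _ he c hs => hBI e he c hs)
    (sr_fq (L := L) (o := o) (s := s) U hM hB hq ht)
    (srd_fq (L' := L') (o := o) (s := s) U hM hB hq ht) (hF t ht) (hP t ht)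
  by_cases hin : vt x (y0 - 1) ∈ Lam b (2 * h) M
  · have h1 := hvis (sr_hz (L := L) (o := o) (s := s) U hBI hin)
    exact ⟨fun g => (h1.1 g.symm).symm, fun g => (h1.2 g.symm).symm⟩
  · have hin' : vt x y0 ∉ Lam b (2 * h) M := by
      intro g
      apply hin
      rw [mem_Lam_band U.ok U.hn (by rw [cy_vt]; linarith) (by rw [cy_vt]; linarith), cx_vt] at g ⊢
      exact ⟨vt_odd _ _, g.2⟩
    have hne : hz x y0 ≠ t := by
      intro g
      have h4 := far_fq U.hn h10 ht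
      rw [← g] at h4
      unfold Pool.Agent.H16.W.Far at h4
      rw [hgt_hz] at h4
      omega
    constructor
    · intro g
      exact absurd (iso_hz hin' hin g) hne
    · intro g
      exact absurd (iso_hz hin' hin g) hne

end half

/-- **Equal values of the two worlds.** -/
theorem half_vy {k r sz : ℕ} {A : ℤ} (N : MkH δ σ b h x1) (U : UpH δ σ b h x1 y0 xs xe xl ρ Yd v)
    (J : JB δ σ b h k sz r y0 xs xl xe ρ A Yd) (hM : ∀ q ∈ M, q.2 < b.K) (hc : par M.card = false)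
    (hB : ρ ≤ b.H * (2 * h : ℤ)) (hy1 : -9 ≤ y0) (hy2 : y0 ≤ 9) (hxx : xs + 15 * (r * h : ℤ) ≤ x1)
    {ω1 ω2 : Finset (ℤ × ℤ)}
    (hC : Cor (WA b h M (WlS b (2 * h) (colM bse M (some v.2)) y0) o s x1 y0 v)
      (WB b h M (WlS b (2 * h) (colM bse M (some Yd)) y0) o s x1 y0 xs Yd)
      (mv (Pool.Agent.H71.W.St b (2 * h) xe Yd v)) (Pool.Agent.H71.W.St b (2 * h) xe Yd v)
      (O1 b h x1 y0 xe xl ρ v) (O2 b h x1 y0 xe xl ρ Yd v) ω1 ω2)
    (hF : FieldB ((WB b h M (WlS b (2 * h) (colM bse M (some Yd)) y0) o s x1 y0 xs Yd).G ω2) h sz r xs xl xe ρ)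
    {q q0 : Bool × ℕ} (hq : q ∈ M) (hq0 : q0 ∈ M) :
    Vy b (2 * h) q q0 ((WA b h M (WlS b (2 * h) (colM bse M (some v.2)) y0) o s x1 y0 v).G ω1) (zc v)
        (vt x1 y0) x1 y0 =
      Vy b (2 * h) q q0 ((WB b h M (WlS b (2 * h) (colM bse M (some Yd)) y0) o s x1 y0 xs Yd).G ω2)
        (zc (xs, Yd)) (vt x1 y0) x1 y0 := by
  have hx1 : -(b.X * (2 * h : ℤ)) < x1 := by linarith [N.x1l, N.mX]
  have hx2 : x1 < b.X * (2 * h : ℤ) := by linarith [N.x1r, N.Xn]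
  have hxe : xe ≤ x1 := by linarith [N.x1l, U.xem]
  have h10 : 10 ≤ b.H * (2 * h : ℤ) := le_trans N.ten N.tH
  have hL := U.lay_WlS (M := M) bse
  obtain ⟨I, p, hI, hKs, hBI, hN, hFar⟩ := hF.sr
  have hK := hKs (WA b h M (WlS b (2 * h) (colM bse M (some v.2)) y0) o s x1 y0 v).Λ
    (WA b h M (WlS b (2 * h) (colM bse M (some v.2)) y0) o s x1 y0 v).D
    (Pool.Agent.H71.W.St b (2 * h) xe Yd v)
  have hzI : zc (xs, Yd) ∈ I := hN _ J.zc_near.1 J.zc_near.2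
  have hmI : vt x1 y0 ∉ I := hFar _ (JB.mc_far hxx)
  have hfI : ∀ q : Bool × ℕ, ∀ t ∈ fq b (2 * h) q, t ∉ I := by
    rintro q t (rfl | rfl)
    · exact hFar _ (J.mark_far q).1
    · exact hFar _ (J.mark_far q).2
  have hω1 := hC.1
  have hω2 := hC.2.1
  obtain ⟨G1o, S⟩ := U.simu hL hC
  have hfar := S.far hI hK U.zc_KB hzI (x := yY b (2 * h) M (vt x1 y0)) (y := yY b (2 * h) M (vt x1 y0))
    (by
      intro i
      rcases i with _ | i
      · exact sr_mP U hx1 hx2 hxe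
      · exact sr_fq U hM hB i.1.2 (UpH.yM_fq i))
    (by
      intro i
      rcases i with _ | i
      · exact hmI
      · exact hfI _ _ (UpH.yM_fq i))
    (U.exYA hM hc hx1 hx2 hω1) (U.exYB hM hc hx1 hx2 hω2) (fun i j => U.unYB hM hc hx1 hx2 hω2 i j)
  refine Vy_congr (fun t ht => ?_) (hfar none) (fun g => ?_)
  · rcases ht with rfl | rfl
    · exact hfar (some (⟨q, hq⟩, true))
    · exact hfar (some (⟨q, hq⟩, false))
  · have g' := (hfar none).1 g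
    rw [cq_half U hL hC hM hB hy1 hy2 h10 hq0 hI hK hBI (hfI q0) (fun t ht gt => ?_)]
    exact U.nbYB hM hc hx1 hx2 hω2 hq0 ht ⟨g', (reach_exit hI hzI hmI g').trans gt.symm⟩

/-- **The value of a moving end above the slit.** -/
theorem VY_up {k r sz : ℕ} {A : ℤ} (N : MkH δ σ b h x1) (U : UpH δ σ b h x1 (-5) xs xe xl ρ Yd v)
    (J : JB δ σ b h k sz r (-5) xs xl xe ρ A Yd) (w s o : Bool) {c3 c4 : Bool × ℕ} (h34 : c3 ≠ c4)
    (hM : ∀ q ∈ ({c3, c4} : Finset (Bool × ℕ)), q.2 < b.K) (hB : ρ ≤ b.H * (2 * h : ℤ))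
    (hxx : xs + 15 * (r * h : ℤ) ≤ x1) {q q0 : Bool × ℕ}
    (hq : q ∈ ({c3, c4} : Finset (Bool × ℕ))) (hq0 : q0 ∈ ({c3, c4} : Finset (Bool × ℕ))) {ε η : ℝ}
    (hε : PB (WB b h {c3, c4} (LY b h {c3, c4} (bsP w s) (-5) Yd) o s x1 (-5) xs Yd).E
      (WB b h {c3, c4} (LY b h {c3, c4} (bsP w s) (-5) Yd) o s x1 (-5) xs Yd).b
      (fun ω => ¬ BY b h k sz r s (O2 b h x1 (-5) xe xl ρ Yd v)
        (WB b h {c3, c4} (LY b h {c3, c4} (bsP w s) (-5) Yd) o s x1 (-5) xs Yd).b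
        (ω ∩ O2 b h x1 (-5) xe xl ρ Yd v)) ≤ ε)
    (hη : ‖gY1 b h {c3, c4} (bsP w s) o s x1 (-5) xs Yd q q0 -
      gY b h {c3, c4} (bsP w s) o s x1 (-5) xs Yd q q0‖ ≤ η) :
    ‖VG b h s x1 q q0 (zc v) (GY b h w s x1 c3 c4 v o) -
      gY b h {c3, c4} (bsP w s) o s x1 (-5) xs Yd q q0‖ ≤ 6 * ε + η := by
  have hc : par ({c3, c4} : Finset (Bool × ℕ)).card = false := Pool.Agent.H45.W.par2 h34
  have hL := U.lay_WlS (M := ({c3, c4} : Finset (Bool × ℕ))) (bsP w s)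
  have hx1 : xs + 12 * (r * h : ℤ) ≤ x1 := by
    have : (0 : ℤ) ≤ r * h := by positivity
    linarith
  have e2 := EB_WBY (M := ({c3, c4} : Finset (Bool × ℕ))) (L := LY b h {c3, c4} (bsP w s) (-5) Yd)
    (o := o) (s := s) (x1 := x1) (xs := xs) (y0 := -5) U.ok U.hh U.mn U.thk J.YdT (by linarith [N.ten])
    (fun e he => WlS_notMem he U.hh)
    (fun G => Vy b (2 * h) q q0 G (zc (xs, Yd)) (vt x1 (-5)) x1 (-5))
  have e3 := Coup.EB_le ((U.lm (o := o) (s := s) hL).coup (fun ω => BY b h k sz r s (O2 b h x1 (-5) xe xl ρ Yd v)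
      (WB b h {c3, c4} (LY b h {c3, c4} (bsP w s) (-5) Yd) o s x1 (-5) xs Yd).b ω))
    (V1 := fun ω => Vy b (2 * h) q q0
        ((WA b h {c3, c4} (WlS b (2 * h) (colM (bsP w s) {c3, c4} (some v.2)) (-5)) o s x1 (-5) v).G ω)
        (zc v) (vt x1 (-5)) x1 (-5))
    (V2 := fun ω => Vy b (2 * h) q q0
        ((WB b h {c3, c4} (LY b h {c3, c4} (bsP w s) (-5) Yd) o s x1 (-5) xs Yd).G ω)
        (zc (xs, Yd)) (vt x1 (-5)) x1 (-5)) (M := 3) (by norm_num)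
    (fun ω _ => norm_Vy_le _ _ _ _ _ _ _ _ _) (fun ω _ => norm_Vy_le _ _ _ _ _ _ _ _ _)
    (by
      intro ω1 h1 ω2 h2 h3 h4
      exact half_vy N U J hM hc hB (by norm_num) (by norm_num) hxx ⟨h1, h2, h3⟩
        (J.fieldU_Y U hx1 (fun e he => WlS_notMem he U.hh) h2 h4) hq hq0)
  rw [VG_row N U w s o h34 hM q hq0]
  have e4 : gY1 b h {c3, c4} (bsP w s) o s x1 (-5) xs Yd q q0 =
      EB (WB b h {c3, c4} (LY b h {c3, c4} (bsP w s) (-5) Yd) o s x1 (-5) xs Yd).E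
        (WB b h {c3, c4} (LY b h {c3, c4} (bsP w s) (-5) Yd) o s x1 (-5) xs Yd).b
        (fun ω => Vy b (2 * h) q q0
          ((WB b h {c3, c4} (LY b h {c3, c4} (bsP w s) (-5) Yd) o s x1 (-5) xs Yd).G ω)
          (zc (xs, Yd)) (vt x1 (-5)) x1 (-5)) := e2.symm
  refine (norm_sub_le_norm_sub_add_norm_sub _ (gY1 b h {c3, c4} (bsP w s) o s x1 (-5) xs Yd q q0) _).trans
    (add_le_add ?_ hη)
  rw [e4]
  refine (e3.trans ?_)
  linarith

end Pool.Agent.H16.W
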