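import Mathlib
import Pool.Agent.H16.W.JHalfY
import Pool.Agent.H71.W.JY6

set_option autoImplicit false
open Finset hiding val

/-! # Route W, J6, Y worlds: the upper side

`vYup` : 71's Prop `VYup`. -/

namespace Pool.Agent.H16.W

open Pool.Agent.H61.W Pool.Agent.H6.W Pool.Agent.H58.W Pool.Agent.H21.W Pool.Agent.H50.W
open Pool.Agent.H82.W Pool.Agent.H13.W
open Pool.Agent.H55.W (JB FieldB BY jBlkU_prob JWin)
open Pool.Agent.H71.W hiding InQ_col dgt_row

/-- **The upper side.** -/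
theorem vYup : ∃ kap : ℝ, 0 < kap ∧ VYup kap := by
  obtain ⟨kap, hk, H⟩ := jBlkU_prob
  refine ⟨kap, hk, ?_⟩
  intro b δ σ hb hδ h k q r a hh ha hq haq hqr hw hP j hj hjm N c3 c4 k3 k4 h34 w o s Yd v hYd hv U p hp p0 hp0
    η hη
  have hh0 : 0 < h := by omega
  have hn : (0 : ℤ) < 2 * h := by positivity
  have hten := N.ten
  have J := JB.of_num (y0 := -5) (Yd := Yd) hb hδ hh hq haq hqr hw hP rfl (by linarith)
    (by rcases hYd with rfl | rfl <;> norm_num) (by rcases hYd with rfl | rfl <;> linarith)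
  have hM : ∀ c ∈ ({c3, c4} : Finset (Bool × ℕ)), c.2 < b.K := by
    intro c hc
    simp only [mem_insert, mem_singleton] at hc
    rcases hc with rfl | rfl
    · exact k3
    · exact k4
  have hB : (a * (2 * h) : ℤ) ≤ b.H * (2 * h : ℤ) := by
    have h1 := hw.top
    have h2 : a ≤ b.H := by omega
    exact mul_le_mul_of_nonneg_right (by exact_mod_cast h2) hn.le
  have hxx : -(k * b.M * (2 * h) : ℤ) + 15 * (r * h : ℤ) ≤ -((j : ℤ) * b.M * (2 * h)) := by
    have h1 : j * b.M ≤ b.m * b.M := Nat.mul_le_mul_right _ hjm.le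
    have h2 : (10 * r + j * b.M : ℤ) ≤ k * b.M := by
      have : 10 * r + j * b.M ≤ k * b.M := by omega
      exact_mod_cast this
    have h3 : (10 * r + j * b.M : ℤ) * (2 * h) ≤ k * b.M * (2 * h) := mul_le_mul_of_nonneg_right h2 hn.le
    have h4 : (0 : ℤ) ≤ r * h := by positivity
    linarith
  exact VY_up N U J w s o h34 hM hB hxx hp hp0
    (H δ σ b h k q r (-5) _ _ _ _ _ Yd J {c3, c4} _ o s _ v U).2 hη

end Pool.Agent.H16.W
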