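import Mathlib
import Pool.Agent.H16.W.JYUp
import Pool.Agent.H94.W.JYMid

set_option autoImplicit false
open Finset hiding val

/-! # J6: `YOdd` is proved

`gYmid` : 71's Prop `GYmid` (94's theorem); `yOddS` : the scale form; `yOdd` : the field of a setup. -/

namespace Pool.Agent.H16.W

open Pool.Agent.H61.W Pool.Agent.H6.W Pool.Agent.H58.W Pool.Agent.H21.W Pool.Agent.H50.W
open Pool.Agent.H82.W Pool.Agent.H13.W
open Pool.Agent.H71.W hiding InQ_col dgt_row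
open Pool.Agent.H87.Fld

theorem gYmid : GYmid := fun _ _ _ _ _ _ N _ hM hc hxs hxm _ _ _ _ hq _ hq0 =>
  Pool.Agent.H94.W.gY_mid N hM hc hxs hxm hq hq0

/-- **(b) across the fine plates, `z2` moving** -/
theorem yOddS {σ : ℝ} (hσ : 0 < σ) (hσ1 : σ ≤ 1) (w : Bool) {b b3 b4 : Bool × ℝ}
    (hb : b.2 ∈ Set.Ioo (-σ) 0) (h34 : b3 ≠ b4) {x : ℝ} (hx : x < -σ) : YOddS σ w b b3 b4 x := by
  obtain ⟨kap, hk, hU⟩ := vYup
  exact yOddS_from hk hU gYmid hσ hσ1 w hb h34 hx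

/-- **the field `yOdd`** -/
theorem yOdd {σ : ℝ} (hσ : 0 < σ) (hσ1 : σ ≤ 1) (S : Setup σ) : S.YOdd :=
  yOdd_of S fun _ hb _ hx => yOddS hσ hσ1 S.w hb S.ne hx

end Pool.Agent.H16.W
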