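import Mathlib
import Pool.Agent.H16.W.JEnd
import Pool.Agent.H16.W.JYDef

set_option autoImplicit false
open Finset hiding val

/-! # Route W, J6, Y worlds: ends of the base world

`jok0`, `jw0` : 45's structure for the base world `G0Y` (row `y0` above or below the row `Yd`); `nb0` : the end of the
string is not joined both to the mark of `P` and to a mark. -/

namespace Pool.Agent.H16.W

open Pool.Agent.H61.W Pool.Agent.H6.W Pool.Agent.H58.W Pool.Agent.H21.W Pool.Agent.H50.W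
open Pool.Agent.H82.W Pool.Agent.H13.W
open Pool.Agent.H47.W (hz vt)
open Pool.Agent.H45.W (JW JOk DD BG)
open Pool.Agent.H71.W hiding InQ_col dgt_row
open Pool.Agent.H19.W (cx cy lt_cc cx_lt cy_lt)
open Pool.Agent.H33.Q1 (lt tt TL ct mem_TL lt_odd)

variable {δ σ : ℝ} {b : JBox} {h : ℕ} {M : Finset (Bool × ℕ)}
  {L L' : Finset (ℤ × ℤ)} {o s bse : Bool} {x1 y0 xs Yd : ℤ}

section base

variable (N : MkH δ σ b h x1) (hM : ∀ q ∈ M, q.2 < b.K) (hc : par M.card = false)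
  (hxs : -(b.X * (2 * h) : ℤ) < xs) (hxm : xs ≤ -(b.m * b.M * (2 * h) : ℤ)) (hy1 : -8 ≤ y0) (hy2 : y0 ≤ 8)
  (hY1 : -8 ≤ Yd) (hY2 : Yd ≤ 8) (hyY : Yd ≠ y0)
include N hM hc hxs hxm hy1 hy2 hY1 hY2 hyY

lemma jok0 : JOk b (2 * h) M (some (xs, Yd)) (some (x1, y0)) := by
  have hH : 10 ≤ b.H * (2 * h : ℤ) := le_trans N.ten N.tH
  have hX := N.Xn
  have h1 := N.x1l
  have h2 := N.x1r
  have h3 := N.mX
  refine ⟨BG.of_ok N.ok, N.hn, hM, ?_, ?_, ?_, by rw [hc]; rfl⟩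
  · intro v' hv
    rw [Option.mem_def, Option.some.injEq] at hv
    rw [← hv]
    show InQ b (2 * h) xs Yd
    rw [InQ_band N.ok N.hn (by linarith) (by linarith)]
    constructor <;> linarith
  · intro s' hs
    rw [Option.mem_def, Option.some.injEq] at hs
    rw [← hs]
    exact ⟨⟨by show -(b.X * (2 * h : ℤ)) < x1; linarith, by show x1 < b.X * (2 * h : ℤ); linarith⟩,
      by show -(b.H * (2 * h : ℤ)) ≤ y0; linarith, by show y0 < b.H * (2 * h : ℤ); linarith⟩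
  · intro v' hv s' hs h3
    rw [Option.mem_def, Option.some.injEq] at hs hv
    rw [← hs, ← hv] at h3
    exact absurd h3 hyY

/-- **45's structure for the base world.** -/
theorem jw0 {ω : Finset (ℤ × ℤ)} (hω : ω ⊆ b.B h) :
    JW b (2 * h) M (some (xs, Yd)) (some (x1, y0)) bse (Lam b (2 * h) M)
      (w0Y b h o s x1 y0 xs Yd ω ∪ LY b h M bse y0 Yd) := by
  refine JW_S (v := (xs, Yd)) N.hh (jok0 N hM hc hxs hxm hy1 hy2 hY1 hY2 hyY) fun e he => ?_
  have h1 : e ∉ w0Y b h o s x1 y0 xs Yd ω := by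
    unfold w0Y
    rw [mem_symmDiff, mem_cfg, mem_fUY]
    have g1 : e ∉ ω := fun g => he (hω g)
    have g2 : e ∉ b.Pl h := fun g => he (Pl_sub N.ok N.hh N.mn (le_of_lt N.thk) g)
    simp [g1, g2, he]
  rw [mem_union]
  constructor
  · rintro (g | g)
    · exact absurd g h1
    · exact g
  · exact Or.inr

/-- **not both** -/
theorem nb0 {ω : Finset (ℤ × ℤ)} (hω : ω ⊆ b.B h) {q : Bool × ℕ} (hq : q ∈ M) {t : ℤ × ℤ}
    (ht : t ∈ fq b (2 * h) q) :
    ¬ ((G0Y b h M (LY b h M bse y0 Yd) o s x1 y0 xs Yd ω).Reachable (zc (xs, Yd)) (vt x1 y0) ∧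
      (G0Y b h M (LY b h M bse y0 Yd) o s x1 y0 xs Yd ω).Reachable (zc (xs, Yd)) t) := by
  have W := jw0 (bse := bse) (o := o) (s := s) N hM hc hxs hxm hy1 hy2 hY1 hY2 hyY hω
  have hG : G0Y b h M (LY b h M bse y0 Yd) o s x1 y0 xs Yd ω =
      SG (Lam b (2 * h) M) (lt '' DD (some (xs, Yd)) (some (x1, y0)))
        (w0Y b h o s x1 y0 xs Yd ω ∪ LY b h M bse y0 Yd) := by
    rw [DD_S]; rfl
  rw [hG]
  rintro ⟨g1, g2⟩
  exact W.zc_not_both rfl rfl hq (RF_fq.2 ⟨t, ht, g2⟩) g1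

end base

end Pool.Agent.H16.W
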