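import Mathlib

set_option autoImplicit false

/-! # Route W, junction world: explicit chart of the strip

`th z = tanh (π z / 4)` maps the strip `|Im z| < 1` onto the unit disc, `psi` is the inverse map. -/

namespace Pool.Agent.H16.W

open Complex Set Filter Topology
open scoped ComplexConjugate

/-- the chart from the disc to the strip -/
noncomputable def psi (w : ℂ) : ℂ := (2 / Real.pi : ℝ) * log ((1 + w) / (1 - w))

/-- the chart from the strip to the disc -/
noncomputable def th (z : ℂ) : ℂ :=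
  (exp ((Real.pi / 2 : ℝ) * z) - 1) / (exp ((Real.pi / 2 : ℝ) * z) + 1)

/-- closed disc without `1`, `-1` -/
def DC : Set ℂ := {w | ‖w‖ ≤ 1 ∧ w ≠ 1 ∧ w ≠ -1}

lemma ne_of_DC {w : ℂ} (h : w ∈ DC) : 1 - w ≠ 0 ∧ 1 + w ≠ 0 := by
  refine ⟨fun h' => h.2.1 (by linear_combination -h'), fun h' => h.2.2 (by linear_combination h')⟩

lemma ball_sub_DC {w : ℂ} (h : ‖w‖ < 1) : w ∈ DC := by
  refine ⟨h.le, ?_, ?_⟩
  · rintro rfl; simp at h
  · rintro rfl; simp at h

/-- real part of the Cayley transform -/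
lemma re_cay (w : ℂ) : ((1 + w) / (1 - w)).re = (1 - ‖w‖ ^ 2) / normSq (1 - w) := by
  rw [Complex.div_re, ← add_div, ← Complex.normSq_eq_norm_sq w]
  congr 1
  simp [Complex.normSq_apply]
  ring

/-- imaginary part of the Cayley transform -/
lemma im_cay (w : ℂ) : ((1 + w) / (1 - w)).im = 2 * w.im / normSq (1 - w) := by
  rw [Complex.div_im, ← sub_div]
  congr 1
  simp
  ring

lemma cay_ne {w : ℂ} (h : w ∈ DC) : (1 + w) / (1 - w) ≠ 0 :=
  div_ne_zero (ne_of_DC h).2 (ne_of_DC h).1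

lemma cay_re_nonneg {w : ℂ} (h : w ∈ DC) : 0 ≤ ((1 + w) / (1 - w)).re := by
  rw [re_cay]
  apply div_nonneg _ (normSq_nonneg _)
  have h1 : ‖w‖ ^ 2 ≤ 1 := by
    have := h.1
    have h0 := norm_nonneg w
    nlinarith
  linarith

lemma cay_slit {w : ℂ} (h : w ∈ DC) : (1 + w) / (1 - w) ∈ slitPlane := by
  rw [mem_slitPlane_iff]
  by_cases h1 : ((1 + w) / (1 - w)).im = 0
  · left
    refine lt_of_le_of_ne (cay_re_nonneg h) fun h2 => cay_ne h ?_
    exact Complex.ext h2.symm h1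
  · exact Or.inr h1

lemma cay_arg {w : ℂ} (h : w ∈ DC) : |arg ((1 + w) / (1 - w))| ≤ Real.pi / 2 :=
  abs_arg_le_pi_div_two_iff.mpr (cay_re_nonneg h)

lemma psi_im (w : ℂ) : (psi w).im = 2 / Real.pi * arg ((1 + w) / (1 - w)) := by
  unfold psi
  rw [Complex.im_ofReal_mul, log_im]

lemma psi_re (w : ℂ) : (psi w).re = 2 / Real.pi * Real.log ‖(1 + w) / (1 - w)‖ := by
  unfold psi
  rw [Complex.re_ofReal_mul, log_re]

lemma psi_strip {w : ℂ} (h : w ∈ DC) : |(psi w).im| ≤ 1 := by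
  rw [psi_im, abs_mul, abs_of_pos (by positivity)]
  have h1 := cay_arg h
  have hp := Real.pi_pos
  calc 2 / Real.pi * |arg ((1 + w) / (1 - w))| ≤ 2 / Real.pi * (Real.pi / 2) := by gcongr
    _ = 1 := by field_simp

lemma psi_strip' {w : ℂ} (h : ‖w‖ < 1) : |(psi w).im| < 1 := by
  rw [psi_im, abs_mul, abs_of_pos (by positivity)]
  have hw := ball_sub_DC h
  have h0 : 0 < ((1 + w) / (1 - w)).re := by
    rw [re_cay]
    apply div_pos
    · have h0 := norm_nonneg w
      nlinarith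
    · exact normSq_pos.mpr (ne_of_DC hw).1
  have h1 : |arg ((1 + w) / (1 - w))| < Real.pi / 2 := abs_arg_lt_pi_div_two_iff.mpr (Or.inl h0)
  have hp := Real.pi_pos
  calc 2 / Real.pi * |arg ((1 + w) / (1 - w))| < 2 / Real.pi * (Real.pi / 2) := by gcongr
    _ = 1 := by field_simp

lemma psi_diff : DifferentiableOn ℂ psi DC := by
  intro w hw
  unfold psi
  have h1 := ne_of_DC hw
  have h2 := cay_slit hw
  have h3 : DifferentiableAt ℂ (fun y : ℂ => (1 + y) / (1 - y)) w :=
    DifferentiableAt.div (by fun_prop) (by fun_prop) h1.1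
  exact ((h3.clog h2).const_mul _).differentiableWithinAt

lemma psi_cont : ContinuousOn psi DC := psi_diff.continuousOn

lemma psi_conj {w : ℂ} (h : w ∈ DC) : psi (conj w) = conj (psi w) := by
  unfold psi
  rw [map_mul, conj_ofReal, ← log_conj _ (fun h' => ?_), map_div₀, map_add, map_sub, map_one]
  have h1 := cay_slit h
  rw [mem_slitPlane_iff_arg] at h1
  exact h1.1 h'

lemma psi_neg {w : ℂ} (h : w ∈ DC) : psi (-w) = - psi w := by
  unfold psi
  have h1 : (1 + -w) / (1 - -w) = ((1 + w) / (1 - w))⁻¹ := by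
    rw [inv_div]
    congr 1
    ring
  rw [h1, log_inv _ (fun h' => ?_)]
  · ring
  · have h1 := cay_slit h
    rw [mem_slitPlane_iff_arg] at h1
    exact h1.1 h'

lemma psi_zero : psi 0 = 0 := by unfold psi; simp

/-- exponential of the chart -/
lemma exp_psi {w : ℂ} (h : w ∈ DC) : exp ((Real.pi / 2 : ℝ) * psi w) = (1 + w) / (1 - w) := by
  unfold psi
  rw [← mul_assoc, ← ofReal_mul]
  have hp := Real.pi_pos
  rw [show Real.pi / 2 * (2 / Real.pi) = 1 by field_simp, ofReal_one, one_mul, exp_log (cay_ne h)]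

lemma th_psi {w : ℂ} (h : w ∈ DC) : th (psi w) = w := by
  unfold th
  rw [exp_psi h]
  have h1 := (ne_of_DC h).1
  have h2 : (1 + w) / (1 - w) + 1 = 2 / (1 - w) := by field_simp; ring
  have h3 : (1 + w) / (1 - w) - 1 = 2 * w / (1 - w) := by field_simp; ring
  rw [h2, h3]
  field_simp

/-- closed strip -/
def SC : Set ℂ := {z | |z.im| ≤ 1}

lemma exp_im (z : ℂ) : ((Real.pi / 2 : ℝ) * z : ℂ).im = Real.pi / 2 * z.im := by
  rw [Complex.im_ofReal_mul]

lemma exp_re_nonneg {z : ℂ} (h : z ∈ SC) : 0 ≤ (exp ((Real.pi / 2 : ℝ) * z)).re := by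
  rw [exp_re]
  apply mul_nonneg (Real.exp_pos _).le
  apply Real.cos_nonneg_of_mem_Icc
  rw [exp_im]
  have h1 := abs_le.mp (show |z.im| ≤ 1 from h)
  have hp := Real.pi_pos
  constructor <;> nlinarith

lemma exp_add_ne {z : ℂ} (h : z ∈ SC) : exp ((Real.pi / 2 : ℝ) * z) + 1 ≠ 0 := by
  intro h'
  have h1 := exp_re_nonneg h
  have h2 := congrArg re h'
  simp only [add_re, one_re, zero_re] at h2
  linarith

lemma one_sub_th {z : ℂ} (h : z ∈ SC) : 1 - th z = 2 / (exp ((Real.pi / 2 : ℝ) * z) + 1) := by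
  unfold th
  have h1 := exp_add_ne h
  field_simp
  ring

lemma one_add_th {z : ℂ} (h : z ∈ SC) :
    1 + th z = 2 * exp ((Real.pi / 2 : ℝ) * z) / (exp ((Real.pi / 2 : ℝ) * z) + 1) := by
  unfold th
  have h1 := exp_add_ne h
  field_simp
  ring

lemma cay_th {z : ℂ} (h : z ∈ SC) : (1 + th z) / (1 - th z) = exp ((Real.pi / 2 : ℝ) * z) := by
  rw [one_sub_th h, one_add_th h]
  have h1 := exp_add_ne h
  field_simp

lemma th_DC {z : ℂ} (h : z ∈ SC) : th z ∈ DC := by
  have h1 := exp_add_ne h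
  have hne1 : th z ≠ 1 := by
    intro h'
    have h2 := one_sub_th h
    rw [h', sub_self] at h2
    exact div_ne_zero two_ne_zero h1 h2.symm
  have hne2 : th z ≠ -1 := by
    intro h'
    have h2 := one_add_th h
    rw [h', add_neg_cancel] at h2
    exact div_ne_zero (mul_ne_zero two_ne_zero (exp_ne_zero _)) h1 h2.symm
  refine ⟨?_, hne1, hne2⟩
  have h3 := re_cay (th z)
  rw [cay_th h] at h3
  have h4 := exp_re_nonneg h
  rw [h3] at h4
  have h5 : 0 < normSq (1 - th z) := normSq_pos.mpr (sub_ne_zero.mpr hne1.symm)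
  have h6 : 0 ≤ 1 - ‖th z‖ ^ 2 := by
    by_contra h'
    push Not at h'
    have := div_neg_of_neg_of_pos h' h5
    linarith
  have h0 := norm_nonneg (th z)
  nlinarith

lemma psi_th {z : ℂ} (h : z ∈ SC) : psi (th z) = z := by
  unfold psi
  rw [cay_th h]
  have hp := Real.pi_pos
  have h1 := abs_le.mp (show |z.im| ≤ 1 from h)
  rw [log_exp]
  · rw [← mul_assoc, ← ofReal_mul, show 2 / Real.pi * (Real.pi / 2) = 1 by field_simp, ofReal_one,
      one_mul]
  · rw [exp_im]; nlinarith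
  · rw [exp_im]; nlinarith

lemma th_norm_lt {z : ℂ} (h : |z.im| < 1) : ‖th z‖ < 1 := by
  have hz : z ∈ SC := h.le
  refine lt_of_le_of_ne (th_DC hz).1 fun h1 => ?_
  have h3 := re_cay (th z)
  rw [cay_th hz, h1] at h3
  simp only [one_pow, sub_self, zero_div] at h3
  rw [exp_re] at h3
  have h4 : 0 < Real.cos ((Real.pi / 2 : ℝ) * z : ℂ).im := by
    apply Real.cos_pos_of_mem_Ioo
    rw [exp_im]
    have h2 := abs_lt.mp h
    have hp := Real.pi_pos
    constructor <;> nlinarith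
  have h5 := mul_pos (Real.exp_pos ((Real.pi / 2 : ℝ) * z : ℂ).re) h4
  linarith

lemma th_norm_eq {z : ℂ} (h : |z.im| = 1) : ‖th z‖ = 1 := by
  have hz : z ∈ SC := h.le
  refine le_antisymm (th_DC hz).1 ?_
  by_contra h'
  push Not at h'
  have := psi_strip' h'
  rw [psi_th hz] at this
  linarith

lemma psi_bdry {w : ℂ} (h : w ∈ DC) (h1 : ‖w‖ = 1) : |(psi w).im| = 1 := by
  refine le_antisymm (psi_strip h) ?_
  by_contra h'
  push Not at h'
  have := th_norm_lt h'
  rw [th_psi h] at this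
  linarith

/-- upper half to upper half -/
lemma psi_im_nonneg {w : ℂ} (h0 : 0 ≤ w.im) : 0 ≤ (psi w).im := by
  rw [psi_im]
  apply mul_nonneg (by positivity)
  rw [arg_nonneg_iff, im_cay]
  exact div_nonneg (by linarith) (normSq_nonneg _)

lemma psi_im_pos {w : ℂ} (h : w ∈ DC) (h0 : 0 < w.im) : 0 < (psi w).im := by
  rw [psi_im]
  apply mul_pos (by positivity)
  have h1 : 0 < ((1 + w) / (1 - w)).im := by
    rw [im_cay]
    exact div_pos (by linarith) (normSq_pos.mpr (ne_of_DC h).1)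
  rcases lt_or_eq_of_le (arg_nonneg_iff.mpr h1.le) with h2 | h2
  · exact h2
  · rw [eq_comm, arg_eq_zero_iff] at h2
    linarith [h2.2]

lemma psi_im_neg {w : ℂ} (h : w ∈ DC) (h0 : w.im < 0) : (psi w).im < 0 := by
  have h1 : conj w ∈ DC := by
    refine ⟨by rw [norm_conj]; exact h.1, fun h' => h.2.1 ?_, fun h' => h.2.2 ?_⟩
    · have := congrArg conj h'; simpa using this
    · have := congrArg conj h'; simpa using this
  have h2 := psi_im_pos h1 (by simpa using h0)
  rw [psi_conj h] at h2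
  simpa using h2

lemma psi_im_nonpos {w : ℂ} (h : w ∈ DC) (h0 : w.im ≤ 0) : (psi w).im ≤ 0 := by
  rcases lt_or_eq_of_le h0 with h1 | h1
  · exact (psi_im_neg h h1).le
  · have h2 : conj w = w := conj_eq_iff_im.mpr h1
    have h3 := psi_conj h
    rw [h2] at h3
    have := congrArg im h3
    simp at this
    linarith

lemma psi_real {x : ℝ} (h : (x : ℂ) ∈ DC) : psi x = ((psi x).re : ℂ) := by
  have h3 := psi_conj h
  rw [conj_ofReal] at h3
  exact (conj_eq_iff_re.mp h3.symm).symm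

/-- the chart on the real diameter -/
lemma psi_ofReal {x : ℝ} (h1 : -1 < x) (h2 : x < 1) :
    psi x = ((2 / Real.pi * Real.log ((1 + x) / (1 - x)) : ℝ) : ℂ) := by
  have h : (x : ℂ) ∈ DC := ball_sub_DC (by
    rw [norm_real, Real.norm_eq_abs, abs_lt]; exact ⟨h1, h2⟩)
  rw [psi_real h, psi_re]
  congr 3
  have h3 : ((1 + (x : ℂ)) / (1 - x)) = (((1 + x) / (1 - x) : ℝ) : ℂ) := by push_cast; rfl
  rw [h3, norm_real, Real.norm_eq_abs, abs_of_pos]
  exact div_pos (by linarith) (by linarith)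

lemma psi_mono {x y : ℝ} (h1 : -1 < x) (h : x < y) (h2 : y < 1) : (psi x).re < (psi y).re := by
  rw [psi_ofReal h1 (h.trans h2), psi_ofReal (h1.trans h) h2, ofReal_re, ofReal_re]
  have hp := Real.pi_pos
  have h3 : (1 + x) / (1 - x) < (1 + y) / (1 - y) := by
    rw [div_lt_div_iff₀ (by linarith) (by linarith)]
    nlinarith
  have h4 : 0 < (1 + x) / (1 - x) := div_pos (by linarith) (by linarith)
  have h5 := Real.log_lt_log h4 h3
  gcongr

end Pool.Agent.H16.W
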