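import Mathlib
import Pool.Agent.H99.W.Block

set_option autoImplicit false

/-! # Junction world: the value of a configuration with one mark on the solid plate

`G` : strand graph with the ends `z` (moving), `m` (mark on `P`), `F`, `L` (outer marks). The value is `uF`
if `z` is joined to `F`, `uL` if `z` is joined to `L`; otherwise `z` is joined to `m` and `F` to `L`, and the
value is `ua` or `ub` according to the parity of the number of passages of the strand of `F` through the
cut `C` (slit to the left of the mark). `VY_block`, `VY_zero`: the value is a function of the outside of a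
region with one exit, resp. without exit. -/

namespace Pool.Agent.H16.W

open SimpleGraph Pool.Agent.H99.W

variable {α : Type*}

/-- the component of `F` does not enter a region all of whose outer crossing vertices are not joined to `F` -/
lemma comp_off {G : SimpleGraph α} {I : Set α} {F w : α} (hF : F ∉ I)
    (hb : ∀ u v, u ∈ I → v ∉ I → G.Adj u v → ¬ G.Reachable F v) (h : G.Reachable F w) :
    w ∉ I ∧ (off G I).Reachable F w := by
  obtain ⟨p⟩ := h
  have key : ∀ (a c : α) (p : G.Walk a c), a ∉ I → G.Reachable F a →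
      c ∉ I ∧ (off G I).Reachable a c := by
    intro a c p
    induction p with
    | nil => exact fun ha _ => ⟨ha, Reachable.refl _⟩
    | @cons u v w h _ ih =>
      intro hu hFu
      by_cases hv : v ∈ I
      · exact absurd hFu (hb v u hv hu h.symm)
      · obtain ⟨h1, h2⟩ := ih hv (hFu.trans h.reachable)
        have h3 : (off G I).Adj u v := ⟨h, hu, hv⟩
        exact ⟨h1, h3.reachable.trans h2⟩
  exact key F w p hF (Reachable.refl _)

lemma off_eq {G G' : SimpleGraph α} {I : Set α}
    (hag : ∀ u v, u ∉ I → v ∉ I → (G.Adj u v ↔ G'.Adj u v)) : off G I = off G' I := by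
  ext u v
  rw [off_adj, off_adj]
  constructor
  · exact fun k => ⟨(hag u v k.2.1 k.2.2).1 k.1, k.2⟩
  · exact fun k => ⟨(hag u v k.2.1 k.2.2).2 k.1, k.2⟩

/-- two graphs which agree outside `I` have the same component of `F` if it does not enter `I` -/
lemma comp_eq {G G' : SimpleGraph α} {I : Set α}
    (hag : ∀ u v, u ∉ I → v ∉ I → (G.Adj u v ↔ G'.Adj u v)) {F : α} (hF : F ∉ I)
    (hb : ∀ u v, u ∈ I → v ∉ I → G.Adj u v → ¬ G.Reachable F v)
    (hb' : ∀ u v, u ∈ I → v ∉ I → G'.Adj u v → ¬ G'.Reachable F v) (w : α) :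
    G.Reachable F w ↔ G'.Reachable F w := by
  have h0 := off_eq hag
  constructor
  · intro h
    have h1 := (comp_off hF hb h).2
    rw [h0] at h1
    exact h1.mono (off_le _ _)
  · intro h
    have h1 := (comp_off hF hb' h).2
    rw [← h0] at h1
    exact h1.mono (off_le _ _)

open Classical in
/-- number of passages of the strand of `F` through `C` -/
noncomputable def pas (G : SimpleGraph α) (F : α) (C : Finset α) : ℕ :=
  (C.filter fun c => G.Reachable F c).card

/-- values -/
structure Val4 where
  uF : ℂ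
  uL : ℂ
  ua : ℂ
  ub : ℂ

open Classical in
/-- the value of a configuration -/
noncomputable def VY (u : Val4) (C : Finset α) (F L z : α) (G : SimpleGraph α) : ℂ :=
  if G.Reachable z F then u.uF else if G.Reachable z L then u.uL
  else if Even (pas G F C) then u.ua else u.ub

lemma pas_congr {G G' : SimpleGraph α} {F : α} {C : Finset α}
    (h : ∀ c ∈ C, (G.Reachable F c ↔ G'.Reachable F c)) : pas G F C = pas G' F C := by
  classical
  unfold pas
  congr 1
  apply Finset.filter_congr
  intro c hc
  exact h c hc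

lemma VY_congr {G G' : SimpleGraph α} {u : Val4} {C : Finset α} {F L z z' : α}
    (h1 : G.Reachable z F ↔ G'.Reachable z' F) (h2 : G.Reachable z L ↔ G'.Reachable z' L)
    (h3 : ¬ G.Reachable z F → ¬ G.Reachable z L → ∀ c ∈ C, (G.Reachable F c ↔ G'.Reachable F c)) :
    VY u C F L z G = VY u C F L z' G' := by
  classical
  unfold VY
  by_cases c1 : G.Reachable z F
  · rw [if_pos c1, if_pos (h1.1 c1)]
  · rw [if_neg c1, if_neg (fun h => c1 (h1.2 h))]
    by_cases c2 : G.Reachable z L
    · rw [if_pos c2, if_pos (h2.1 c2)]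
    · rw [if_neg c2, if_neg (fun h => c2 (h2.2 h)), pas_congr (h3 c1 c2)]

lemma VY_norm_le {u : Val4} {M : ℝ} (h1 : ‖u.uF‖ ≤ M) (h2 : ‖u.uL‖ ≤ M) (h3 : ‖u.ua‖ ≤ M)
    (h4 : ‖u.ub‖ ≤ M) (C : Finset α) (F L z : α) (G : SimpleGraph α) : ‖VY u C F L z G‖ ≤ M := by
  unfold VY
  split_ifs <;> assumption

/-- one exit: every strand of a point of the region which leaves the region contains the exit vertex -/
lemma reach_exit {G : SimpleGraph α} {I : Set α} {b z x : α}
    (hI : ∀ u v, u ∈ I → v ∉ I → G.Adj u v → v = b) (hz : z ∈ I) (hx : x ∉ I)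
    (h : G.Reachable z x) : G.Reachable z b ∧ (off G I).Reachable b x := by
  obtain ⟨u, hu, hub, hb, hr⟩ := last_exit hI hz hx h
  exact ⟨h.trans (hr.mono (off_le _ _)).symm, hr⟩

/-- **One exit.** `z` is joined to the outside in both configurations. -/
theorem VY_block {G G' : SimpleGraph α} {I : Set α}
    (hag : ∀ u v, u ∉ I → v ∉ I → (G.Adj u v ↔ G'.Adj u v)) {b z z' m F L : α}
    (hI : ∀ u v, u ∈ I → v ∉ I → G.Adj u v → v = b)
    (hI' : ∀ u v, u ∈ I → v ∉ I → G'.Adj u v → v = b)
    (hz : z ∈ I) (hz' : z' ∈ I) (hm : m ∉ I) (hF : F ∉ I) (hL : L ∉ I)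
    (h : G.Reachable z F ∨ G.Reachable z L ∨ G.Reachable z m)
    (h' : G'.Reachable z' F ∨ G'.Reachable z' L ∨ G'.Reachable z' m) (u : Val4) (C : Finset α) :
    VY u C F L z G = VY u C F L z' G' := by
  have h0 := off_eq hag
  -- `z` is joined to `b`
  have hzb : G.Reachable z b := by
    rcases h with h | h | h
    · exact (reach_exit hI hz hF h).1
    · exact (reach_exit hI hz hL h).1
    · exact (reach_exit hI hz hm h).1
  have hzb' : G'.Reachable z' b := by
    rcases h' with h | h | h
    · exact (reach_exit hI' hz' hF h).1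
    · exact (reach_exit hI' hz' hL h).1
    · exact (reach_exit hI' hz' hm h).1
  have key : ∀ x, x ∉ I → (G.Reachable z x ↔ G'.Reachable z' x) := by
    intro x hx
    constructor
    · intro hr
      have h1 := (reach_exit hI hz hx hr).2
      rw [h0] at h1
      exact hzb'.trans (h1.mono (off_le _ _))
    · intro hr
      have h1 := (reach_exit hI' hz' hx hr).2
      rw [← h0] at h1
      exact hzb.trans (h1.mono (off_le _ _))
  apply VY_congr (key F hF) (key L hL)
  intro c1 _ c _
  apply comp_eq hag hF
  · intro u v hu hv ha hr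
    rw [hI u v hu hv ha] at hr
    exact c1 (hzb.trans hr.symm)
  · intro u v hu hv ha hr
    rw [hI' u v hu hv ha] at hr
    exact c1 ((key F hF).2 (hzb'.trans hr.symm))

/-- **No exit.** -/
theorem VY_zero {G G' : SimpleGraph α} {I : Set α}
    (hag : ∀ u v, u ∉ I → v ∉ I → (G.Adj u v ↔ G'.Adj u v)) {z z' F L : α}
    (hI : ∀ u v, u ∈ I → v ∉ I → ¬ G.Adj u v) (hI' : ∀ u v, u ∈ I → v ∉ I → ¬ G'.Adj u v)
    (hz : z ∈ I) (hz' : z' ∈ I) (hF : F ∉ I) (hL : L ∉ I) (u : Val4) (C : Finset α) :
    VY u C F L z G = VY u C F L z' G' := by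
  have key : ∀ {G : SimpleGraph α}, (∀ u v, u ∈ I → v ∉ I → ¬ G.Adj u v) → ∀ {z x : α}, z ∈ I →
      x ∉ I → ¬ G.Reachable z x := by
    intro G hI z x hz hx h
    obtain ⟨u, hu, hub, hb, -⟩ := last_exit (b := z) (fun u v hu hv ha => absurd ha (hI u v hu hv)) hz hx h
    exact hI u z hu hb hub
  apply VY_congr
  · exact ⟨fun h => absurd h (key hI hz hF), fun h => absurd h (key hI' hz' hF)⟩
  · exact ⟨fun h => absurd h (key hI hz hL), fun h => absurd h (key hI' hz' hL)⟩
  · intro _ _ c _
    exact comp_eq hag hF (fun u v hu hv ha => absurd ha (hI u v hu hv))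
      (fun u v hu hv ha => absurd ha (hI' u v hu hv)) c

end Pool.Agent.H16.W
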